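import Pool.Agent.GRM.Bas2

/-! GRM-Ang: the angle at the vertex `V (k + 1)` (imports Bas2).

PLAN.  `w = -(dir k) / dir (k+1)` has norm 1, and `w.im = cross (dir (k+1)) (-(dir k)) = cross (dir k) (dir (k+1)) > 0` (`g_V_pos` for `V (k+1+1)`, which is
`V (k+1) + len * dir (k+1)`): so `arg w ∈ (0, π)` and `w = uv (arg w)`.
* `Into_iff`: `cross (dir (k+1)) (dir (k+1) * uv φ) = sin φ`, `cross (dir k) (dir (k+1) * uv φ) = sin (ang k - φ)` (as `dir k = - dir (k+1) * uv (ang k)`).
* `Into_exists`: `u = dir (k+1) * uv φ` with `φ = arg (u / dir (k+1)) ∈ (-π, π]`; `sin φ > 0`: `φ ∈ (0, π)`; `sin (ang k - φ) > 0` and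
  `ang k - φ ∈ (-π, π)`: `φ < ang k`.
* `ang_eq`: `EuclideanGeometry.angle` is `InnerProductGeometry.angle (V k - V (k+1)) (V (k+1+1) - V (k+1))`, the vectors are positive multiples of
  `-(dir k)` and `dir (k+1)`; `Complex.angle_eq_abs_arg`, the argument is positive; `V_succ`. -/

namespace Pool.Agent.GRM

open Bil62 Bil62.ConvexPolygon MeasureTheory Set

variable {n : ℕ} [NeZero n] (P : ConvexPolygon n)

private theorem dir_ne (k : Fin n) : P.dir k ≠ 0 := by
  intro h
  have := P.norm_dir k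
  rw [h, norm_zero] at this
  exact zero_ne_one this

private theorem w_norm (k : Fin n) : ‖-(P.dir k) / P.dir (k + 1)‖ = 1 := by
  rw [norm_div, norm_neg, P.norm_dir, P.norm_dir, div_one]

private theorem w_eq (k : Fin n) : -(P.dir k) / P.dir (k + 1) = uv (ang P k) := by
  have h := Complex.norm_mul_exp_arg_mul_I (-(P.dir k) / P.dir (k + 1))
  rw [w_norm] at h
  unfold uv ang
  simpa using h.symm

theorem dir_eq (k : Fin n) : P.dir k = - (P.dir (k + 1) * uv (ang P k)) := by
  rw [← w_eq, mul_div_cancel₀ _ (dir_ne P (k + 1)), neg_neg]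

private theorem uv_zero : uv 0 = 1 := by
  unfold uv
  simp

private theorem cross_mul_uv (k : Fin n) (a b : ℝ) :
    cross (P.dir k * uv a) (P.dir k * uv b) = Real.sin (b - a) := by
  rw [cross_mul_left _ _ _ (P.norm_dir k), cross_uv]

theorem cross_dir_succ (k : Fin n) (φ : ℝ) : cross (P.dir (k + 1)) (P.dir (k + 1) * uv φ) = Real.sin φ := by
  have := cross_mul_uv P (k + 1) 0 φ
  rwa [uv_zero, mul_one, sub_zero] at this

theorem cross_dir_self (k : Fin n) (φ : ℝ) :
    cross (P.dir k) (P.dir (k + 1) * uv φ) = Real.sin (ang P k - φ) := by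
  conv_lhs => rw [dir_eq P k]
  rw [cross_neg_left, cross_mul_uv, ← Real.sin_neg]
  congr 1
  ring

private theorem sin_ang_pos (k : Fin n) : 0 < Real.sin (ang P k) := by
  have h1 := cross_dir_self P k 0
  rw [uv_zero, mul_one, sub_zero] at h1
  rw [← h1]
  have h2 : 0 < P.g k (P.V (k + 1 + 1)) := P.g_V_pos (P.exists_other k).1 (P.exists_other k).2
  rw [P.V_succ (k + 1), P.g_add_smul, P.g_V_succ, zero_add] at h2
  exact (mul_pos_iff_of_pos_left (P.len_pos (k + 1))).1 h2

theorem ang_pos (k : Fin n) : 0 < ang P k := by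
  by_contra h
  have h1 : -Real.pi < ang P k := Complex.neg_pi_lt_arg _
  have h2 := Real.sin_nonpos_of_nonpos_of_neg_pi_le (not_lt.1 h) h1.le
  linarith [sin_ang_pos P k]

theorem ang_lt (k : Fin n) : ang P k < Real.pi := by
  have h1 : ang P k ≤ Real.pi := Complex.arg_le_pi _
  rcases lt_or_eq_of_le h1 with h | h
  · exact h
  · have h2 := sin_ang_pos P k
    rw [h, Real.sin_pi] at h2
    exact absurd h2 (lt_irrefl _)

theorem Into_of {k : Fin n} {φ : ℝ} (h : φ ∈ Ioo 0 (ang P k)) : Into P k (P.dir (k + 1) * uv φ) := by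
  have h1 := ang_lt P k
  refine ⟨?_, ?_⟩
  · rw [cross_dir_self]
    exact Real.sin_pos_of_pos_of_lt_pi (by linarith [h.2]) (by linarith [h.1])
  · rw [cross_dir_succ]
    exact Real.sin_pos_of_pos_of_lt_pi h.1 (by linarith [h.2])

theorem Into_exists {k : Fin n} {u : ℂ} (hu : ‖u‖ = 1) (h : Into P k u) :
    ∃ φ ∈ Ioo 0 (ang P k), u = P.dir (k + 1) * uv φ := by
  have h0 : u = P.dir (k + 1) * uv (Complex.arg (u / P.dir (k + 1))) := by
    have h1 := Complex.norm_mul_exp_arg_mul_I (u / P.dir (k + 1))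
    rw [norm_div, hu, P.norm_dir, div_one] at h1
    have h2 : uv (Complex.arg (u / P.dir (k + 1))) = u / P.dir (k + 1) := by
      unfold uv
      simpa using h1
    rw [h2, mul_div_cancel₀ _ (dir_ne P (k + 1))]
  set φ := Complex.arg (u / P.dir (k + 1)) with hφ
  have hl : -Real.pi < φ := Complex.neg_pi_lt_arg _
  have hr : φ ≤ Real.pi := Complex.arg_le_pi _
  obtain ⟨h1, h2⟩ := h
  rw [h0, cross_dir_self] at h1
  rw [h0, cross_dir_succ] at h2
  have ha := ang_pos P k
  have hb := ang_lt P k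
  have p1 : 0 < φ := by
    by_contra hc
    have := Real.sin_nonpos_of_nonpos_of_neg_pi_le (not_lt.1 hc) hl.le
    linarith
  have p2 : φ < ang P k := by
    by_contra hc
    have := Real.sin_nonpos_of_nonpos_of_neg_pi_le (x := ang P k - φ) (by linarith [not_lt.1 hc])
      (by linarith)
    linarith
  exact ⟨φ, ⟨p1, p2⟩, h0⟩

private theorem dir_uv (k : Fin n) (φ : ℝ) :
    P.dir (k + 1) * uv φ = uv (Complex.arg (P.dir (k + 1)) + φ) := by
  rw [uv_add, ← dir_eq_uv]

theorem lr_zero (k : Fin n) (φ : ℝ) : lr P k φ 0 = vr P k (Complex.arg (P.dir (k + 1)) + φ) := by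
  unfold lr vr
  rw [dir_uv, add_zero]

/-- conversion of statements on almost all rays -/
theorem full_iff (i k : Fin n) : Full P i k ↔ ∀ᵐ φ : ℝ, φ ∈ Ioo 0 (ang P k) → Rch P i (lr P k φ 0) := by
  unfold Full
  constructor
  · intro h
    have h1 := (measurePreserving_add_left volume
      (Complex.arg (P.dir (k + 1)))).quasiMeasurePreserving.ae h
    filter_upwards [h1] with φ h2 hφ
    rw [lr_zero]
    apply h2
    rw [← dir_uv]
    exact Into_of P hφ
  · intro h
    have h1 : ∀ m : ℤ, ∀ᵐ α : ℝ, (-(Complex.arg (P.dir (k + 1))) - m * (2 * Real.pi) + α) ∈ Ioo 0 (ang P k) →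
        Rch P i (lr P k (-(Complex.arg (P.dir (k + 1))) - m * (2 * Real.pi) + α) 0) := fun m =>
      (measurePreserving_add_left volume
        (-(Complex.arg (P.dir (k + 1))) - m * (2 * Real.pi))).quasiMeasurePreserving.ae h
    filter_upwards [ae_all_iff.2 h1] with α h2 hα
    obtain ⟨φ, hφ, he⟩ := Into_exists P (norm_uv α) hα
    rw [dir_uv] at he
    obtain ⟨m, hm⟩ := (uv_eq_iff _ _).1 he
    have e1 : -(Complex.arg (P.dir (k + 1))) - m * (2 * Real.pi) + α = φ := by
      rw [hm]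
      ring
    have h3 := h2 m
    rw [e1] at h3
    have h4 := h3 hφ
    rw [lr_zero] at h4
    have e2 : vr P k (Complex.arg (P.dir (k + 1)) + φ) = vr P k α := by
      unfold vr
      rw [← he]
    rwa [e2] at h4

theorem ang_eq (k : Fin n) : ang P k = EuclideanGeometry.angle (P.V k) (P.V (k + 1)) (P.V (k + 1 + 1)) := by
  unfold EuclideanGeometry.angle
  have e1 : P.V k -ᵥ P.V (k + 1) = P.len k • (-(P.dir k)) := by
    rw [P.V_succ k, vsub_eq_sub, Complex.real_smul]
    ring
  have e2 : P.V (k + 1 + 1) -ᵥ P.V (k + 1) = P.len (k + 1) • P.dir (k + 1) := by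
    rw [P.V_succ (k + 1), vsub_eq_sub, Complex.real_smul]
    ring
  rw [e1, e2, InnerProductGeometry.angle_smul_left_of_pos _ _ (P.len_pos k),
    InnerProductGeometry.angle_smul_right_of_pos _ _ (P.len_pos (k + 1)),
    Complex.angle_eq_abs_arg (neg_ne_zero.2 (dir_ne P k)) (dir_ne P (k + 1))]
  exact (abs_of_pos (ang_pos P k)).symm

end Pool.Agent.GRM
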