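import Pool.Agent.GRM.Bas1

/-! GRM-RchA: the relation `Rch` (the orbit arrives at side `i`) under reflections and reversal (imports Bas1).

PLAN.
* `Rch_of_Wd`: append the words (`Wd_append`, `Tw_append`).
* `Rch_cons`: the word `[]` gives `Ex i x`, so `l = i`; a word `l' :: ω` has `l' = l` (`Ex_unique`).
* `Rch_rv_T`: `rv (T l x)` leaves through `l` (`Ex_rv`, `En_T`) and `T l (rv (T l x)) = rv x`: prepend `l` to the word.
* `Rch_rv_T'`: the word for `rv (T l x)` is not empty (else `Ex i` and `Ex l`, `l ≠ i`), its first letter is `l`.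
* `not_Rch_Tw`: `Rch_of_Wd`.  `letters`: if `i ∈ ω` then a prefix of `ω` shows `Rch i x`.
* `Rch_rv_Tw`: induction on `ω`, generalizing `x`; `ω = l :: ω'`: `l ≠ i` as `¬ Rch i x`, and `¬ Rch i (T l x)`.
* `no_Rch`: a line without exit side has `Wd ω` only for `ω = []`. -/

namespace Pool.Agent.GRM

open Bil62 Bil62.ConvexPolygon MeasureTheory Set

variable {n : ℕ} [NeZero n] (P : ConvexPolygon n)

theorem Rch_of_Wd {i : Fin n} {ω : List (Fin n)} {x : ℂ × ℝ} (h : Wd P ω x) (hr : Rch P i (Tw P ω x)) :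
    Rch P i x := by
  obtain ⟨ω', h1, h2⟩ := hr
  refine ⟨ω ++ ω', (Wd_append P ω ω' x).2 ⟨h, h1⟩, ?_⟩
  rw [Tw_append]
  exact h2

theorem Rch_of_Ex {i : Fin n} {x : ℂ × ℝ} (h : Ex P i x) : Rch P i x := ⟨[], trivial, h⟩

theorem Rch_cons {i l : Fin n} {x : ℂ × ℝ} (hx : ‖x.1‖ = 1) (h : Ex P l x) (hl : l ≠ i) (hr : Rch P i x) :
    Rch P i (T P l x) := by
  obtain ⟨ω, h1, h2⟩ := hr
  cases ω with
  | nil => exact absurd (Ex_unique P hx h h2) hl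
  | cons l' ω =>
    obtain ⟨h3, h4⟩ := h1
    have e : l = l' := Ex_unique P hx h h3
    subst e
    exact ⟨ω, h4, h2⟩

theorem Rch_rv_T {i l : Fin n} {x : ℂ × ℝ} (h : Ex P l x) (hr : Rch P i (rv x)) :
    Rch P i (rv (T P l x)) := by
  obtain ⟨ω, h1, h2⟩ := hr
  refine ⟨l :: ω, ⟨(Ex_rv P).2 ((En_T P).2 h), ?_⟩, ?_⟩
  · rw [T_rv_T]
    exact h1
  · show Ex P i (Tw P ω (T P l (rv (T P l x))))
    rw [T_rv_T]
    exact h2

theorem Rch_rv_T' {i l : Fin n} {x : ℂ × ℝ} (hx : ‖x.1‖ = 1) (h : Ex P l x) (hl : l ≠ i)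
    (hr : Rch P i (rv (T P l x))) : Rch P i (rv x) := by
  have h1 : Ex P l (rv (T P l x)) := (Ex_rv P).2 ((En_T P).2 h)
  have h2 := Rch_cons P (by rw [norm_rv, norm_T]; exact hx) h1 hl hr
  rwa [T_rv_T] at h2

theorem not_Rch_Tw {i : Fin n} {ω : List (Fin n)} {x : ℂ × ℝ} (hn : ¬ Rch P i x) (h : Wd P ω x) :
    ¬ Rch P i (Tw P ω x) := fun hr => hn (Rch_of_Wd P h hr)

theorem letters {i : Fin n} {ω : List (Fin n)} {x : ℂ × ℝ} (hn : ¬ Rch P i x) (h : Wd P ω x) : i ∉ ω := by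
  intro hi
  obtain ⟨ω₁, ω₂, rfl⟩ := List.append_of_mem hi
  obtain ⟨h1, h2⟩ := (Wd_append P ω₁ (i :: ω₂) x).1 h
  exact hn ⟨ω₁, h1, h2.1⟩

theorem Rch_rv_Tw {i : Fin n} {ω : List (Fin n)} {x : ℂ × ℝ} (hx : ‖x.1‖ = 1) (hn : ¬ Rch P i x)
    (h : Wd P ω x) : Rch P i (rv (Tw P ω x)) ↔ Rch P i (rv x) := by
  induction ω generalizing x with
  | nil => rfl
  | cons l ω ih =>
    have hl : l ≠ i := by
      intro e
      exact letters P hn h (by rw [e]; exact List.mem_cons_self)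
    obtain ⟨h1, h2⟩ := h
    have hn' : ¬ Rch P i (T P l x) := not_Rch_Tw P (ω := [l]) hn ⟨h1, trivial⟩
    have := ih (x := T P l x) (by rw [norm_T]; exact hx) hn' h2
    show Rch P i (rv (Tw P ω (T P l x))) ↔ _
    rw [this]
    exact ⟨Rch_rv_T' P hx h1 hl, Rch_rv_T P h1⟩

theorem no_Rch {i : Fin n} {x : ℂ × ℝ} (h : ∀ l, ¬ Ex P l x) : ¬ Rch P i x := by
  rintro ⟨ω, h1, h2⟩
  cases ω with
  | nil => exact h _ h2
  | cons l ω => exact h _ h1.1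

end Pool.Agent.GRM
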