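import Pool.Agent.GRM.Bas1

/-! GRM-Vtx: lines through a vertex (imports Bas1; geometry of a convex polygon). -/

namespace Pool.Agent.GRM

open Bil62 Bil62.ConvexPolygon MeasureTheory Set

variable {n : ℕ} [NeZero n] (P : ConvexPolygon n)

private theorem vtx_aux {k l : Fin n} {x : ℂ × ℝ} (hx : ‖x.1‖ = 1) (h : En P l x)
    (hv : x.2 = cross x.1 (P.V (k + 1))) : ∃ (z : ℂ) (t : ℝ), 0 < t ∧
      P.V (k + 1) = z + (t : ℂ) * x.1 ∧ P.g l z = 0 ∧ (∀ m, m ≠ l → 0 < P.g m z) ∧
      0 < cross (P.dir l) x.1 := by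
  obtain ⟨s, hs, hp⟩ := P.ent_pt h
  have hc := P.ent_cross h
  have hl := on_line hx (hp.trans hv)
  refine ⟨P.pt l s, dot x.1 (P.V (k + 1) - P.pt l s), ?_, hl, P.g_pt_self l s,
    fun m hm => P.g_pt_pos hm hs, hc⟩
  set t : ℝ := dot x.1 (P.V (k + 1) - P.pt l s) with ht
  have h1 : P.g l (P.V (k + 1)) = t * cross (P.dir l) x.1 := by
    rw [hl, P.g_add_smul, P.g_pt_self, zero_add]
  have h2 := P.g_V_nonneg l (k + 1)
  rw [h1] at h2
  have h3 : 0 ≤ t := nonneg_of_mul_nonneg_left h2 hc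
  rcases h3.lt_or_eq with h4 | h4
  · exact h4
  · exfalso
    have h5 : P.V (k + 1) = P.pt l s := by
      rw [hl, ← h4]
      simp
    by_cases hkl : k = l
    · have h6 : k + 1 ≠ l := by
        rw [← hkl]
        exact P.succ_ne k
      have h7 := P.g_pt_pos h6 hs
      rw [← h5, P.g_V_self] at h7
      exact lt_irrefl _ h7
    · have h7 := P.g_pt_pos hkl hs
      rw [← h5, P.g_V_succ] at h7
      exact lt_irrefl _ h7

theorem vr_no_En {k : Fin n} {x : ℂ × ℝ} (hx : ‖x.1‖ = 1) (hv : x.2 = cross x.1 (P.V (k + 1)))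
    (h : Into P k x.1) (l : Fin n) : ¬ En P l x := by
  intro hE
  obtain ⟨z, t, ht, hz, h0, hm, _⟩ := vtx_aux P hx hE hv
  have h1 : 0 ≤ P.g k z := by
    by_cases hk : k = l
    · rw [hk, h0]
    · exact (hm k hk).le
  have h2 := P.g_V_succ k
  rw [hz, P.g_add_smul] at h2
  have h3 := mul_pos ht h.1
  linarith

theorem vr_exit {k : Fin n} {x : ℂ × ℝ} (hx : ‖x.1‖ = 1) (hv : x.2 = cross x.1 (P.V (k + 1)))
    (h : Into P k x.1) : (∃ l, Ex P l x) ∨ ∃ j, j ≠ k + 1 ∧ x.2 = cross x.1 (P.V j) := by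
  have h1 : x.2 < cross x.1 (P.V k) := by
    have e := P.V_succ k
    rw [hv, e, cross_add_right, cross_smul_right]
    have h2 := mul_pos (P.len_pos k) h.1
    rw [cross_comm] at h2
    linarith
  have h2 : cross x.1 (P.V (k + 1 + 1)) < x.2 := by
    rw [P.V_succ (k + 1), cross_add_right, cross_smul_right, ← hv]
    have h2 := mul_pos (P.len_pos (k + 1)) h.2
    rw [cross_comm] at h2
    linarith
  rcases P.exit_or_vertex h2 h1 with ⟨l, hl⟩ | ⟨j, hj1, hj2⟩
  · exact Or.inl ⟨l, hl⟩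
  · refine Or.inr ⟨j + 1, ?_, hj2.symm⟩
    intro hjk
    have : j = k := add_right_cancel hjk
    rw [this] at hj1
    linarith

theorem line_exit {l : Fin n} {x : ℂ × ℝ} (hx : ‖x.1‖ = 1) (h : En P l x) :
    (∃ l', Ex P l' x) ∨ ∃ k, x.2 = cross x.1 (P.V (k + 1)) ∧ Into P k (-x.1) := by
  rcases P.exit_or_vertex h.1 h.2 with ⟨l', hl'⟩ | ⟨k, _, hk2⟩
  · exact Or.inl ⟨l', hl'⟩
  · refine Or.inr ⟨k, hk2.symm, ?_⟩
    obtain ⟨z, t, ht, hz, h0, hm, hc⟩ := vtx_aux P hx h hk2.symm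
    have key : ∀ m, P.g m (P.V (k + 1)) = 0 → 0 < cross (P.dir m) (-x.1) := by
      intro m hgm
      rw [hz, P.g_add_smul] at hgm
      rw [cross_neg_right]
      by_cases hml : m = l
      · exfalso
        rw [hml, h0, zero_add] at hgm
        exact (mul_pos ht hc).ne' hgm
      · have h1 := hm m hml
        have h2 : t * cross (P.dir m) x.1 < 0 := by linarith
        have h3 : cross (P.dir m) x.1 < 0 := by
          by_contra hge
          have := mul_nonneg ht.le (not_lt.mp hge)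
          linarith
        linarith
    exact ⟨key k (P.g_V_succ k), key (k + 1) (P.g_V_self (k + 1))⟩

theorem exit_pos {k l : Fin n} {x : ℂ × ℝ} (h : Into P k x.1) (hl : Ex P l x) : 0 < P.g l (P.V (k + 1)) := by
  have hc := P.exit_cross hl
  apply P.g_V_pos
  · intro he
    rw [← he] at hc
    have := h.2
    linarith
  · intro he
    rw [← add_right_cancel he] at hc
    have := h.1
    linarith

end Pool.Agent.GRM
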