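import Pool.Agent.GRM.Bas2
import Pool.Agent.GRM.Vtx
import Pool.Agent.GRM.RchA

/-! GRM-Bad1: in a family of lines that never meet side `i`, almost no direction contains a singular line (imports Bas2, Vtx, RchA).

PLAN.  Countable union over `(ω, j)`: the set `N ω j = {α | ¬ (Into j (uv β) → Rch i (vr j β)), β = cw ω + sg ω * α + π}` is null (`hf j`, affine change of variable).  Let `α` be
outside of all of them, and suppose a line `x = (uv α, p)` with `En k x`, `¬ Rch i x`, `¬ Rch i (rv x)` is not regular: there is a word `ω` with `Wd ω x` such that `y = Tw ω x`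
has no exit side (least length without a word).  `y` has an entry side (`ω = []`: `k`; else the last letter, `En_T`, `Tw_append`).  `line_exit`: `j` with `y.2 = cross y.1 (V (j+1))` and
`Into j (-y.1)`.  `y.1 = uv (cw ω + sg ω * α)` (`Tw_uv`), so `-y.1 = uv β` (`uv_add_pi`), `rv y = vr j β`.  So `Rch i (rv y)` by the choice of `α`; `Rch_rv_Tw`: `Rch i (rv x)`,
contradiction. -/

namespace Pool.Agent.GRM

open Bil62 Bil62.ConvexPolygon MeasureTheory Set

variable {n : ℕ} [NeZero n] (P : ConvexPolygon n)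

private theorem en_Tw {k : Fin n} {x : ℂ × ℝ} (he : En P k x) (ω : List (Fin n)) (h : Wd P ω x) :
    ∃ l, En P l (Tw P ω x) := by
  rcases List.eq_nil_or_concat ω with rfl | ⟨ω', l, rfl⟩
  · exact ⟨k, he⟩
  · rw [List.concat_eq_append] at h ⊢
    obtain ⟨_, h2⟩ := (Wd_append P ω' [l] x).1 h
    refine ⟨l, ?_⟩
    rw [Tw_append]
    exact (En_T P).2 h2.1

/-- a line that enters the polygon and is not regular arrives at a vertex -/
theorem not_reg {k : Fin n} {x : ℂ × ℝ} (hx : ‖x.1‖ = 1) (he : En P k x) (h : ¬ Reg P x) :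
    ∃ (ω : List (Fin n)) (j : Fin n), Wd P ω x ∧ (Tw P ω x).2 = cross (Tw P ω x).1 (P.V (j + 1)) ∧
      Into P j (-(Tw P ω x).1) := by
  classical
  have h' : ∃ m : ℕ, ¬ ∃ ω : List (Fin n), ω.length = m ∧ Wd P ω x := by
    by_contra hc
    apply h
    intro m
    by_contra hm
    exact hc ⟨m, hm⟩
  have hs := Nat.find_spec h'
  have hmin := fun m => Nat.find_min h' (m := m)
  rcases hm : Nat.find h' with _ | m
  · rw [hm] at hs
    exact absurd ⟨[], rfl, trivial⟩ hs
  · have h1 := hmin m (by omega)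
    rw [not_not] at h1
    obtain ⟨ω, hω, hW⟩ := h1
    obtain ⟨l, hl⟩ := en_Tw P he ω hW
    rcases line_exit P (by rw [norm_Tw]; exact hx) hl with ⟨l', hl'⟩ | ⟨j, hj1, hj2⟩
    · exfalso
      rw [hm] at hs
      apply hs
      refine ⟨ω ++ [l'], ?_, (Wd_append P ω [l'] x).2 ⟨hW, hl', trivial⟩⟩
      rw [List.length_append, hω]
      rfl
    · exact ⟨ω, j, hW, hj1, hj2⟩

theorem bad1 {i : Fin n} (hf : ∀ j, Full P i j) : ∀ᵐ α : ℝ, ∀ (k : Fin n) (p : ℝ),
    En P k (uv α, p) → ¬ Rch P i (uv α, p) → ¬ Rch P i (rv (uv α, p)) → Reg P (uv α, p) := by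
  have key : ∀ᵐ α : ℝ, ∀ (ω : List (Fin n)) (j : Fin n),
      Into P j (uv (cw P ω + sg ω * α + Real.pi)) → Rch P i (vr P j (cw P ω + sg ω * α + Real.pi)) := by
    rw [ae_all_iff]
    intro ω
    rw [ae_all_iff]
    intro j
    have hq : Measure.QuasiMeasurePreserving (fun α : ℝ => cw P ω + sg ω * α + Real.pi) volume volume := by
      rcases sg_eq ω with h | h
      · have e : (fun α : ℝ => cw P ω + sg ω * α + Real.pi) = fun α => α + (cw P ω + Real.pi) := by
          funext α
          rw [h]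
          ring
        rw [e]
        exact (measurePreserving_add_right volume (cw P ω + Real.pi)).quasiMeasurePreserving
      · have e : (fun α : ℝ => cw P ω + sg ω * α + Real.pi) = fun α => (cw P ω + Real.pi) - α := by
          funext α
          rw [h]
          ring
        rw [e]
        exact (Measure.measurePreserving_sub_left volume (cw P ω + Real.pi)).quasiMeasurePreserving
    exact hq.ae (hf j)
  filter_upwards [key] with α hα k p he hn hn'
  by_contra hr
  have hx : ‖(uv α, p).1‖ = 1 := norm_uv α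
  obtain ⟨ω, j, hW, h1, h2⟩ := not_reg P hx he hr
  have e1 : (Tw P ω (uv α, p)).1 = uv (cw P ω + sg ω * α) := Tw_uv P ω α p
  have e2 : -(Tw P ω (uv α, p)).1 = uv (cw P ω + sg ω * α + Real.pi) := by
    rw [e1, uv_add_pi]
  have e3 : rv (Tw P ω (uv α, p)) = vr P j (cw P ω + sg ω * α + Real.pi) := by
    unfold rv vr
    rw [← e2, h1, cross_neg_left]
  have h3 := hα ω j (by rw [← e2]; exact h2)
  rw [← e3] at h3
  exact hn' ((Rch_rv_Tw P hx hn hW).1 h3)

end Pool.Agent.GRM
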