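import Pool.Agent.GRM.Bad1

/-! GRM-Bad2: if almost no direction contains a singular line, then no line is singular. -/

namespace Pool.Agent.GRM

open Bil62 Bil62.ConvexPolygon MeasureTheory Set

variable {n : ℕ} [NeZero n] (P : ConvexPolygon n)

private theorem bad2_not {ω : List (Fin n)} {j : Fin n} {x : ℂ × ℝ} (hx : ‖x.1‖ = 1)
    (hw : Wd P ω x) (hv : (Tw P ω x).2 = cross (Tw P ω x).1 (P.V (j + 1)))
    (hi : Into P j (-(Tw P ω x).1)) : ¬ Reg P x := by
  intro h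
  obtain ⟨ω', hl, hw'⟩ := h (ω.length + 1)
  rw [← List.take_append_drop ω.length ω', Wd_append] at hw'
  have h1 : ω = ω'.take ω.length := by
    refine Wd_unique P hx ?_ hw hw'.1
    rw [List.length_take, hl]
    omega
  rw [← h1] at hw'
  obtain ⟨l, hl'⟩ : ∃ l, ω'.drop ω.length = [l] := by
    rw [← List.length_eq_one_iff, List.length_drop, hl]
    omega
  rw [hl'] at hw'
  have h2 : Ex P l (Tw P ω x) := hw'.2.1
  refine vr_no_En P (k := j) (x := rv (Tw P ω x)) ?_ ?_ hi l ((En_rv P).2 h2)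
  · rw [norm_rv, norm_Tw, hx]
  · show -(Tw P ω x).2 = cross (-(Tw P ω x).1) (P.V (j + 1))
    rw [cross_neg_left, hv]

theorem bad2 {a b s₁ s₂ : ℝ} {k : Fin n}
    (h1 : ∀ α ∈ Ioo a b, ∀ s ∈ Ioo s₁ s₂, En P k (uv α, cross (uv α) (P.pt k s)))
    (h2 : ∀ᵐ α : ℝ, α ∈ Ioo a b → ∀ s ∈ Ioo s₁ s₂, Reg P (uv α, cross (uv α) (P.pt k s))) :
    ∀ α ∈ Ioo a b, ∀ s ∈ Ioo s₁ s₂, Reg P (uv α, cross (uv α) (P.pt k s)) := by
  intro α₀ hα₀ s₀ hs₀
  by_contra hreg
  have hen := h1 α₀ hα₀ s₀ hs₀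
  obtain ⟨ω, j, hW, hy, hI⟩ := not_reg P (norm_uv α₀) hen hreg
  have hsg : sg ω * sg ω = 1 := by
    rcases sg_eq ω with h | h <;> rw [h] <;> ring
  have hTw : ∀ α q : ℝ, Tw P ω (uv α, q) =
      ((Tw P ω (uv α, 0)).1, (Tw P ω (uv α, 0)).2 + sg ω * q) := by
    intro α q
    have e : ((uv α, q) : ℂ × ℝ) = sh q (uv α, 0) := by
      unfold sh
      simp
    rw [e, Tw_sh]
    rfl
  obtain ⟨q, hq⟩ : ∃ q : ℝ → ℝ, ∀ α, q α =
      sg ω * (cross (Tw P ω (uv α, 0)).1 (P.V (j + 1)) - (Tw P ω (uv α, 0)).2) :=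
    ⟨_, fun _ => rfl⟩
  have hTc : Continuous fun α : ℝ => Tw P ω (uv α, 0) :=
    (continuous_Tw P ω).comp (continuous_uv.prodMk continuous_const)
  have hqc : Continuous q := by
    have e : q = fun α => sg ω * (cross (Tw P ω (uv α, 0)).1 (P.V (j + 1)) -
        (Tw P ω (uv α, 0)).2) := funext hq
    rw [e]
    have c1 : Continuous fun α : ℝ => (Tw P ω (uv α, 0)).1 := continuous_fst.comp hTc
    have c2 : Continuous fun α : ℝ => (Tw P ω (uv α, 0)).2 := continuous_snd.comp hTc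
    unfold cross
    fun_prop
  have hqv : ∀ α, (Tw P ω (uv α, q α)).2 = cross (Tw P ω (uv α, q α)).1 (P.V (j + 1)) := by
    intro α
    rw [hTw, hq]
    simp only
    rw [← mul_assoc, hsg]
    ring
  have hq0 : q α₀ = cross (uv α₀) (P.pt k s₀) := by
    rw [hTw] at hy
    simp only at hy
    rw [hq, ← hy]
    have : sg ω * ((Tw P ω (uv α₀, 0)).2 + sg ω * cross (uv α₀) (P.pt k s₀) -
        (Tw P ω (uv α₀, 0)).2) = (sg ω * sg ω) * cross (uv α₀) (P.pt k s₀) := by ring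
    rw [this, hsg, one_mul]
  have hc0 : cross (uv α₀) (P.dir k) ≠ 0 := by
    have := P.ent_cross hen
    rw [cross_comm]
    exact neg_ne_zero.2 this.ne'
  have hcc : Continuous fun α : ℝ => cross (uv α) (P.dir k) := by
    have := continuous_uv
    unfold cross
    fun_prop
  have hcV : Continuous fun α : ℝ => cross (uv α) (P.V k) := by
    have := continuous_uv
    unfold cross
    fun_prop
  obtain ⟨s, hs⟩ : ∃ s : ℝ → ℝ, ∀ α, s α = (q α - cross (uv α) (P.V k)) / cross (uv α) (P.dir k) :=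
    ⟨_, fun _ => rfl⟩
  have hs0 : s α₀ = s₀ := by
    rw [hs, hq0]
    unfold ConvexPolygon.pt
    rw [cross_add_right, cross_smul_right, add_sub_cancel_left, mul_div_cancel_right₀ _ hc0]
  have hsc : ContinuousAt s α₀ := by
    have e : s = fun α => (q α - cross (uv α) (P.V k)) / cross (uv α) (P.dir k) := funext hs
    rw [e]
    exact (hqc.sub hcV).continuousAt.div hcc.continuousAt hc0
  have hqs : ∀ α, cross (uv α) (P.dir k) ≠ 0 → q α = cross (uv α) (P.pt k (s α)) := by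
    intro α hα
    unfold ConvexPolygon.pt
    rw [cross_add_right, cross_smul_right, hs, div_mul_cancel₀ _ hα]
    ring
  have hxc : Continuous fun α : ℝ => ((uv α, q α) : ℂ × ℝ) := continuous_uv.prodMk hqc
  have n1 : ∀ᶠ α in nhds α₀, α ∈ Ioo a b := Ioo_mem_nhds hα₀.1 hα₀.2
  have n2 : ∀ᶠ α in nhds α₀, s α ∈ Ioo s₁ s₂ := by
    refine hsc (Ioo_mem_nhds ?_ ?_)
    · rw [hs0]
      exact hs₀.1
    · rw [hs0]
      exact hs₀.2
  have n3 : ∀ᶠ α in nhds α₀, cross (uv α) (P.dir k) ≠ 0 := hcc.continuousAt.eventually_ne hc0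
  have n4 : ∀ᶠ α in nhds α₀, Wd P ω (uv α, q α) := by
    refine hxc.continuousAt.eventually ((isOpen_Wd P ω).mem_nhds ?_)
    show Wd P ω (uv α₀, q α₀)
    rw [hq0]
    exact hW
  have n5 : ∀ᶠ α in nhds α₀, Into P j (-(Tw P ω (uv α, q α)).1) := by
    have hc : Continuous fun α : ℝ => -(Tw P ω (uv α, q α)).1 :=
      (continuous_fst.comp ((continuous_Tw P ω).comp hxc)).neg
    refine hc.continuousAt.eventually ((isOpen_Into P j).mem_nhds ?_)
    show Into P j (-(Tw P ω (uv α₀, q α₀)).1)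
    rw [hq0]
    exact hI
  have n6 : ∀ᶠ α in nhds α₀, ¬ (α ∈ Ioo a b → ∀ s ∈ Ioo s₁ s₂,
      Reg P (uv α, cross (uv α) (P.pt k s))) := by
    filter_upwards [n1, n2, n3, n4, n5] with α m1 m2 m3 m4 m5 hcon
    have h3 := hcon m1 (s α) m2
    rw [← hqs α m3] at h3
    exact bad2_not P (norm_uv α) m4 (hqv α) m5 h3
  obtain ⟨α, hα1, hα2⟩ := (MeasureTheory.Measure.dense_of_ae h2).inter_nhds_nonempty n6
  exact hα2 hα1

end Pool.Agent.GRM
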