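import Pool.Agent.GRM.Defs

/-! GRM-Bas1: elementary rules for lines and reflections.

PLAN.  Everything follows by unfolding from `Helper62/Bil` (`refl_refl`, `norm_refl`, `exit_refl`, `ent_refl` in `FiniteDir.lean`;
`ent_iff_exit`, `exit_unique`, `ent_unique`, `exit_cross`, `ent_cross`, `V_succ` in `Geom.lean`).  `refl k u = dir k ^ 2 * conj u`.
* `T_rv_T`: `refl l (-(refl l u)) = -u`, the second component is a one-line computation.
* `En_T`: `cross (refl l u) (dir l) = - cross u (dir l)` (`cross_refl_dir`), `V (l+1) = V l + len l * dir l`.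
* `Ex_ne_En`: `exit_cross`: `cross (dir l) u < 0`, `ent_cross`: `0 < cross (dir l) u`.
* `Wd_unique`: induction on the first word, generalizing `x` (norm 1 is preserved by `norm_T`), `Ex_unique`.
* `xp_line`, `xp_side`: the point `xp l x` lies on the line and on the open side (see the proof of `exit_pt`).
* `g_along`: the signed distance `g l` along a line. -/

namespace Pool.Agent.GRM

open Bil62 Bil62.ConvexPolygon MeasureTheory Set

variable {n : ℕ} [NeZero n] (P : ConvexPolygon n)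

private theorem refl_neg' (l : Fin n) (u : ℂ) : P.refl l (-u) = - P.refl l u := by
  unfold ConvexPolygon.refl
  rw [map_neg, mul_neg]

theorem T_T (l : Fin n) (x : ℂ × ℝ) : T P l (T P l x) = x := by
  unfold T
  simp only [P.refl_refl]
  ext1
  · rfl
  · simp only
    ring

theorem T_rv_T (l : Fin n) (x : ℂ × ℝ) : T P l (rv (T P l x)) = rv x := by
  unfold T rv
  simp only [refl_neg', P.refl_refl]
  ext1
  · rfl
  · simp only [cross_neg_left]
    ring

theorem rv_rv (x : ℂ × ℝ) : rv (rv x) = x := by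
  unfold rv
  simp

theorem Ex_rv {l : Fin n} {x : ℂ × ℝ} : Ex P l (rv x) ↔ En P l x := by
  unfold Ex En rv
  exact (P.ent_iff_exit x.1 x.2 l).symm

theorem En_rv {l : Fin n} {x : ℂ × ℝ} : En P l (rv x) ↔ Ex P l x := by
  rw [← Ex_rv, rv_rv]

theorem En_T {l : Fin n} {x : ℂ × ℝ} : En P l (T P l x) ↔ Ex P l x := by
  constructor
  · intro h
    have h1 := P.ent_refl h
    have h2 : P.refl l (T P l x).1 = x.1 := P.refl_refl l x.1
    rw [h2] at h1
    have h3 : (T P l (T P l x)).2 = x.2 := by rw [T_T]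
    unfold Ex
    have h4 : cross x.1 (P.V l) + cross (T P l x).1 (P.V l) - (T P l x).2 = x.2 := by
      rw [← h3]
      show _ = cross (P.refl l (T P l x).1) (P.V l) + cross (T P l x).1 (P.V l) - (T P l x).2
      rw [h2]
    rw [h4] at h1
    exact h1
  · intro h
    exact P.exit_refl h

theorem Ex_T {l : Fin n} {x : ℂ × ℝ} : Ex P l (T P l x) ↔ En P l x := by
  have h := En_T P (l := l) (x := T P l x)
  rw [T_T] at h
  exact h.symm

theorem norm_T (l : Fin n) (x : ℂ × ℝ) : ‖(T P l x).1‖ = ‖x.1‖ := P.norm_refl l x.1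

theorem norm_Tw (ω : List (Fin n)) (x : ℂ × ℝ) : ‖(Tw P ω x).1‖ = ‖x.1‖ := by
  induction ω generalizing x with
  | nil => rfl
  | cons l ω ih =>
    show ‖(Tw P ω (T P l x)).1‖ = ‖x.1‖
    rw [ih, norm_T]

theorem norm_rv (x : ℂ × ℝ) : ‖(rv x).1‖ = ‖x.1‖ := by
  unfold rv
  simp

theorem T_sh (l : Fin n) (d : ℝ) (x : ℂ × ℝ) : T P l (sh d x) = sh (-d) (T P l x) := by
  unfold T sh
  ext1
  · rfl
  · simp only
    ring

theorem sh_sh (d e : ℝ) (x : ℂ × ℝ) : sh d (sh e x) = sh (d + e) x := by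
  unfold sh
  ext1
  · rfl
  · simp only
    ring

theorem rv_sh (d : ℝ) (x : ℂ × ℝ) : rv (sh d x) = sh (-d) (rv x) := by
  unfold rv sh
  ext1
  · rfl
  · simp only
    ring

theorem Ex_unique {l l' : Fin n} {x : ℂ × ℝ} (hx : ‖x.1‖ = 1) (h : Ex P l x) (h' : Ex P l' x) : l = l' :=
  P.exit_unique hx h h'

theorem En_unique {l l' : Fin n} {x : ℂ × ℝ} (hx : ‖x.1‖ = 1) (h : En P l x) (h' : En P l' x) : l = l' :=
  P.ent_unique hx h h'

theorem Ex_ne_En {l l' : Fin n} {x : ℂ × ℝ} (h : Ex P l x) (h' : En P l' x) : l ≠ l' := by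
  rintro rfl
  have h1 := P.exit_cross h
  have h2 := P.ent_cross h'
  linarith

theorem Wd_append (ω ω' : List (Fin n)) (x : ℂ × ℝ) :
    Wd P (ω ++ ω') x ↔ Wd P ω x ∧ Wd P ω' (Tw P ω x) := by
  induction ω generalizing x with
  | nil => simp [Wd, Tw]
  | cons l ω ih =>
    show (Ex P l x ∧ Wd P (ω ++ ω') (T P l x)) ↔ (Ex P l x ∧ Wd P ω (T P l x)) ∧ Wd P ω' (Tw P ω (T P l x))
    rw [ih, and_assoc]

theorem Tw_append (ω ω' : List (Fin n)) (x : ℂ × ℝ) : Tw P (ω ++ ω') x = Tw P ω' (Tw P ω x) := by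
  induction ω generalizing x with
  | nil => rfl
  | cons l ω ih => exact ih _

theorem Wd_unique {ω ω' : List (Fin n)} {x : ℂ × ℝ} (hx : ‖x.1‖ = 1) (hl : ω.length = ω'.length)
    (h : Wd P ω x) (h' : Wd P ω' x) : ω = ω' := by
  induction ω generalizing x ω' with
  | nil =>
    cases ω' with
    | nil => rfl
    | cons l' ω' => simp at hl
  | cons l ω ih =>
    cases ω' with
    | nil => simp at hl
    | cons l' ω' =>
      obtain ⟨h1, h2⟩ := h
      obtain ⟨h1', h2'⟩ := h'
      have e : l = l' := Ex_unique P hx h1 h1'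
      subst e
      have := ih (x := T P l x) (ω' := ω') (by rw [norm_T]; exact hx) (by simpa using hl) h2 h2'
      rw [this]

private theorem cross_pos {l : Fin n} {x : ℂ × ℝ} (h : Ex P l x) : 0 < cross x.1 (P.dir l) := by
  have := P.exit_cross h
  rw [cross_comm] at this
  linarith

theorem xp_line {l : Fin n} {x : ℂ × ℝ} (h : Ex P l x) : cross x.1 (xp P l x) = x.2 := by
  have hc := cross_pos P h
  unfold xp ConvexPolygon.pt
  rw [cross_add_right, cross_smul_right]
  field_simp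
  ring

theorem xp_side {l : Fin n} {x : ℂ × ℝ} (h : Ex P l x) :
    ∃ s ∈ Ioo 0 (P.len l), xp P l x = P.pt l s := by
  have hc := cross_pos P h
  obtain ⟨h1, h2⟩ := h
  rw [P.V_succ l, cross_add_right, cross_smul_right] at h2
  refine ⟨_, ⟨div_pos (by linarith) hc, ?_⟩, rfl⟩
  rw [div_lt_iff₀ hc]
  linarith

/-- two points of the line `x` -/
theorem g_along {x : ℂ × ℝ} (hx : ‖x.1‖ = 1) {z w : ℂ} (hz : cross x.1 z = x.2) (hw : cross x.1 w = x.2)
    (l : Fin n) : P.g l w = P.g l z + dot x.1 (w - z) * cross (P.dir l) x.1 := by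
  have hl := on_line hx (hz.trans hw.symm)
  conv_lhs => rw [hl]
  rw [g_add_smul]

end Pool.Agent.GRM
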