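import Pool.Agent.GRM.Bas1

/-! GRM-Bas2: continuity, openness and the form of the maps `Tw ω`. -/

namespace Pool.Agent.GRM

open Bil62 Bil62.ConvexPolygon MeasureTheory Set

variable {n : ℕ} [NeZero n] (P : ConvexPolygon n)

theorem norm_uv (α : ℝ) : ‖uv α‖ = 1 := Complex.norm_exp_ofReal_mul_I α

theorem uv_add (α β : ℝ) : uv (α + β) = uv α * uv β := by
  unfold uv
  rw [← Complex.exp_add]
  congr 1
  push_cast
  ring

theorem uv_add_pi (α : ℝ) : uv (α + Real.pi) = - uv α := by
  rw [uv_add]
  have : uv Real.pi = -1 := by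
    unfold uv
    exact Complex.exp_pi_mul_I
  rw [this]
  ring

theorem uv_eq_iff (α β : ℝ) : uv α = uv β ↔ ∃ m : ℤ, α = β + m * (2 * Real.pi) := by
  unfold uv
  rw [Complex.exp_eq_exp_iff_exists_int]
  constructor
  · rintro ⟨m, hm⟩
    refine ⟨m, ?_⟩
    have h1 : ((α : ℂ)) = ((β + m * (2 * Real.pi) : ℝ) : ℂ) := by
      have hI : Complex.I ≠ 0 := Complex.I_ne_zero
      apply mul_right_cancel₀ hI
      rw [hm]
      push_cast
      ring
    exact_mod_cast h1
  · rintro ⟨m, hm⟩
    refine ⟨m, ?_⟩
    rw [hm]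
    push_cast
    ring

theorem continuous_uv : Continuous uv := by
  unfold uv
  exact Complex.continuous_exp.comp (Complex.continuous_ofReal.mul continuous_const)

theorem dir_eq_uv (k : Fin n) : P.dir k = uv (Complex.arg (P.dir k)) := by
  have h := Complex.norm_mul_exp_arg_mul_I (P.dir k)
  rw [P.norm_dir k] at h
  unfold uv
  rw [Complex.ofReal_one, one_mul] at h
  exact h.symm

theorem cross_uv (α β : ℝ) : cross (uv α) (uv β) = Real.sin (β - α) := by
  unfold cross uv
  rw [Complex.exp_ofReal_mul_I_re, Complex.exp_ofReal_mul_I_re, Complex.exp_ofReal_mul_I_im,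
    Complex.exp_ofReal_mul_I_im, Real.sin_sub]
  ring

theorem sg_cons (l : Fin n) (ω : List (Fin n)) : sg (l :: ω) = - sg ω := by
  unfold sg
  rw [List.length_cons, pow_succ]
  ring

theorem sg_eq (ω : List (Fin n)) : sg ω = 1 ∨ sg ω = -1 := neg_one_pow_eq_or ℝ _

theorem Tw_sh (ω : List (Fin n)) (d : ℝ) (x : ℂ × ℝ) : Tw P ω (sh d x) = sh (sg ω * d) (Tw P ω x) := by
  induction ω generalizing d x with
  | nil =>
    show sh d x = sh (sg ([] : List (Fin n)) * d) x
    have : sg ([] : List (Fin n)) = 1 := by simp [sg]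
    rw [this, one_mul]
  | cons l ω ih =>
    show Tw P ω (T P l (sh d x)) = sh (sg (l :: ω) * d) (Tw P ω (T P l x))
    rw [T_sh, ih, sg_cons]
    congr 1
    ring

private theorem conj_uv (α : ℝ) : (starRingEnd ℂ) (uv α) = uv (-α) := by
  unfold uv
  rw [← Complex.exp_conj, map_mul, Complex.conj_ofReal, Complex.conj_I]
  congr 1
  push_cast
  ring

private theorem refl_uv (l : Fin n) (α : ℝ) :
    P.refl l (uv α) = uv (2 * Complex.arg (P.dir l) - α) := by
  unfold ConvexPolygon.refl
  rw [conj_uv]
  conv_lhs => rw [dir_eq_uv P l]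
  rw [sq, ← uv_add, ← uv_add]
  congr 1
  ring

theorem Tw_uv (ω : List (Fin n)) (α p : ℝ) : (Tw P ω (uv α, p)).1 = uv (cw P ω + sg ω * α) := by
  induction ω generalizing α p with
  | nil =>
    show uv α = uv (0 + sg ([] : List (Fin n)) * α)
    have : sg ([] : List (Fin n)) = 1 := by simp [sg]
    rw [this]
    congr 1
    ring
  | cons l ω ih =>
    show (Tw P ω (T P l (uv α, p))).1 = uv (cw P ω + sg ω * (2 * Complex.arg (P.dir l)) +
      sg (l :: ω) * α)
    have h1 : T P l (uv α, p) = (uv (2 * Complex.arg (P.dir l) - α),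
        cross (P.refl l (uv α)) (P.V l) + cross (uv α) (P.V l) - p) := by
      unfold T
      simp only [refl_uv]
    rw [h1, ih, sg_cons]
    congr 1
    ring

private theorem cont_cross {X : Type*} [TopologicalSpace X] {f g : X → ℂ} (hf : Continuous f)
    (hg : Continuous g) : Continuous fun x => cross (f x) (g x) := by
  unfold cross
  exact ((Complex.continuous_re.comp hf).mul (Complex.continuous_im.comp hg)).sub
    ((Complex.continuous_im.comp hf).mul (Complex.continuous_re.comp hg))

private theorem cont_refl (l : Fin n) : Continuous (P.refl l) := by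
  unfold ConvexPolygon.refl
  exact continuous_const.mul Complex.continuous_conj

theorem continuous_T (l : Fin n) : Continuous (T P l) := by
  unfold T
  have h1 : Continuous fun x : ℂ × ℝ => P.refl l x.1 := (cont_refl P l).comp continuous_fst
  exact h1.prodMk (((cont_cross h1 continuous_const).add
    (cont_cross continuous_fst continuous_const)).sub continuous_snd)

theorem continuous_Tw (ω : List (Fin n)) : Continuous (Tw P ω) := by
  induction ω with
  | nil => exact continuous_id
  | cons l ω ih => exact ih.comp (continuous_T P l)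

theorem continuous_rv : Continuous rv := by
  unfold rv
  exact continuous_fst.neg.prodMk continuous_snd.neg

theorem continuous_vr (k : Fin n) : Continuous (vr P k) := by
  unfold vr
  exact continuous_uv.prodMk (cont_cross continuous_uv continuous_const)

theorem isOpen_Ex (l : Fin n) : IsOpen {x | Ex P l x} := by
  have h1 : IsOpen {x : ℂ × ℝ | cross x.1 (P.V l) < x.2} :=
    isOpen_lt (cont_cross continuous_fst continuous_const) continuous_snd
  have h2 : IsOpen {x : ℂ × ℝ | x.2 < cross x.1 (P.V (l + 1))} :=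
    isOpen_lt continuous_snd (cont_cross continuous_fst continuous_const)
  exact h1.inter h2

theorem isOpen_En (l : Fin n) : IsOpen {x | En P l x} := by
  have h1 : IsOpen {x : ℂ × ℝ | cross x.1 (P.V (l + 1)) < x.2} :=
    isOpen_lt (cont_cross continuous_fst continuous_const) continuous_snd
  have h2 : IsOpen {x : ℂ × ℝ | x.2 < cross x.1 (P.V l)} :=
    isOpen_lt continuous_snd (cont_cross continuous_fst continuous_const)
  exact h1.inter h2

theorem isOpen_Wd (ω : List (Fin n)) : IsOpen {x | Wd P ω x} := by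
  induction ω with
  | nil => exact isOpen_univ
  | cons l ω ih => exact (isOpen_Ex P l).inter (ih.preimage (continuous_T P l))

theorem isOpen_Rch (i : Fin n) : IsOpen {x | Rch P i x} := by
  have h1 : {x | Rch P i x} = ⋃ ω : List (Fin n), {x | Wd P ω x} ∩ Tw P ω ⁻¹' {x | Ex P i x} := by
    ext x
    rw [mem_iUnion]
    exact Iff.rfl
  rw [h1]
  exact isOpen_iUnion fun ω => (isOpen_Wd P ω).inter ((isOpen_Ex P i).preimage (continuous_Tw P ω))

theorem isOpen_Into (k : Fin n) : IsOpen {u | Into P k u} := by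
  have h1 : IsOpen {u : ℂ | 0 < cross (P.dir k) u} :=
    isOpen_lt continuous_const (cont_cross continuous_const continuous_id)
  have h2 : IsOpen {u : ℂ | 0 < cross (P.dir (k + 1)) u} :=
    isOpen_lt continuous_const (cont_cross continuous_const continuous_id)
  exact h1.inter h2

theorem norm_V_le (j : Fin n) : ‖P.V j‖ ≤ bd P := by
  unfold bd
  exact Finset.single_le_sum (f := fun j => ‖P.V j‖) (fun j _ => norm_nonneg _) (Finset.mem_univ j)

theorem bd_Ex {l : Fin n} {x : ℂ × ℝ} (hx : ‖x.1‖ = 1) (h : Ex P l x) : |x.2| ≤ bd P := by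
  obtain ⟨h1, h2⟩ := h
  have h3 : ∀ j, |cross x.1 (P.V j)| ≤ bd P := by
    intro j
    have := abs_cross_le' x.1 (P.V j)
    rw [hx, one_mul] at this
    exact this.trans (norm_V_le P j)
  have h4 := (abs_le.1 (h3 l)).1
  have h5 := (abs_le.1 (h3 (l + 1))).2
  rw [abs_le]
  constructor <;> linarith

theorem norm_pt_le {k : Fin n} {s : ℝ} (hs : s ∈ Icc 0 (P.len k)) : ‖P.pt k s‖ ≤ bd P := by
  have hl := P.len_pos k
  have h1 : (P.len k : ℂ) * P.pt k s =
      ((P.len k - s : ℝ) : ℂ) * P.V k + (s : ℂ) * P.V (k + 1) := by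
    rw [P.V_succ k]
    unfold ConvexPolygon.pt
    push_cast
    ring
  have h2 : ‖(P.len k : ℂ) * P.pt k s‖ ≤ P.len k * bd P := by
    rw [h1]
    refine (norm_add_le _ _).trans ?_
    rw [norm_mul, norm_mul, Complex.norm_real, Complex.norm_real, Real.norm_eq_abs,
      Real.norm_eq_abs, abs_of_nonneg (sub_nonneg.2 hs.2), abs_of_nonneg hs.1]
    have h3 := mul_le_mul_of_nonneg_left (norm_V_le P k) (sub_nonneg.2 hs.2)
    have h4 := mul_le_mul_of_nonneg_left (norm_V_le P (k + 1)) hs.1
    nlinarith
  rw [norm_mul, Complex.norm_real, Real.norm_eq_abs, abs_of_pos hl] at h2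
  exact le_of_mul_le_mul_left h2 hl

end Pool.Agent.GRM
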