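import Pool.Agent.GRM.RchA
import Pool.Agent.GRM.Ang

/-! GRM-Cor1: single reflections near a vertex (imports RchA, Ang).

Lines `lr k ψ d`: direction `dir (k+1) * uv ψ`, signed distance `d` from `V (k+1)`: the vertex is on the left of the line if `d < 0`.
With `γ = ang k`: the sides at the vertex are `k + 1` (direction angle `0`, starts at the vertex) and `k` (ends at the vertex; `-(dir k)` has angle `γ`).

PLAN.
* `lr_period`: `uv (ψ + 2π) = uv ψ`.  `rv_lr`: `uv (ψ + π) = - uv ψ`.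
* `Ex_k`: `x = lr k ψ (-d)`: `cross u (V k) < cross u (V (k+1)) - d < cross u (V (k+1))`; `V (k+1) = V k + len k * dir k`, and
  `cross u (dir k) = - cross (dir k) u = sin (ψ - ang k) > 0` (`cross_dir_self`); `w = len k * sin (ψ - ang k)`.
* `T_k`: `refl k u = dir k ^ 2 * conj u`, `dir k = -(dir (k+1) * uv γ)`, `conj (uv ψ) = uv (-ψ)`: `refl k u = dir (k+1) * uv (2γ - ψ)`.  The second component: the
  reflection in the line of side `k`, which contains `V (k+1)`, changes the sign of the distance (`cross_refl_rpt`, `rpt k (V (k+1)) = V (k+1)`).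
* `Ex_k1`, `T_k1`: the same for the side `k + 1`: `x = lr k ψ d`, `d > 0`: `cross u (V (k+1)) < cross u (V (k+1)) + d < cross u (V (k+1+1))`,
  `cross u (dir (k+1)) = - sin ψ > 0`; `refl (k+1) u = dir (k+1) * uv (-ψ)`.
* `Rch_near`: `Rch` is open and `d ↦ lr k ψ (σ d)` is continuous with value `lr k ψ 0` at `0`. -/

namespace Pool.Agent.GRM

open Bil62 Bil62.ConvexPolygon MeasureTheory Set

variable {n : ℕ} [NeZero n] (P : ConvexPolygon n)

private theorem c1_conj_uv (α : ℝ) : (starRingEnd ℂ) (uv α) = uv (-α) := by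
  unfold uv
  rw [← Complex.exp_conj, map_mul, Complex.conj_ofReal, Complex.conj_I]
  congr 1
  push_cast
  ring

private theorem c1_dd (k : Fin n) : P.dir k * (starRingEnd ℂ) (P.dir k) = 1 := by
  rw [Complex.mul_conj, Complex.normSq_eq_norm_sq, P.norm_dir k]
  norm_num

private theorem c1_refl (k : Fin n) (ψ : ℝ) :
    P.refl k (P.dir (k + 1) * uv ψ) = P.dir (k + 1) * uv (2 * ang P k - ψ) := by
  have h1 := dir_eq P k
  have h2 : uv (2 * ang P k - ψ) = uv (ang P k) * uv (ang P k) * uv (-ψ) := by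
    rw [← uv_add, ← uv_add]
    congr 1
    ring
  unfold ConvexPolygon.refl
  rw [map_mul, c1_conj_uv, h2, h1]
  linear_combination P.dir (k + 1) * uv (ang P k) ^ 2 * uv (-ψ) * c1_dd P (k + 1)

private theorem c1_refl1 (k : Fin n) (ψ : ℝ) :
    P.refl (k + 1) (P.dir (k + 1) * uv ψ) = P.dir (k + 1) * uv (-ψ) := by
  unfold ConvexPolygon.refl
  rw [map_mul, c1_conj_uv]
  linear_combination P.dir (k + 1) * uv (-ψ) * c1_dd P (k + 1)

theorem lr_period (k : Fin n) (ψ d : ℝ) : lr P k (ψ + 2 * Real.pi) d = lr P k ψ d := by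
  have h : uv (ψ + 2 * Real.pi) = uv ψ := (uv_eq_iff _ _).2 ⟨1, by push_cast; ring⟩
  unfold lr
  rw [h]

theorem rv_lr (k : Fin n) (ψ d : ℝ) : rv (lr P k ψ d) = lr P k (ψ + Real.pi) (-d) := by
  unfold rv lr
  rw [uv_add_pi, mul_neg]
  ext1
  · rfl
  · simp only [cross_neg_left]
    ring

theorem Ex_k {k : Fin n} {ψ : ℝ} (h : 0 < Real.sin (ψ - ang P k)) :
    ∃ w > 0, ∀ d ∈ Ioo 0 w, Ex P k (lr P k ψ (-d)) := by
  have h1 : cross (P.dir (k + 1) * uv ψ) (P.dir k) = Real.sin (ψ - ang P k) := by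
    rw [cross_comm, cross_dir_self, ← Real.sin_neg]
    congr 1
    ring
  have hl := P.len_pos k
  refine ⟨P.len k * Real.sin (ψ - ang P k), mul_pos hl h, fun d hd => ?_⟩
  have h2 : cross (P.dir (k + 1) * uv ψ) (P.V (k + 1)) =
      cross (P.dir (k + 1) * uv ψ) (P.V k) + P.len k * Real.sin (ψ - ang P k) := by
    conv_lhs => rw [P.V_succ k]
    rw [cross_add_right, cross_smul_right, h1]
  constructor
  · show cross (P.dir (k + 1) * uv ψ) (P.V k) < cross (P.dir (k + 1) * uv ψ) (P.V (k + 1)) + -d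
    have := hd.2
    linarith
  · show cross (P.dir (k + 1) * uv ψ) (P.V (k + 1)) + -d < cross (P.dir (k + 1) * uv ψ) (P.V (k + 1))
    have := hd.1
    linarith

theorem T_k (k : Fin n) (ψ d : ℝ) : T P k (lr P k ψ d) = lr P k (2 * ang P k - ψ) (-d) := by
  have h1 := P.cross_refl_dir k (P.dir (k + 1) * uv ψ)
  rw [c1_refl] at h1
  unfold T lr
  ext1
  · exact c1_refl P k ψ
  · simp only [c1_refl]
    rw [P.V_succ k, cross_add_right, cross_smul_right, cross_add_right, cross_smul_right, h1]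
    ring

theorem Ex_k1 {k : Fin n} {ψ : ℝ} (h : Real.sin ψ < 0) :
    ∃ w > 0, ∀ d ∈ Ioo 0 w, Ex P (k + 1) (lr P k ψ d) := by
  have h1 : cross (P.dir (k + 1) * uv ψ) (P.dir (k + 1)) = -Real.sin ψ := by
    rw [cross_comm, cross_dir_succ]
  have hl := P.len_pos (k + 1)
  refine ⟨P.len (k + 1) * (-Real.sin ψ), mul_pos hl (by linarith), fun d hd => ?_⟩
  have h2 : cross (P.dir (k + 1) * uv ψ) (P.V (k + 1 + 1)) =
      cross (P.dir (k + 1) * uv ψ) (P.V (k + 1)) + P.len (k + 1) * (-Real.sin ψ) := by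
    conv_lhs => rw [P.V_succ (k + 1)]
    rw [cross_add_right, cross_smul_right, h1]
  constructor
  · show cross (P.dir (k + 1) * uv ψ) (P.V (k + 1)) < cross (P.dir (k + 1) * uv ψ) (P.V (k + 1)) + d
    have := hd.1
    linarith
  · show cross (P.dir (k + 1) * uv ψ) (P.V (k + 1)) + d <
      cross (P.dir (k + 1) * uv ψ) (P.V (k + 1 + 1))
    have := hd.2
    linarith

theorem T_k1 (k : Fin n) (ψ d : ℝ) : T P (k + 1) (lr P k ψ d) = lr P k (-ψ) (-d) := by
  unfold T lr
  ext1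
  · exact c1_refl1 P k ψ
  · simp only [c1_refl1]
    ring

theorem Rch_near {i k : Fin n} {ψ : ℝ} (h : Rch P i (lr P k ψ 0)) :
    ∃ w > 0, ∀ d : ℝ, |d| < w → Rch P i (lr P k ψ d) := by
  have hc : Continuous fun d : ℝ => lr P k ψ d := by
    unfold lr
    exact continuous_const.prodMk (continuous_const.add continuous_id)
  have ho : IsOpen ((fun d : ℝ => lr P k ψ d) ⁻¹' {x | Rch P i x}) :=
    (isOpen_Rch P i).preimage hc
  obtain ⟨ε, hε, hb⟩ := Metric.isOpen_iff.1 ho 0 h
  refine ⟨ε, hε, fun d hd => ?_⟩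
  have h1 : d ∈ Metric.ball (0 : ℝ) ε := by
    rw [Metric.mem_ball, Real.dist_eq, sub_zero]
    exact hd
  exact hb h1

end Pool.Agent.GRM
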