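import Pool.Agent.GRM.Defs

/-! GRM-Fold: the folding map (elementary; `fold γ ψ` = distance of `ψ` from `2γℤ`). -/

namespace Pool.Agent.GRM

open MeasureTheory Set

private theorem fold_spec {γ : ℝ} (hγ : 0 < γ) (ψ : ℝ) :
    ∃ m : ℤ, fold γ ψ = |ψ - 2 * γ * m| ∧ |ψ - 2 * γ * m| ≤ γ := by
  refine ⟨round (ψ / (2 * γ)), rfl, ?_⟩
  have h1 := abs_sub_round (ψ / (2 * γ))
  have h2 : ψ - 2 * γ * (round (ψ / (2 * γ)) : ℤ) =
      (ψ / (2 * γ) - (round (ψ / (2 * γ)) : ℤ)) * (2 * γ) := by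
    field_simp
  rw [h2, abs_mul, abs_of_pos (show 0 < 2 * γ by linarith)]
  have := mul_le_mul_of_nonneg_right h1 (show 0 ≤ 2 * γ by linarith)
  linarith

theorem fold_eq {γ ψ : ℝ} (hγ : 0 < γ) (m : ℤ) (h : |ψ - 2 * γ * m| ≤ γ) : fold γ ψ = |ψ - 2 * γ * m| := by
  obtain ⟨k, hk, hk'⟩ := fold_spec hγ ψ
  rw [hk]
  by_cases hkm : k = m
  · rw [hkm]
  · have h1 : (1 : ℝ) ≤ |(k : ℝ) - m| := by
      have h2 : (1 : ℤ) ≤ |k - m| := Int.one_le_abs (sub_ne_zero.mpr hkm)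
      have h3 : ((1 : ℤ) : ℝ) ≤ ((|k - m| : ℤ) : ℝ) := by exact_mod_cast h2
      push_cast at h3
      exact h3
    have h2 : 2 * γ ≤ |(ψ - 2 * γ * m) - (ψ - 2 * γ * k)| := by
      have e : (ψ - 2 * γ * m) - (ψ - 2 * γ * k) = 2 * γ * (k - m) := by ring
      rw [e, abs_mul, abs_of_pos (show 0 < 2 * γ by linarith)]
      have := mul_le_mul_of_nonneg_left h1 (show 0 ≤ 2 * γ by linarith)
      linarith
    have h3 := abs_sub (ψ - 2 * γ * m) (ψ - 2 * γ * k)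
    linarith

theorem fold_neg {γ : ℝ} (hγ : 0 < γ) (ψ : ℝ) : fold γ (-ψ) = fold γ ψ := by
  obtain ⟨k, hk, hk'⟩ := fold_spec hγ ψ
  have e : |-ψ - 2 * γ * ((-k : ℤ) : ℝ)| = |ψ - 2 * γ * k| := by
    rw [← abs_neg]
    congr 1
    push_cast
    ring
  rw [hk, fold_eq hγ (-k) (by rw [e]; exact hk'), e]

theorem fold_add {γ : ℝ} (hγ : 0 < γ) (ψ : ℝ) (m : ℤ) : fold γ (ψ + 2 * γ * m) = fold γ ψ := by
  obtain ⟨k, hk, hk'⟩ := fold_spec hγ ψ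
  have e : |ψ + 2 * γ * m - 2 * γ * ((k + m : ℤ) : ℝ)| = |ψ - 2 * γ * k| := by
    congr 1
    push_cast
    ring
  rw [hk, fold_eq hγ (k + m) (by rw [e]; exact hk'), e]

theorem fold_of_mem {γ ψ : ℝ} (h : ψ ∈ Icc 0 γ) (hγ : 0 < γ) : fold γ ψ = ψ := by
  have e : |ψ - 2 * γ * ((0 : ℤ) : ℝ)| = ψ := by
    rw [Int.cast_zero, mul_zero, sub_zero, abs_of_nonneg h.1]
  rw [fold_eq hγ 0 (by rw [e]; exact h.2), e]

theorem fold_mem {γ ψ : ℝ} (hγ : 0 < γ) (h : ∀ m : ℤ, ψ ≠ γ * m) : fold γ ψ ∈ Ioo 0 γ := by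
  obtain ⟨k, hk, hk'⟩ := fold_spec hγ ψ
  rw [hk]
  refine ⟨?_, ?_⟩
  · rw [abs_pos]
    intro h0
    apply h (2 * k)
    push_cast
    linarith
  · refine lt_of_le_of_ne hk' ?_
    intro h0
    rcases abs_choice (ψ - 2 * γ * k) with h1 | h1
    · rw [h1] at h0
      apply h (2 * k + 1)
      push_cast
      linarith
    · rw [h1] at h0
      apply h (2 * k - 1)
      push_cast
      linarith

theorem fold_form {γ : ℝ} (hγ : 0 < γ) (ψ : ℝ) : ∃ m : ℤ, ψ = fold γ ψ + 2 * γ * m ∨ ψ = - fold γ ψ + 2 * γ * m := by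
  obtain ⟨k, hk, _⟩ := fold_spec hγ ψ
  refine ⟨k, ?_⟩
  rw [hk]
  rcases abs_choice (ψ - 2 * γ * k) with h1 | h1
  · left
    rw [h1]
    ring
  · right
    rw [h1]
    ring

theorem measurable_fold (γ : ℝ) : Measurable (fold γ) := by
  have h1 : Measurable (fun ψ : ℝ => ((round (ψ / (2 * γ)) : ℤ) : ℝ)) := by
    have h2 : (fun ψ : ℝ => ((round (ψ / (2 * γ)) : ℤ) : ℝ)) =
        (fun ψ : ℝ => ((⌊ψ / (2 * γ) + 1 / 2⌋ : ℤ) : ℝ)) := by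
      funext ψ
      rw [round_eq]
    rw [h2]
    exact (measurable_from_top (f := fun m : ℤ => (m : ℝ))).comp
      (Int.measurable_floor.comp ((measurable_id.div_const _).add_const _))
  have h3 : fold γ = fun ψ : ℝ => |ψ - 2 * γ * ((round (ψ / (2 * γ)) : ℤ) : ℝ)| := rfl
  rw [h3]
  exact (measurable_id.sub (h1.const_mul _)).abs

theorem fold_ae {γ : ℝ} (hγ : 0 < γ) {p : ℝ → Prop} (h : ∀ᵐ φ : ℝ, p φ) : ∀ᵐ ψ : ℝ, p (fold γ ψ) := by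
  have h1 : ∀ m : ℤ, ∀ᵐ ψ : ℝ, p (ψ - 2 * γ * m) := fun m =>
    (measurePreserving_sub_right volume (2 * γ * (m : ℝ))).quasiMeasurePreserving.ae h
  have h2 : ∀ᵐ ψ : ℝ, p (-ψ) := (Measure.measurePreserving_neg volume).quasiMeasurePreserving.ae h
  have h3 : ∀ m : ℤ, ∀ᵐ ψ : ℝ, p (-(ψ - 2 * γ * m)) := fun m =>
    (measurePreserving_sub_right volume (2 * γ * (m : ℝ))).quasiMeasurePreserving.ae h2
  filter_upwards [ae_all_iff.mpr h1, ae_all_iff.mpr h3] with ψ h4 h5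
  obtain ⟨k, hk, _⟩ := fold_spec hγ ψ
  rw [hk]
  rcases abs_choice (ψ - 2 * γ * k) with h6 | h6
  · rw [h6]
    exact h4 k
  · rw [h6]
    exact h5 k

theorem ae_ne_mul {γ : ℝ} (hγ : 0 < γ) (c : ℝ) : ∀ᵐ ψ : ℝ, ∀ m : ℤ, ψ + c ≠ γ * m := by
  rw [ae_all_iff]
  intro m
  filter_upwards [(Set.countable_singleton (γ * m - c)).ae_notMem volume] with ψ hψ h
  apply hψ
  rw [Set.mem_singleton_iff]
  linarith

end Pool.Agent.GRM
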