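import Pool.Agent.GRM.Cor1
import Pool.Agent.GRM.Fold

/-! GRM-Cor2: how a line leaves the corner at a vertex. -/

namespace Pool.Agent.GRM

open Bil62 Bil62.ConvexPolygon MeasureTheory Set

variable {n : ℕ} [NeZero n] (P : ConvexPolygon n)

private theorem rch_one {i l : Fin n} {x : ℂ × ℝ} (h : Ex P l x) (hr : Rch P i (T P l x)) :
    Rch P i x :=
  Rch_of_Wd P (ω := [l]) ⟨h, trivial⟩ hr

private theorem cor_neg_aux {i k : Fin n} (N : ℕ) : ∀ ψ : ℝ, ψ ∈ Ioo 0 Real.pi →
    (∀ m : ℤ, ψ ≠ ang P k * m) → Rch P i (lr P k (fold (ang P k) ψ) 0) → ψ < ang P k * N →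
    ∃ w > 0, ∀ d ∈ Ioo 0 w, Rch P i (lr P k ψ (-d)) := by
  have hγ := ang_pos P k
  have hγπ := ang_lt P k
  induction N with
  | zero =>
    intro ψ h _ _ hN
    simp only [Nat.cast_zero, mul_zero] at hN
    exact absurd h.1 (not_lt.2 hN.le)
  | succ N ih =>
    intro ψ h hm hr hN
    have h1 : ψ ≠ ang P k := by
      have := hm 1
      simpa using this
    have h2 : ψ ≠ 2 * ang P k := by
      have := hm 2
      intro h3
      apply this
      rw [h3]
      push_cast
      ring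
    rcases lt_or_gt_of_ne h1 with h3 | h3
    · -- inside the corner
      rw [fold_of_mem ⟨h.1.le, h3.le⟩ hγ] at hr
      obtain ⟨w, hw, hw2⟩ := Rch_near P hr
      refine ⟨w, hw, fun d hd => hw2 _ ?_⟩
      rw [abs_neg, abs_of_pos hd.1]
      exact hd.2
    · obtain ⟨w1, hw1, hw1'⟩ := Ex_k P (k := k) (ψ := ψ)
        (Real.sin_pos_of_pos_of_lt_pi (by linarith) (by linarith [h.2]))
      rcases lt_or_gt_of_ne h2 with h4 | h4
      · have hf : fold (ang P k) ψ = 2 * ang P k - ψ := by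
          have e1 := fold_neg hγ ψ
          have e2 := fold_add hγ (-ψ) 1
          have e3 : -ψ + 2 * ang P k * ((1 : ℤ) : ℝ) = 2 * ang P k - ψ := by
            push_cast
            ring
          rw [e3] at e2
          rw [← e1, ← e2]
          exact fold_of_mem ⟨by linarith, by linarith⟩ hγ
        rw [hf] at hr
        obtain ⟨w2, hw2, hw2'⟩ := Rch_near P hr
        refine ⟨min w1 w2, lt_min hw1 hw2, fun d hd => ?_⟩
        refine rch_one P (hw1' d ⟨hd.1, hd.2.trans_le (min_le_left _ _)⟩) ?_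
        rw [T_k, neg_neg]
        refine hw2' d ?_
        rw [abs_of_pos hd.1]
        exact hd.2.trans_le (min_le_right _ _)
      · have hsin : Real.sin (2 * ang P k - ψ) < 0 :=
          Real.sin_neg_of_neg_of_neg_pi_lt (by linarith) (by linarith [h.2])
        obtain ⟨w2, hw2, hw2'⟩ := Ex_k1 P (k := k) hsin
        have hf : fold (ang P k) (ψ - 2 * ang P k) = fold (ang P k) ψ := by
          have e2 := fold_add hγ ψ (-1)
          have e3 : ψ + 2 * ang P k * ((-1 : ℤ) : ℝ) = ψ - 2 * ang P k := by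
            push_cast
            ring
          rw [e3] at e2
          exact e2
        obtain ⟨w3, hw3, hw3'⟩ := ih (ψ - 2 * ang P k) ⟨by linarith, by linarith [h.2]⟩
          (fun m hm' => hm (m + 2) (by
            push_cast
            linarith)) (by rw [hf]; exact hr) (by
            push_cast at hN
            linarith)
        refine ⟨min w1 (min w2 w3), lt_min hw1 (lt_min hw2 hw3), fun d hd => ?_⟩
        have hd2 : d < w2 := hd.2.trans_le ((min_le_right _ _).trans (min_le_left _ _))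
        have hd3 : d < w3 := hd.2.trans_le ((min_le_right _ _).trans (min_le_right _ _))
        refine rch_one P (hw1' d ⟨hd.1, hd.2.trans_le (min_le_left _ _)⟩) ?_
        rw [T_k, neg_neg]
        refine rch_one P (hw2' d ⟨hd.1, hd2⟩) ?_
        rw [T_k1]
        have e4 : -(2 * ang P k - ψ) = ψ - 2 * ang P k := by ring
        rw [e4]
        exact hw3' d ⟨hd.1, hd3⟩

theorem cor_neg {i k : Fin n} {ψ : ℝ} (h : ψ ∈ Ioo 0 Real.pi) (hm : ∀ m : ℤ, ψ ≠ ang P k * m)
    (hr : Rch P i (lr P k (fold (ang P k) ψ) 0)) :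
    ∃ w > 0, ∀ d ∈ Ioo 0 w, Rch P i (lr P k ψ (-d)) := by
  have hγ := ang_pos P k
  obtain ⟨N, hN⟩ := exists_nat_gt (ψ / ang P k)
  refine cor_neg_aux P N ψ h hm hr ?_
  rw [div_lt_iff₀ hγ] at hN
  linarith

theorem cor_pos {i k : Fin n} {χ : ℝ} (h : χ ∈ Ioo 0 Real.pi) (hm : ∀ m : ℤ, χ ≠ ang P k * m)
    (hr : Rch P i (lr P k (fold (ang P k) (χ - ang P k)) 0)) :
    ∃ w > 0, ∀ d ∈ Ioo 0 w, Rch P i (lr P k (ang P k - χ) d) := by
  have hγ := ang_pos P k
  have hγπ := ang_lt P k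
  have h1 : χ ≠ ang P k := by
    have := hm 1
    simpa using this
  rcases lt_or_gt_of_ne h1 with h3 | h3
  · have hf : fold (ang P k) (χ - ang P k) = ang P k - χ := by
      have e1 := fold_neg hγ (χ - ang P k)
      have e2 : -(χ - ang P k) = ang P k - χ := by ring
      rw [e2] at e1
      rw [← e1]
      exact fold_of_mem ⟨by linarith, by linarith [h.1]⟩ hγ
    rw [hf] at hr
    obtain ⟨w, hw, hw2⟩ := Rch_near P hr
    refine ⟨w, hw, fun d hd => hw2 _ ?_⟩
    rw [abs_of_pos hd.1]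
    exact hd.2
  · have hsin : Real.sin (ang P k - χ) < 0 :=
      Real.sin_neg_of_neg_of_neg_pi_lt (by linarith) (by linarith [h.2])
    obtain ⟨w1, hw1, hw1'⟩ := Ex_k1 P (k := k) hsin
    obtain ⟨w2, hw2, hw2'⟩ := cor_neg P (i := i) (k := k) (ψ := χ - ang P k)
      ⟨by linarith, by linarith [h.2]⟩
      (fun m hm' => hm (m + 1) (by
        push_cast
        linarith)) hr
    refine ⟨min w1 w2, lt_min hw1 hw2, fun d hd => ?_⟩
    refine rch_one P (hw1' d ⟨hd.1, hd.2.trans_le (min_le_left _ _)⟩) ?_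
    rw [T_k1]
    have e4 : -(ang P k - χ) = χ - ang P k := by ring
    rw [e4]
    exact hw2' d ⟨hd.1, hd.2.trans_le (min_le_right _ _)⟩

theorem cor_rev_neg {i k : Fin n} {φ : ℝ} (h : φ ∈ Ioo 0 (ang P k)) (hm : ∀ m : ℤ, Real.pi - φ ≠ ang P k * m)
    (hr : Rch P i (lr P k (fold (ang P k) (Real.pi - φ)) 0)) :
    ∃ w > 0, ∀ d ∈ Ioo 0 w, Rch P i (rv (lr P k φ (-d))) := by
  have hγ := ang_pos P k
  have hγπ := ang_lt P k
  have hsin : Real.sin (φ + Real.pi) < 0 := by
    rw [Real.sin_add_pi]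
    have := Real.sin_pos_of_pos_of_lt_pi h.1 (by linarith [h.2])
    linarith
  obtain ⟨w1, hw1, hw1'⟩ := Ex_k1 P (k := k) hsin
  obtain ⟨w2, hw2, hw2'⟩ := cor_neg P (i := i) (k := k) (ψ := Real.pi - φ)
    ⟨by linarith [h.2], by linarith [h.1]⟩ hm hr
  refine ⟨min w1 w2, lt_min hw1 hw2, fun d hd => ?_⟩
  rw [rv_lr, neg_neg]
  refine rch_one P (hw1' d ⟨hd.1, hd.2.trans_le (min_le_left _ _)⟩) ?_
  rw [T_k1, ← lr_period]
  have e4 : -(φ + Real.pi) + 2 * Real.pi = Real.pi - φ := by ring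
  rw [e4]
  exact hw2' d ⟨hd.1, hd.2.trans_le (min_le_right _ _)⟩

theorem cor_rev_pos {i k : Fin n} {φ : ℝ} (h : φ ∈ Ioo 0 (ang P k)) (hm : ∀ m : ℤ, Real.pi + φ ≠ ang P k * m)
    (hr : Rch P i (lr P k (fold (ang P k) (Real.pi + φ)) 0)) :
    ∃ w > 0, ∀ d ∈ Ioo 0 w, Rch P i (rv (lr P k φ d)) := by
  have hγ := ang_pos P k
  have hγπ := ang_lt P k
  have hsin : 0 < Real.sin (φ + Real.pi - ang P k) :=
    Real.sin_pos_of_pos_of_lt_pi (by linarith [h.1]) (by linarith [h.2])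
  obtain ⟨w1, hw1, hw1'⟩ := Ex_k P (k := k) hsin
  have hf : fold (ang P k) (φ + Real.pi - ang P k - ang P k) = fold (ang P k) (Real.pi + φ) := by
    have e2 := fold_add hγ (Real.pi + φ) (-1)
    have e3 : Real.pi + φ + 2 * ang P k * ((-1 : ℤ) : ℝ) = φ + Real.pi - ang P k - ang P k := by
      push_cast
      ring
    rw [e3] at e2
    exact e2
  obtain ⟨w2, hw2, hw2'⟩ := cor_pos P (i := i) (k := k) (χ := φ + Real.pi - ang P k)
    ⟨by linarith [h.1], by linarith [h.2]⟩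
    (fun m hm' => hm (m + 1) (by
      push_cast
      linarith)) (by rw [hf]; exact hr)
  refine ⟨min w1 w2, lt_min hw1 hw2, fun d hd => ?_⟩
  rw [rv_lr]
  refine rch_one P (hw1' d ⟨hd.1, hd.2.trans_le (min_le_left _ _)⟩) ?_
  rw [T_k, neg_neg]
  have e4 : 2 * ang P k - (φ + Real.pi) = ang P k - (φ + Real.pi - ang P k) := by ring
  rw [e4]
  exact hw2' d ⟨hd.1, hd.2.trans_le (min_le_right _ _)⟩

end Pool.Agent.GRM
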