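import Pool.Agent.Helper62.Bil.Near

/-! GRM: rays from the vertices of a polygon and invariant sets of the billiard map: definitions.

The plane is `ℂ`.  An oriented line is a pair `x = (u, p)`: `u` is its direction (a unit vector), and
`cross u z = p` for the points `z` of the line.  The side `l` goes from `V l` to `V (l + 1)` with unit
direction `dir l`, the polygon is on its left. -/

namespace Pool.Agent.GRM

open Bil62 Bil62.ConvexPolygon MeasureTheory Set

/-- the unit vector with argument `α` -/
noncomputable def uv (α : ℝ) : ℂ := Complex.exp ((α : ℂ) * Complex.I)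

/-- parallel translation of the line `x` by `d` (to the left for `d > 0`) -/
def sh (d : ℝ) (x : ℂ × ℝ) : ℂ × ℝ := (x.1, x.2 + d)

/-- the line with the opposite orientation -/
def rv (x : ℂ × ℝ) : ℂ × ℝ := (-x.1, -x.2)

/-- `1` for words of even length, `-1` for words of odd length -/
def sg {n : ℕ} (ω : List (Fin n)) : ℝ := (-1) ^ ω.length

/-- the distance of `ψ` from the multiples of `2 * γ` -/
noncomputable def fold (γ ψ : ℝ) : ℝ := |ψ - 2 * γ * round (ψ / (2 * γ))|

variable {n : ℕ} [NeZero n] (P : ConvexPolygon n)

/-- the line `x` leaves the polygon through the open side `l` -/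
def Ex (l : Fin n) (x : ℂ × ℝ) : Prop := P.Exit x.1 x.2 l

/-- the line `x` enters the polygon through the open side `l` -/
def En (l : Fin n) (x : ℂ × ℝ) : Prop := P.Ent x.1 x.2 l

/-- the reflection of the line `x` in the side `l` -/
noncomputable def T (l : Fin n) (x : ℂ × ℝ) : ℂ × ℝ :=
  (P.refl l x.1, cross (P.refl l x.1) (P.V l) + cross x.1 (P.V l) - x.2)

/-- the billiard orbit starting with the line `x` is reflected in the sides of the word, in this order -/
def Wd : List (Fin n) → ℂ × ℝ → Prop
  | [], _ => True
  | l :: ω, x => Ex P l x ∧ Wd ω (T P l x)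

/-- the line after the reflections in the sides of the word -/
noncomputable def Tw : List (Fin n) → ℂ × ℝ → ℂ × ℝ
  | [], x => x
  | l :: ω, x => Tw ω (T P l x)

/-- the forward orbit of the line `x` arrives at the side `i` -/
def Rch (i : Fin n) (x : ℂ × ℝ) : Prop := ∃ ω : List (Fin n), Wd P ω x ∧ Ex P i (Tw P ω x)

/-- the forward orbit of the line `x` never arrives at a vertex (nor misses the polygon) -/
def Reg (x : ℂ × ℝ) : Prop := ∀ m : ℕ, ∃ ω : List (Fin n), ω.length = m ∧ Wd P ω x

/-- the vector `u` points from the vertex `V (k + 1)` into the polygon -/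
def Into (k : Fin n) (u : ℂ) : Prop := 0 < cross (P.dir k) u ∧ 0 < cross (P.dir (k + 1)) u

/-- the line through the vertex `V (k + 1)` with direction `uv α` -/
noncomputable def vr (k : Fin n) (α : ℝ) : ℂ × ℝ := (uv α, cross (uv α) (P.V (k + 1)))

/-- the angle of the polygon at the vertex `V (k + 1)` -/
noncomputable def ang (k : Fin n) : ℝ := Complex.arg (-(P.dir k) / P.dir (k + 1))

/-- the line with direction `dir (k + 1) * uv ψ` at signed distance `d` from the vertex `V (k + 1)` -/
noncomputable def lr (k : Fin n) (ψ d : ℝ) : ℂ × ℝ :=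
  (P.dir (k + 1) * uv ψ, cross (P.dir (k + 1) * uv ψ) (P.V (k + 1)) + d)

/-- the constant in the direction after the reflections in the sides of the word -/
noncomputable def cw : List (Fin n) → ℝ
  | [] => 0
  | l :: ω => cw ω + sg ω * (2 * Complex.arg (P.dir l))

/-- the image of a point under the successive reflections in the sides of the word -/
noncomputable def fo : List (Fin n) → ℂ → ℂ
  | [], F => F
  | l :: ω, F => fo ω (P.rpt l F)

/-- a bound for the `p` of the lines that meet the polygon, and for the norms of its points -/
noncomputable def bd : ℝ := ∑ j, ‖P.V j‖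

/-- the index of the left (`0 < ε`) or right (`ε < 0`) end of the exit side `l`, seen along the line -/
noncomputable def vx (ε : ℝ) (l : Fin n) : Fin n := if 0 < ε then l + 1 else l

/-- the point where the line `x` meets the line of the side `l` -/
noncomputable def xp (l : Fin n) (x : ℂ × ℝ) : ℂ :=
  P.pt l ((x.2 - cross x.1 (P.V l)) / cross x.1 (P.dir l))

/-- an infinite orbit: the line `y m` leaves through the side `κ m` -/
def Orb (κ : ℕ → Fin n) (y : ℕ → ℂ × ℝ) : Prop :=
  ‖(y 0).1‖ = 1 ∧ ∀ m, Ex P (κ m) (y m) ∧ y (m + 1) = T P (κ m) (y m)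

/-- the line carrying the chord that starts at the phase point `z` -/
noncomputable def lnz (z : Fin n × ℝ × ℝ) : ℂ × ℝ := (P.vel z, P.pv z)

/-- almost every ray from the vertex `V (k + 1)` arrives at the side `i` -/
def Full (i k : Fin n) : Prop := ∀ᵐ α : ℝ, Into P k (uv α) → Rch P i (vr P k α)

end Pool.Agent.GRM
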