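import Pool.Agent.GRM.RchA

/-! GRM-Lnk1: phase points and lines (imports Bas1, RchA; library `Helper62/Bil/Hits.lean`).

PLAN.  `lnz z = (vel z, pv z)`, `pv z = cross (vel z) (pos z)`.
* `lnz_En`: `ent_of_pt` with `pos z = pt z.1 z.2.2`, `cross (dir) (vel) = sin θ > 0` (`cross_dir_vel`).
* `lnz_hits`: `hits_exit`.  `lnz_exists`: `exists_hits` and `hits_exit`.
* `lnz_rev`: `rev z = (z.1, π - θ, s)`: `vel (rev z) = -(dir * exp (-iθ)) = - refl (vel z)` (`vel_rev`, `refl k u = dir k ^ 2 * conj u`), same base point; the reflection of the line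
  `lnz z` in the side `z.1` passes through the same base point (`rpt_pt`, `cross_refl_rpt`).
* `Rch_chain`: let `y : ℕ → Fin n × ℝ × ℝ` be a chain of `Hits` in the phase space that misses side `i` from index 1 on.  Then `¬ Rch i (lnz (y 0))`: by induction on the word, for all
  starting indices `m`: `¬ (Wd ω (lnz (y m)) ∧ Ex i (Tw ω (lnz (y m))))`: `[]`: `Ex i (lnz (y m))` and `lnz_hits`: exit side `(y (m+1)).1`, `Ex_unique`: `= i`; `l :: ω`:
  `l = (y (m+1)).1`, `T l (lnz (y m)) = lnz (y (m+1))`.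
* `Rch_rv_lnz`: `rv (lnz z)` leaves through `z.1` (`Ex_rv`), `T z.1 (rv (lnz z)) = rv (T z.1 (lnz z)) = lnz (rev z)` (from `T_rv_T`, `T_T`), `Rch_cons`. -/

namespace Pool.Agent.GRM

open Bil62 Bil62.ConvexPolygon MeasureTheory Set

variable {n : ℕ} [NeZero n] (P : ConvexPolygon n)

theorem norm_lnz (z : Fin n × ℝ × ℝ) : ‖(lnz P z).1‖ = 1 := P.norm_vel z

theorem lnz_En {z : Fin n × ℝ × ℝ} (hz : z ∈ P.Phase) : En P z.1 (lnz P z) := by
  refine P.ent_of_pt hz.2 rfl ?_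
  show 0 < cross (P.dir z.1) (P.vel z)
  rw [P.cross_dir_vel]
  exact P.sin_pos_of_phase hz

theorem lnz_hits {z z' : Fin n × ℝ × ℝ} (hz' : z' ∈ P.Phase) (h : P.Hits z z') :
    Ex P z'.1 (lnz P z) ∧ lnz P z' = T P z'.1 (lnz P z) := by
  obtain ⟨h1, h2, h3⟩ := P.hits_exit hz' h
  refine ⟨h1, ?_⟩
  refine Prod.ext h2 ?_
  show P.pv z' = cross (P.refl z'.1 (P.vel z)) (P.V z'.1) + cross (P.vel z) (P.V z'.1) - P.pv z
  rw [← h2]
  exact h3

theorem lnz_exists {z : Fin n × ℝ × ℝ} (hz : z ∈ P.Phase) {l : Fin n} (h : Ex P l (lnz P z)) :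
    ∃ z' ∈ P.Phase, z'.1 = l ∧ P.Hits z z' ∧ lnz P z' = T P l (lnz P z) := by
  obtain ⟨z', h1, h2, h3⟩ := P.exists_hits hz h
  refine ⟨z', h1, h2, h3, ?_⟩
  have := (lnz_hits P h1 h3).2
  rwa [h2] at this

private theorem refl_vel (z : Fin n × ℝ × ℝ) : P.vel (rev z) = - P.refl z.1 (P.vel z) := by
  rw [P.vel_rev]
  unfold ConvexPolygon.refl ConvexPolygon.vel
  rw [map_mul, exp_I_conj]
  have := P.dir_mul_conj z.1
  linear_combination (P.dir z.1 * Complex.exp (-(z.2.1 : ℂ) * Complex.I)) * this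

theorem lnz_rev (z : Fin n × ℝ × ℝ) : lnz P (rev z) = rv (T P z.1 (lnz P z)) := by
  refine Prod.ext (refl_vel P z) ?_
  show cross (P.vel (rev z)) (P.pos (rev z)) =
    -(cross (P.refl z.1 (P.vel z)) (P.V z.1) + cross (P.vel z) (P.V z.1) - P.pv z)
  rw [refl_vel, P.pos_rev, cross_neg_left]
  have h1 := P.cross_refl_rpt z.1 (P.vel z) (P.pos z)
  rw [P.pos_eq_pt, P.rpt_pt] at h1
  rw [P.pos_eq_pt, h1]
  unfold ConvexPolygon.pv
  rw [P.pos_eq_pt]

theorem Rch_chain {i : Fin n} {y : ℕ → Fin n × ℝ × ℝ} (h1 : ∀ m, y m ∈ P.Phase)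
    (h2 : ∀ m, P.Hits (y m) (y (m + 1))) (h3 : ∀ m, (y m).1 ≠ i) : ¬ Rch P i (lnz P (y 0)) := by
  have key : ∀ (ω : List (Fin n)) (m : ℕ), Wd P ω (lnz P (y m)) → ¬ Ex P i (Tw P ω (lnz P (y m))) := by
    intro ω
    induction ω with
    | nil =>
      intro m _ hE
      obtain ⟨h4, -⟩ := lnz_hits P (h1 (m + 1)) (h2 m)
      exact h3 (m + 1) (Ex_unique P (norm_lnz P _) h4 hE)
    | cons l ω ih =>
      intro m hW hE
      obtain ⟨h4, h5⟩ := lnz_hits P (h1 (m + 1)) (h2 m)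
      obtain ⟨h6, h7⟩ := hW
      have e : (y (m + 1)).1 = l := Ex_unique P (norm_lnz P _) h4 h6
      rw [e] at h5
      rw [← h5] at h7
      refine ih (m + 1) h7 ?_
      rw [h5]
      exact hE
  rintro ⟨ω, h4, h5⟩
  exact key ω 0 h4 h5

theorem Rch_rv_lnz {i : Fin n} {z : Fin n × ℝ × ℝ} (hz : z ∈ P.Phase) (hi : z.1 ≠ i)
    (h : Rch P i (rv (lnz P z))) : Rch P i (lnz P (rev z)) := by
  have h1 : Ex P z.1 (rv (lnz P z)) := (Ex_rv P).2 (lnz_En P hz)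
  have h2 := Rch_cons P (by rw [norm_rv, norm_lnz]) h1 hi h
  have h3 : T P z.1 (rv (lnz P z)) = rv (T P z.1 (lnz P z)) := by
    have := T_rv_T P z.1 (T P z.1 (lnz P z))
    rwa [T_T] at this
  rw [lnz_rev, ← h3]
  exact h2

end Pool.Agent.GRM
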