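import Pool.Agent.GRM.Cor2
import Pool.Agent.GRM.Lnk1

/-! GRM-Den1: phase points near a vertex (imports Cor2, Lnk1).

PLAN.
* `den_neg`, `den_pos`: `full_iff` gives `Rch i (lr k φ 0)` for a.e. `φ ∈ Ioo 0 γ`, `γ = ang k`; `fold_ae`: for a.e. `ψ`: `fold γ ψ ∈ Ioo 0 γ → Rch i (lr k (fold γ ψ) 0)`, also for
  `fold γ (ψ - γ)` (translation of `ψ`); `fold_mem` with `ae_ne_mul`; then `cor_neg`, `cor_pos`.
* `lnz_start`: `z = (k+1, ψ, s)`: `vel z = dir (k+1) * uv ψ`, `pos z = V (k+1) + s * dir (k+1)`, `cross (dir (k+1) * uv ψ) (dir (k+1)) = - sin ψ` (`cross_dir_succ`).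
* `lnz_end`: `z = (k, θ, len k - s)`: `vel z = dir k * uv θ = dir (k+1) * uv (ang k - (π - θ))` (`dir_eq`, `uv_add_pi`; modulo `2π`), `pos z = V (k+1) - s * dir k`, `cross (vel z) (dir k) = - sin θ`.
* `near_sides`: if `z ∈ Phase` and `‖pos z - V (k+1)‖ < ρ₀` then `z.1 = k + 1` or `z.1 = k`: for the other sides `0 < g l (V (k+1))` (`g_V_pos`) and
  `g l (V (k+1)) = g l (V (k+1)) - g l (pos z) ≤ ‖V (k+1) - pos z‖`; minimum over the finitely many `l`.  And `‖pos z - V (k+1)‖ = s` resp. `len k - s`. -/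

namespace Pool.Agent.GRM

open Bil62 Bil62.ConvexPolygon MeasureTheory Set

variable {n : ℕ} [NeZero n] (P : ConvexPolygon n)

private theorem fold_ae' {i k : Fin n} (hf : Full P i k) (c : ℝ) :
    ∀ᵐ ψ : ℝ, fold (ang P k) (ψ + c) ∈ Ioo 0 (ang P k) →
      Rch P i (lr P k (fold (ang P k) (ψ + c)) 0) := by
  have h1 := fold_ae (ang_pos P k) ((full_iff P i k).1 hf)
  have h2 : MeasurePreserving (fun ψ : ℝ => ψ + c) volume volume :=
    measurePreserving_add_right volume c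
  exact h2.quasiMeasurePreserving.ae h1

theorem den_neg {i k : Fin n} (hf : Full P i k) : ∀ᵐ ψ : ℝ, ψ ∈ Ioo 0 Real.pi →
    ∃ w > 0, ∀ d ∈ Ioo 0 w, Rch P i (lr P k ψ (-d)) := by
  filter_upwards [fold_ae' P hf 0, ae_ne_mul (ang_pos P k) 0] with ψ h1 h2 hψ
  simp only [add_zero] at h1 h2
  exact cor_neg P hψ h2 (h1 (fold_mem (ang_pos P k) h2))

theorem den_pos {i k : Fin n} (hf : Full P i k) : ∀ᵐ χ : ℝ, χ ∈ Ioo 0 Real.pi →
    ∃ w > 0, ∀ d ∈ Ioo 0 w, Rch P i (lr P k (ang P k - χ) d) := by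
  filter_upwards [fold_ae' P hf (-ang P k), ae_ne_mul (ang_pos P k) (-ang P k),
    ae_ne_mul (ang_pos P k) 0] with χ h1 h2 h3 hχ
  simp only [add_zero] at h3
  simp only [← sub_eq_add_neg] at h1 h2
  exact cor_pos P hχ h3 (h1 (fold_mem (ang_pos P k) h2))

private theorem vel_eq (z : Fin n × ℝ × ℝ) : P.vel z = P.dir z.1 * uv z.2.1 := rfl

theorem lnz_start (k : Fin n) (ψ s : ℝ) : lnz P (k + 1, ψ, s) = lr P k ψ (-(s * Real.sin ψ)) := by
  unfold lnz lr ConvexPolygon.pv ConvexPolygon.pos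
  rw [vel_eq]
  ext1
  · rfl
  · show cross (P.dir (k + 1) * uv ψ) (P.V (k + 1) + (s : ℂ) * P.dir (k + 1)) = _
    rw [cross_add_right, cross_smul_right, cross_comm (P.dir (k + 1) * uv ψ) (P.dir (k + 1)),
      cross_dir_succ]
    ring

theorem lnz_end (k : Fin n) (θ s : ℝ) :
    lnz P (k, θ, P.len k - s) = lr P k (ang P k - (Real.pi - θ)) (s * Real.sin θ) := by
  have h1 : P.dir k * uv θ = P.dir (k + 1) * uv (ang P k - (Real.pi - θ)) := by
    have h2 : uv (ang P k - (Real.pi - θ)) = - (uv (ang P k) * uv θ) := by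
      have h3 := uv_add_pi (ang P k - (Real.pi - θ))
      have h4 : ang P k - (Real.pi - θ) + Real.pi = ang P k + θ := by ring
      rw [h4, uv_add] at h3
      rw [h3, neg_neg]
    rw [h2, dir_eq P k]
    ring
  unfold lnz lr ConvexPolygon.pv ConvexPolygon.pos
  rw [vel_eq]
  ext1
  · exact h1
  · show cross (P.dir k * uv θ) (P.V k + ((P.len k - s : ℝ) : ℂ) * P.dir k) = _
    rw [← h1]
    have h2 : P.V k + ((P.len k - s : ℝ) : ℂ) * P.dir k =
        P.V (k + 1) + ((-s : ℝ) : ℂ) * P.dir k := by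
      rw [P.V_succ k]
      push_cast
      ring
    have h3 : cross (P.dir k) (P.dir k * uv θ) = Real.sin θ := cross_dir_exp (P.norm_dir k) θ
    rw [h2, cross_add_right, cross_smul_right, cross_comm (P.dir k * uv θ) (P.dir k), h3]
    ring

private theorem g_diff (l : Fin n) (z w : ℂ) : P.g l z - P.g l w ≤ ‖w - z‖ := by
  have h1 : P.g l z - P.g l w = cross (P.dir l) (z - w) := by
    unfold ConvexPolygon.g
    rw [cross_sub_right, cross_sub_right, cross_sub_right]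
    ring
  rw [h1]
  refine (le_abs_self _).trans ((abs_cross_le' _ _).trans ?_)
  rw [P.norm_dir, one_mul, norm_sub_rev]

theorem near_sides (k : Fin n) : ∃ ρ₀ > 0, ∀ z ∈ P.Phase, ‖P.pos z - P.V (k + 1)‖ < ρ₀ →
    (z.1 = k + 1 ∧ ‖P.pos z - P.V (k + 1)‖ = z.2.2) ∨
    (z.1 = k ∧ ‖P.pos z - P.V (k + 1)‖ = P.len k - z.2.2) := by
  -- the minimum of the positive distances
  have hmin : ∃ ρ₀ > 0, ∀ l : Fin n, l ≠ k + 1 → l ≠ k → ρ₀ ≤ P.g l (P.V (k + 1)) := by
    have h1 : ∀ s : Finset (Fin n), ∃ ρ₀ > 0, ∀ l ∈ s, l ≠ k + 1 → l ≠ k →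
        ρ₀ ≤ P.g l (P.V (k + 1)) := by
      intro s
      induction s using Finset.induction_on with
      | empty => exact ⟨1, one_pos, fun l hl => absurd hl (Finset.notMem_empty l)⟩
      | insert a s _ ih =>
        obtain ⟨ρ, hρ, h⟩ := ih
        by_cases ha : a ≠ k + 1 ∧ a ≠ k
        · have h2 : 0 < P.g a (P.V (k + 1)) := by
            apply P.g_V_pos (fun h => ha.1 h.symm)
            intro h
            exact ha.2 (add_right_cancel h).symm
          refine ⟨min ρ (P.g a (P.V (k + 1))), lt_min hρ h2, fun l hl h3 h4 => ?_⟩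
          rcases Finset.mem_insert.1 hl with rfl | hl
          · exact min_le_right _ _
          · exact (min_le_left _ _).trans (h l hl h3 h4)
        · refine ⟨ρ, hρ, fun l hl h3 h4 => ?_⟩
          rcases Finset.mem_insert.1 hl with rfl | hl
          · exact absurd ⟨h3, h4⟩ ha
          · exact h l hl h3 h4
    obtain ⟨ρ, hρ, h⟩ := h1 Finset.univ
    exact ⟨ρ, hρ, fun l => h l (Finset.mem_univ l)⟩
  obtain ⟨ρ₀, hρ, h⟩ := hmin
  refine ⟨ρ₀, hρ, fun z hz hlt => ?_⟩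
  obtain ⟨l, θ, s⟩ := z
  obtain ⟨_, hs⟩ := hz
  simp only at hs
  by_cases h1 : l = k + 1
  · left
    subst h1
    refine ⟨rfl, ?_⟩
    show ‖P.V (k + 1) + (s : ℂ) * P.dir (k + 1) - P.V (k + 1)‖ = s
    rw [add_sub_cancel_left, norm_mul, P.norm_dir, mul_one, Complex.norm_real,
      Real.norm_of_nonneg hs.1.le]
  · by_cases h2 : l = k
    · right
      subst h2
      refine ⟨rfl, ?_⟩
      show ‖P.V l + (s : ℂ) * P.dir l - P.V (l + 1)‖ = P.len l - s
      have h3 : P.V l + (s : ℂ) * P.dir l - P.V (l + 1) = ((s - P.len l : ℝ) : ℂ) * P.dir l := by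
        rw [P.V_succ l]
        push_cast
        ring
      rw [h3, norm_mul, P.norm_dir, mul_one, Complex.norm_real, Real.norm_eq_abs, abs_sub_comm,
        abs_of_nonneg (by linarith [hs.2])]
    · exfalso
      have h3 := h l h1 h2
      have h4 := g_diff P l (P.V (k + 1)) (P.pos (l, θ, s))
      have h5 : P.g l (P.pos (l, θ, s)) = 0 := P.g_pt_self l s
      rw [h5, sub_zero] at h4
      linarith

end Pool.Agent.GRM
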