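import Mathlib

/-! GRM-Den2: dominated convergence (Mathlib only).

PLAN.  `F ρ θ = ofReal (sin θ) * volume {s ∈ Ioo 0 ρ | (θ, s) ∈ B} / ofReal ρ ≤ 1` for `ρ > 0` (`volume (Ioo 0 ρ) = ofReal ρ`), measurable in `θ` (`measurable_measure_prodMk_left` for
`B ∩ univ ×ˢ Ioo 0 ρ`), and for a.e. `θ ∈ Ioo 0 π` it is `0` for all `ρ < w(θ)`.  `tendsto_lintegral_filter_of_dominated_convergence` for the filter `𝓝[>] 0` (countably generated) and the finite
measure `volume.restrict (Ioo 0 π)`.  Pull the division by `ofReal ρ` out of the integral (`lintegral_mul_const`, `div_eq_mul_inv`). -/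

namespace Pool.Agent.GRM

open MeasureTheory Set Filter Topology

theorem den_lim {B : Set (ℝ × ℝ)} (hB : MeasurableSet B)
    (h : ∀ᵐ θ : ℝ, θ ∈ Ioo 0 Real.pi → ∃ w > 0, ∀ s ∈ Ioo 0 w, (θ, s) ∉ B) :
    Tendsto (fun ρ : ℝ => (∫⁻ θ in Ioo 0 Real.pi, ENNReal.ofReal (Real.sin θ) *
      volume {s | s ∈ Ioo 0 ρ ∧ (θ, s) ∈ B}) / ENNReal.ofReal ρ) (𝓝[>] 0) (𝓝 0) := by
  have hmeas : ∀ ρ : ℝ, Measurable fun θ : ℝ => volume {s | s ∈ Ioo 0 ρ ∧ (θ, s) ∈ B} := by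
    intro ρ
    have h1 : MeasurableSet (B ∩ (univ ×ˢ Ioo (0 : ℝ) ρ)) :=
      hB.inter (MeasurableSet.univ.prod measurableSet_Ioo)
    have h2 := measurable_measure_prodMk_left (ν := (volume : Measure ℝ)) h1
    have h3 : (fun θ : ℝ => volume {s | s ∈ Ioo 0 ρ ∧ (θ, s) ∈ B}) =
        fun θ : ℝ => volume (Prod.mk θ ⁻¹' (B ∩ (univ ×ˢ Ioo (0 : ℝ) ρ))) := by
      funext θ
      congr 1
      ext s
      simp only [mem_ofPred_eq, mem_preimage, mem_inter_iff, mem_prod, mem_univ, true_and]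
      exact and_comm
    rw [h3]
    exact h2
  have hmeas2 : ∀ ρ : ℝ, Measurable fun θ : ℝ => ENNReal.ofReal (Real.sin θ) *
      volume {s | s ∈ Ioo 0 ρ ∧ (θ, s) ∈ B} := fun ρ =>
    (Real.measurable_sin.ennreal_ofReal).mul (hmeas ρ)
  have hlim : Tendsto (fun ρ : ℝ => ∫⁻ θ in Ioo 0 Real.pi, ENNReal.ofReal (Real.sin θ) *
      volume {s | s ∈ Ioo 0 ρ ∧ (θ, s) ∈ B} * (ENNReal.ofReal ρ)⁻¹) (𝓝[>] 0)
      (𝓝 (∫⁻ _θ in Ioo 0 Real.pi, 0)) := by
    refine tendsto_lintegral_filter_of_dominated_convergence (fun _ => 1) ?_ ?_ ?_ ?_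
    · exact Eventually.of_forall fun ρ => (hmeas2 ρ).mul_const _
    · refine Eventually.of_forall fun ρ => Eventually.of_forall fun θ => ?_
      have e1 : ENNReal.ofReal (Real.sin θ) ≤ 1 :=
        ENNReal.ofReal_le_one.2 (Real.sin_le_one θ)
      have e2 : volume {s | s ∈ Ioo 0 ρ ∧ (θ, s) ∈ B} ≤ ENNReal.ofReal ρ := by
        calc volume {s | s ∈ Ioo 0 ρ ∧ (θ, s) ∈ B} ≤ volume (Ioo 0 ρ) :=
              measure_mono fun s hs => hs.1
          _ = ENNReal.ofReal ρ := by rw [Real.volume_Ioo, sub_zero]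
      calc ENNReal.ofReal (Real.sin θ) * volume {s | s ∈ Ioo 0 ρ ∧ (θ, s) ∈ B} *
            (ENNReal.ofReal ρ)⁻¹ ≤ 1 * ENNReal.ofReal ρ * (ENNReal.ofReal ρ)⁻¹ := by gcongr
        _ = ENNReal.ofReal ρ * (ENNReal.ofReal ρ)⁻¹ := by rw [one_mul]
        _ ≤ 1 := ENNReal.mul_inv_le_one _
    · rw [lintegral_const, one_mul, Measure.restrict_apply_univ, Real.volume_Ioo]
      exact ENNReal.ofReal_ne_top
    · rw [ae_restrict_iff' measurableSet_Ioo]
      refine h.mono fun θ hθ hθ1 => ?_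
      obtain ⟨w, hw, hw1⟩ := hθ hθ1
      refine tendsto_const_nhds.congr' ?_
      filter_upwards [Ioo_mem_nhdsGT hw] with ρ hρ
      have e1 : {s | s ∈ Ioo 0 ρ ∧ (θ, s) ∈ B} = ∅ := by
        ext s
        simp only [mem_ofPred_eq, mem_empty_iff_false, iff_false, not_and]
        intro hs
        exact hw1 s ⟨hs.1, hs.2.trans hρ.2⟩
      rw [e1, measure_empty, mul_zero, zero_mul]
  rw [lintegral_zero] at hlim
  refine hlim.congr fun ρ => ?_
  rw [lintegral_mul_const _ (hmeas2 ρ), div_eq_mul_inv]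

end Pool.Agent.GRM
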