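import Pool.Agent.GRM.Bas2
import Pool.Agent.GRM.Lnk1

/-! GRM-Opn: from an open set of phase points to a rectangle of lines (imports Bas2, Lnk1).

PLAN.
* `mu_open`: a nonempty open subset `U` of the plane (variables `(θ, s)`) contained in the phase rectangle of side `k` has `nu k U > 0`; so an open `W ⊆ Fin n × ℝ × ℝ` that meets the phase
  space has `mu W > 0`: `mu_apply` (open sets are measurable), `nu_apply` or directly: `nu k` is `volume.restrict .. .withDensity (ofReal sin)`, the density is positive on the open rectangle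
  `Ioo 0 π ×ˢ Ioo 0 (len k)` (`withDensity_apply`, `lintegral_pos_iff_support` or `measure_pos` via `withDensity_absolutelyContinuous'`), `IsOpen.measure_pos`.
* `continuous_lnz`: `z ↦ lnz z` is continuous on `Fin n × ℝ × ℝ` (discrete first factor: `continuous_prod_of_discrete_left`-like lemma, or continuity of each `x ↦ lnz (k, x)`).
* `opn`: let `mu (M ∩ U) = 0`, `U` open, `z₀ = (k, θ₀, s₀) ∈ U ∩ Phase`, and `h`: a.e. `z ∉ M` satisfies `¬ Rch i (lnz z) ∧ ¬ Rch i (rv (lnz z))`.  The set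
  `W = {z ∈ U | Rch i (lnz z) ∨ Rch i (rv (lnz z))}` is open (`isOpen_Rch`, `continuous_rv`); `mu W = 0` (`W ∩ M` null, `W \ M` null by `h`); so `W` does not meet the phase space.
  Choose a box `{k} × (θ₁, θ₂) × (s₁, s₂) ⊆ U ∩ Phase` around `z₀`.  With `α = arg (dir k) + θ`, `uv α = vel (k, θ, s)`, `lnz (k, θ, s) = (uv α, cross (uv α) (pt k s))`
  (`dir_eq_uv`, `uv_add`): `a = arg (dir k) + θ₁`, `b = arg (dir k) + θ₂`; `En` by `lnz_En`. -/

namespace Pool.Agent.GRM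

open Bil62 Bil62.ConvexPolygon MeasureTheory Set

variable {n : ℕ} [NeZero n] (P : ConvexPolygon n)

theorem mu_open {W : Set (Fin n × ℝ × ℝ)} (hW : IsOpen W) (h : (W ∩ P.Phase).Nonempty) : 0 < P.mu W := by
  obtain ⟨⟨k, x₀⟩, hzW, hzP⟩ := h
  have hmk : Continuous (fun x : ℝ × ℝ => ((k, x) : Fin n × ℝ × ℝ)) := continuous_const.prodMk continuous_id
  have hR : MeasurableSet (Ioo 0 Real.pi ×ˢ Ioo 0 (P.len k)) := measurableSet_Ioo.prod measurableSet_Ioo
  have hRo : IsOpen (Ioo 0 Real.pi ×ˢ Ioo 0 (P.len k)) := isOpen_Ioo.prod isOpen_Ioo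
  obtain ⟨A, hA⟩ : ∃ A : Set (ℝ × ℝ), A = {x | (k, x) ∈ W} ∩ Ioo 0 Real.pi ×ˢ Ioo 0 (P.len k) := ⟨_, rfl⟩
  have hAo : IsOpen A := by
    rw [hA]
    exact (hW.preimage hmk).inter hRo
  have hAne : A.Nonempty := ⟨x₀, by rw [hA]; exact ⟨hzW, hzP⟩⟩
  rw [pos_iff_ne_zero]
  intro h0
  rw [P.mu_apply hW.measurableSet] at h0
  have h1 : P.nu k {x | (k, x) ∈ W} = 0 := (Finset.sum_eq_zero_iff.1 h0) k (Finset.mem_univ k)
  have h2 : P.nu k A = 0 := measure_mono_null (by rw [hA]; exact inter_subset_left) h1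
  have hac : volume.restrict (Ioo 0 Real.pi ×ˢ Ioo 0 (P.len k)) ≪ P.nu k := by
    refine withDensity_absolutelyContinuous' ?_ ?_
    · exact (ENNReal.measurable_ofReal.comp (Real.measurable_sin.comp measurable_fst)).aemeasurable
    · rw [ae_restrict_iff' hR]
      refine Filter.Eventually.of_forall fun x hx => ?_
      have := Real.sin_pos_of_mem_Ioo hx.1
      rw [ne_eq, ENNReal.ofReal_eq_zero, not_le]
      exact this
  have h3 := hac h2
  rw [Measure.restrict_apply hAo.measurableSet] at h3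
  have h4 : A ∩ Ioo 0 Real.pi ×ˢ Ioo 0 (P.len k) = A := by
    rw [hA, inter_assoc, inter_self]
  rw [h4] at h3
  exact (hAo.measure_pos volume hAne).ne' h3

theorem continuous_lnz : Continuous (lnz P) := by
  rw [continuous_prod_of_discrete_left]
  intro k
  have h1 : Continuous (fun x : ℝ × ℝ => P.vel (k, x)) := by
    have : (fun x : ℝ × ℝ => P.vel (k, x)) =
        fun x : ℝ × ℝ => P.dir k * Complex.exp ((x.1 : ℂ) * Complex.I) := rfl
    rw [this]
    fun_prop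
  have h2 : Continuous (fun x : ℝ × ℝ => P.pos (k, x)) := by
    have : (fun x : ℝ × ℝ => P.pos (k, x)) = fun x : ℝ × ℝ => P.V k + (x.2 : ℂ) * P.dir k := rfl
    rw [this]
    fun_prop
  have h3 : Continuous (fun x : ℝ × ℝ => P.pv (k, x)) := by
    have : (fun x : ℝ × ℝ => P.pv (k, x)) = fun x : ℝ × ℝ => (P.vel (k, x)).re * (P.pos (k, x)).im -
        (P.vel (k, x)).im * (P.pos (k, x)).re := rfl
    rw [this]
    exact ((Complex.continuous_re.comp h1).mul (Complex.continuous_im.comp h2)).sub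
      ((Complex.continuous_im.comp h1).mul (Complex.continuous_re.comp h2))
  exact h1.prodMk h3

private theorem lnz_mk (k : Fin n) (α s : ℝ) :
    lnz P (k, α - Complex.arg (P.dir k), s) = (uv α, cross (uv α) (P.pt k s)) := by
  have h1 : P.vel (k, α - Complex.arg (P.dir k), s) = uv α := by
    have h2 : P.vel (k, α - Complex.arg (P.dir k), s) = P.dir k * uv (α - Complex.arg (P.dir k)) := rfl
    rw [h2]
    conv_lhs => rw [dir_eq_uv P k]
    rw [← uv_add]
    congr 1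
    rw [← dir_eq_uv P k]
    ring
  unfold lnz ConvexPolygon.pv
  rw [h1]
  rfl

theorem opn {i : Fin n} {M U : Set (Fin n × ℝ × ℝ)} (hU : IsOpen U) (hne : (U ∩ P.Phase).Nonempty)
    (h0 : P.mu (M ∩ U) = 0)
    (h : ∀ᵐ z ∂P.mu, z ∉ M → ¬ Rch P i (lnz P z) ∧ ¬ Rch P i (rv (lnz P z))) :
    ∃ (k : Fin n) (a b s₁ s₂ : ℝ), a < b ∧ s₁ < s₂ ∧ 0 ≤ s₁ ∧ s₂ ≤ P.len k ∧
      ∀ α ∈ Ioo a b, ∀ s ∈ Ioo s₁ s₂, En P k (uv α, cross (uv α) (P.pt k s)) ∧
        ¬ Rch P i (uv α, cross (uv α) (P.pt k s)) ∧ ¬ Rch P i (rv (uv α, cross (uv α) (P.pt k s))) := by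
  obtain ⟨W, hW⟩ : ∃ W : Set (Fin n × ℝ × ℝ),
      W = U ∩ ({z | Rch P i (lnz P z)} ∪ {z | Rch P i (rv (lnz P z))}) := ⟨_, rfl⟩
  have hWo : IsOpen W := by
    rw [hW]
    exact hU.inter (((isOpen_Rch P i).preimage (continuous_lnz P)).union
      ((isOpen_Rch P i).preimage (continuous_rv.comp (continuous_lnz P))))
  have hW0 : P.mu W = 0 := by
    have h1 : P.mu {z | ¬ (z ∉ M → ¬ Rch P i (lnz P z) ∧ ¬ Rch P i (rv (lnz P z)))} = 0 := ae_iff.1 h
    refine measure_mono_null (fun z hz => ?_) (measure_union_null h0 h1)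
    rw [hW] at hz
    by_cases hM : z ∈ M
    · exact Or.inl ⟨hM, hz.1⟩
    · right
      intro h2
      rcases hz.2 with h3 | h3
      · exact (h2 hM).1 h3
      · exact (h2 hM).2 h3
  have hWP : ∀ z ∈ U, z ∈ P.Phase → ¬ Rch P i (lnz P z) ∧ ¬ Rch P i (rv (lnz P z)) := by
    intro z hz hzP
    have h1 : z ∉ W := fun hzW => (mu_open P hWo ⟨z, hzW, hzP⟩).ne' hW0
    constructor
    · intro h2
      apply h1
      rw [hW]
      exact ⟨hz, Or.inl h2⟩
    · intro h2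
      apply h1
      rw [hW]
      exact ⟨hz, Or.inr h2⟩
  obtain ⟨⟨k, θ₀, s₀⟩, hzU, hzP⟩ := hne
  have hmk : Continuous (fun x : ℝ × ℝ => ((k, x) : Fin n × ℝ × ℝ)) := continuous_const.prodMk continuous_id
  obtain ⟨A, hA⟩ : ∃ A : Set (ℝ × ℝ), A = {x | (k, x) ∈ U} ∩ Ioo 0 Real.pi ×ˢ Ioo 0 (P.len k) := ⟨_, rfl⟩
  have hAo : IsOpen A := by
    rw [hA]
    exact (hU.preimage hmk).inter (isOpen_Ioo.prod isOpen_Ioo)
  have hA0 : (θ₀, s₀) ∈ A := by
    rw [hA]
    exact ⟨hzU, hzP⟩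
  obtain ⟨δ, hδ, hball⟩ := Metric.isOpen_iff.1 hAo _ hA0
  have hbox : ∀ θ s : ℝ, |θ - θ₀| < δ → |s - s₀| < δ → (θ, s) ∈ A := by
    intro θ s h1 h2
    apply hball
    rw [Metric.mem_ball, Prod.dist_eq, max_lt_iff, Real.dist_eq, Real.dist_eq]
    exact ⟨h1, h2⟩
  have hs1 := hbox θ₀ (s₀ - δ / 2) (by rw [sub_self, abs_zero]; exact hδ) (by
    rw [abs_lt]
    constructor <;> linarith)
  have hs2 := hbox θ₀ (s₀ + δ / 2) (by rw [sub_self, abs_zero]; exact hδ) (by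
    rw [abs_lt]
    constructor <;> linarith)
  rw [hA] at hs1 hs2
  refine ⟨k, Complex.arg (P.dir k) + θ₀ - δ, Complex.arg (P.dir k) + θ₀ + δ, s₀ - δ / 2, s₀ + δ / 2,
    by linarith, by linarith, hs1.2.2.1.le, hs2.2.2.2.le, fun α hα s hs => ?_⟩
  have hz := hbox (α - Complex.arg (P.dir k)) s (by
    rw [abs_lt]
    constructor <;> linarith [hα.1, hα.2]) (by
    rw [abs_lt]
    constructor <;> linarith [hs.1, hs.2])
  rw [hA] at hz
  have hzP : (k, α - Complex.arg (P.dir k), s) ∈ P.Phase := hz.2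
  have h1 := lnz_En P hzP
  have h2 := hWP _ hz.1 hzP
  rw [lnz_mk] at h1 h2
  exact ⟨h1, h2⟩

end Pool.Agent.GRM
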