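import Pool.Agent.GRM.Den1
import Pool.Agent.GRM.Den2
import Pool.Agent.GRM.Opn

/-! GRM-Den3: density zero at a vertex (imports Den1, Den2, Opn).

PLAN.  `B₁ = {(θ, s) | ¬ Rch i (lnz (k+1, θ, s))}` and `B₂ = {(θ, s) | ¬ Rch i (lnz (k, θ, len k - s))}` are closed (`isOpen_Rch`, `continuous_lnz`), hence measurable.  They satisfy the
hypothesis of `den_lim`: `B₁`: `lnz_start` and `den_neg`: `s * sin ψ ∈ Ioo 0 w` for `0 < s < w` (`sin ψ ≤ 1`); `B₂`: `lnz_end` and `den_pos` with `χ = π - θ` (reflection of `θ`).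
For `0 < ρ < min ρ₀ (len k) (len (k+1))` (`near_sides`): the set `{z ∈ Phase | z ∉ M, ‖pos z - V (k+1)‖ < ρ}` is a.e. contained in
`{z | z.1 = k + 1, z.2.2 < ρ, z.2 ∈ B₁} ∪ {z | z.1 = k, len k - z.2.2 < ρ, (z.2.1, len k - z.2.2) ∈ B₂}`, whose `mu` is (by `mu_apply`, `nu_apply`, and the reflection `s ↦ len k - s`)
at most the sum of the two integrals of `den_lim`.  Squeeze (`tendsto_of_tendsto_of_tendsto_of_le_of_le'`, eventually in `𝓝[>] 0`). -/

namespace Pool.Agent.GRM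

open Bil62 Bil62.ConvexPolygon MeasureTheory Set Filter Topology

variable {n : ℕ} [NeZero n] (P : ConvexPolygon n)

private theorem slice_fst (j : Fin n) {A : Set (ℝ × ℝ)} (hA : MeasurableSet A) :
    P.mu {z | z.1 = j ∧ z.2 ∈ A} = P.nu j A := by
  have hm : MeasurableSet {z : Fin n × ℝ × ℝ | z.1 = j ∧ z.2 ∈ A} :=
    (measurable_fst (measurableSet_singleton j)).inter (measurable_snd hA)
  rw [P.mu_apply hm, Finset.sum_eq_single j]
  · congr 1
    ext x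
    simp
  · intro l _ hl
    have e : {x : ℝ × ℝ | (l, x) ∈ {z : Fin n × ℝ × ℝ | z.1 = j ∧ z.2 ∈ A}} = ∅ := by
      ext x
      simp [hl]
    rw [e, measure_empty]
  · intro hj
    exact absurd (Finset.mem_univ j) hj

private theorem bound_start (j : Fin n) {B : Set (ℝ × ℝ)} (hB : MeasurableSet B) (ρ : ℝ) :
    P.mu {z | z.1 = j ∧ z.2 ∈ {x : ℝ × ℝ | x.2 < ρ ∧ x ∈ B}} ≤
      ∫⁻ θ in Ioo 0 Real.pi, ENNReal.ofReal (Real.sin θ) * volume {s | s ∈ Ioo 0 ρ ∧ (θ, s) ∈ B} := by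
  have hA : MeasurableSet {x : ℝ × ℝ | x.2 < ρ ∧ x ∈ B} :=
    (measurableSet_lt measurable_snd measurable_const).inter hB
  rw [slice_fst P j hA, P.nu_apply j hA, lintegral_indicator measurableSet_Ioo]
  refine lintegral_mono fun θ => ?_
  refine mul_le_mul_right (measure_mono ?_) _
  rintro s ⟨h1, h2⟩
  have h2' : s < ρ ∧ (θ, s) ∈ B := h2
  exact ⟨⟨h1.1, h2'.1⟩, h2'.2⟩

private theorem bound_end (j : Fin n) {B : Set (ℝ × ℝ)} (hB : MeasurableSet B) (ρ : ℝ) :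
    P.mu {z | z.1 = j ∧ z.2 ∈ {x : ℝ × ℝ | P.len j - x.2 < ρ ∧ (x.1, P.len j - x.2) ∈ B}} ≤
      ∫⁻ θ in Ioo 0 Real.pi, ENNReal.ofReal (Real.sin θ) * volume {s | s ∈ Ioo 0 ρ ∧ (θ, s) ∈ B} := by
  have hr : Measurable fun x : ℝ × ℝ => (x.1, P.len j - x.2) :=
    measurable_fst.prodMk (measurable_const.sub measurable_snd)
  have hA : MeasurableSet {x : ℝ × ℝ | P.len j - x.2 < ρ ∧ (x.1, P.len j - x.2) ∈ B} :=
    (measurableSet_lt (measurable_const.sub measurable_snd) measurable_const).inter (hr hB)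
  rw [slice_fst P j hA, P.nu_apply j hA, lintegral_indicator measurableSet_Ioo]
  refine lintegral_mono fun θ => ?_
  have hm : MeasurableSet {s : ℝ | s ∈ Ioo 0 ρ ∧ (θ, s) ∈ B} :=
    measurableSet_Ioo.inter (measurable_prodMk_left hB)
  have e := (Measure.measurePreserving_sub_left (volume : Measure ℝ) (P.len j)).measure_preimage
    hm.nullMeasurableSet
  show _ ≤ ENNReal.ofReal (Real.sin θ) * volume {s | s ∈ Ioo 0 ρ ∧ (θ, s) ∈ B}
  rw [← e]
  refine mul_le_mul_right (measure_mono ?_) _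
  rintro s ⟨h1, h2⟩
  have h2' : P.len j - s < ρ ∧ (θ, P.len j - s) ∈ B := h2
  exact ⟨⟨by linarith [h1.2], h2'.1⟩, h2'.2⟩

theorem den {i k : Fin n} (hf : Full P i k) {M : Set (Fin n × ℝ × ℝ)} (hM : MeasurableSet M)
    (h : ∀ᵐ z ∂P.mu, z ∉ M → ¬ Rch P i (lnz P z)) :
    Tendsto (fun ρ : ℝ => P.mu {z | z ∈ P.Phase ∧ z ∉ M ∧ ‖P.pos z - P.V (k + 1)‖ < ρ} /
      ENNReal.ofReal ρ) (𝓝[>] 0) (𝓝 0) := by
  have hcl : IsClosed {z | ¬ Rch P i (lnz P z)} :=
    ((isOpen_Rch P i).preimage (continuous_lnz P)).isClosed_compl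
  have hB1 : MeasurableSet {x : ℝ × ℝ | ¬ Rch P i (lnz P (k + 1, x))} :=
    ConvexPolygon.measurable_mk (k + 1) hcl.measurableSet
  have hr : Measurable fun x : ℝ × ℝ => (x.1, P.len k - x.2) :=
    measurable_fst.prodMk (measurable_const.sub measurable_snd)
  have hB2 : MeasurableSet {x : ℝ × ℝ | ¬ Rch P i (lnz P (k, x.1, P.len k - x.2))} :=
    hr (ConvexPolygon.measurable_mk k hcl.measurableSet)
  have l1 := den_lim hB1 (by
    filter_upwards [den_neg P hf] with θ hθ hθ1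
    obtain ⟨w, hw, hw1⟩ := hθ hθ1
    refine ⟨w, hw, fun s hs hn => hn ?_⟩
    have hsin := Real.sin_pos_of_pos_of_lt_pi hθ1.1 hθ1.2
    rw [lnz_start]
    refine hw1 _ ⟨mul_pos hs.1 hsin, ?_⟩
    calc s * Real.sin θ ≤ s * 1 := mul_le_mul_of_nonneg_left (Real.sin_le_one θ) hs.1.le
      _ < w := by rw [mul_one]; exact hs.2)
  have l2 := den_lim hB2 (by
    have hp := (Measure.measurePreserving_sub_left (volume : Measure ℝ) Real.pi).quasiMeasurePreserving.ae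
      (den_pos P hf)
    filter_upwards [hp] with θ hθ hθ1
    obtain ⟨w, hw, hw1⟩ := hθ ⟨by linarith [hθ1.2], by linarith [hθ1.1]⟩
    refine ⟨w, hw, fun s hs hn => hn ?_⟩
    have hsin := Real.sin_pos_of_pos_of_lt_pi hθ1.1 hθ1.2
    show Rch P i (lnz P (k, θ, P.len k - s))
    rw [lnz_end]
    refine hw1 _ ⟨mul_pos hs.1 hsin, ?_⟩
    calc s * Real.sin θ ≤ s * 1 := mul_le_mul_of_nonneg_left (Real.sin_le_one θ) hs.1.le
      _ < w := by rw [mul_one]; exact hs.2)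
  have l3 := l1.add l2
  rw [add_zero] at l3
  obtain ⟨ρ₀, hρ₀, hnear⟩ := near_sides P k
  refine tendsto_of_tendsto_of_tendsto_of_le_of_le' tendsto_const_nhds l3
    (Eventually.of_forall fun _ => zero_le) ?_
  filter_upwards [Ioo_mem_nhdsGT hρ₀] with ρ hρ
  rw [ENNReal.div_add_div_same]
  refine ENNReal.div_le_div_right ?_ _
  refine le_trans ?_ (add_le_add (bound_start P (k + 1) hB1 ρ) (bound_end P k hB2 ρ))
  refine le_trans ?_ (measure_union_le _ _)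
  refine measure_mono_ae ?_
  filter_upwards [h] with z hz hz1
  obtain ⟨g1, g2, g3⟩ : z ∈ P.Phase ∧ z ∉ M ∧ ‖P.pos z - P.V (k + 1)‖ < ρ := hz1
  have hz2 := hz g2
  obtain ⟨j, θ, s⟩ := z
  rcases hnear _ g1 (g3.trans hρ.2) with ⟨e1, e2⟩ | ⟨e1, e2⟩
  · left
    simp only at e1 e2
    subst e1
    refine ⟨rfl, ?_, hz2⟩
    show s < ρ
    rw [← e2]
    exact g3
  · right
    simp only at e1 e2
    subst e1
    refine ⟨rfl, ?_, ?_⟩
    · show P.len j - s < ρ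
      rw [← e2]
      exact g3
    · show ¬ Rch P i (lnz P (j, θ, P.len j - (P.len j - s)))
      rw [sub_sub_cancel]
      exact hz2

end Pool.Agent.GRM
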