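import Pool.Agent.GRM.RchA

/-! GRM-Det: backward determinism (imports Bas1, RchA).

PLAN.
* `det`: a line `Tw ω x` with `Wd ω x` has the entry side `l` = last letter of `ω` (`En_T`); `x` has no entry side.  Induction on `ω` from the right
  (`List.reverseRecOn` or `List.eq_nil_or_concat`), generalizing `ω'`: if `ω = ω₁ ++ [l]`, then `En l (Tw ω x)`; `ω' = []` is impossible
  (`Tw ω' x' = x'` has no entry side); `ω' = ω₁' ++ [l']`: `l = l'` (`En_unique`) and `Tw ω₁ x = T l (Tw ω x) = Tw ω₁' x'` (`T_T`).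
* `det2`: wlog `d ≤ d'` (symmetric).  If `d < d'`, then `Tw ω x = sh (ε * (d' - d)) (Tw ω' x')`, so `Rch i (rv (Tw ω x))` by the hypothesis at
  `t = d' - d`; by `Rch_rv_Tw`: `Rch i (rv x)`; but `rv x` has no exit side (`Ex_rv`), `no_Rch`: contradiction.  So `d = d'`, the lines are equal: `det`. -/

namespace Pool.Agent.GRM

open Bil62 Bil62.ConvexPolygon MeasureTheory Set

variable {n : ℕ} [NeZero n] (P : ConvexPolygon n)

private theorem snoc_En {ω : List (Fin n)} {l : Fin n} {x : ℂ × ℝ} (h : Wd P (ω ++ [l]) x) :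
    Wd P ω x ∧ Tw P (ω ++ [l]) x = T P l (Tw P ω x) ∧ En P l (Tw P (ω ++ [l]) x) := by
  rw [Wd_append] at h
  have e : Tw P (ω ++ [l]) x = T P l (Tw P ω x) := by
    rw [Tw_append]
    rfl
  refine ⟨h.1, e, ?_⟩
  rw [e]
  exact (En_T P).2 h.2.1

theorem det {ω ω' : List (Fin n)} {x x' : ℂ × ℝ} (hx : ‖x.1‖ = 1) (hx' : ‖x'.1‖ = 1)
    (h0 : ∀ l, ¬ En P l x) (h0' : ∀ l, ¬ En P l x') (h : Wd P ω x) (h' : Wd P ω' x')
    (he : Tw P ω x = Tw P ω' x') : ω = ω' ∧ x = x' := by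
  induction ω using List.reverseRecOn generalizing ω' with
  | nil =>
    rcases List.eq_nil_or_concat ω' with rfl | ⟨ω₁', l', rfl⟩
    · exact ⟨rfl, he⟩
    · exfalso
      rw [List.concat_eq_append] at h' he
      have h2 := (snoc_En P h').2.2
      rw [← he] at h2
      exact h0 l' h2
  | append_singleton ω₁ l ih =>
    obtain ⟨a1, a2, a3⟩ := snoc_En P h
    rcases List.eq_nil_or_concat ω' with rfl | ⟨ω₁', l', rfl⟩
    · exfalso
      rw [he] at a3
      exact h0' l a3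
    · rw [List.concat_eq_append] at h' he ⊢
      obtain ⟨b1, b2, b3⟩ := snoc_En P h'
      rw [← he] at b3
      have hl : l = l' := En_unique P (by rw [norm_Tw]; exact hx) a3 b3
      subst hl
      have e : Tw P ω₁ x = Tw P ω₁' x' := by
        have := congrArg (T P l) he
        rw [a2, b2, T_T, T_T] at this
        exact this
      obtain ⟨c1, c2⟩ := ih a1 b1 e
      exact ⟨by rw [c1], c2⟩

private theorem det2_lt {i : Fin n} {ω ω' : List (Fin n)} {x x' : ℂ × ℝ} (hx : ‖x.1‖ = 1)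
    (h0 : ∀ l, ¬ En P l x) (hn : ¬ Rch P i x) (h : Wd P ω x) {ε d d' : ℝ} (hd : 0 < d)
    (hr' : ∀ t ∈ Ioc 0 d', Rch P i (rv (sh (ε * t) (Tw P ω' x'))))
    (he : sh (ε * d) (Tw P ω x) = sh (ε * d') (Tw P ω' x')) : ¬ d < d' := by
  intro hlt
  have e : Tw P ω x = sh (ε * (d' - d)) (Tw P ω' x') := by
    have h1 := congrArg (sh (-(ε * d))) he
    rw [sh_sh, sh_sh] at h1
    have h2 : sh (-(ε * d) + ε * d) (Tw P ω x) = Tw P ω x := by
      unfold sh
      ext1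
      · rfl
      · simp only
        ring
    rw [h2] at h1
    rw [h1]
    congr 1
    ring
  have h3 := hr' (d' - d) ⟨by linarith, by linarith⟩
  rw [← e, Rch_rv_Tw P hx hn h] at h3
  exact no_Rch P (fun l hl => h0 l ((Ex_rv P).1 hl)) h3

theorem det2 {i : Fin n} {ω ω' : List (Fin n)} {x x' : ℂ × ℝ} (hx : ‖x.1‖ = 1) (hx' : ‖x'.1‖ = 1)
    (h0 : ∀ l, ¬ En P l x) (h0' : ∀ l, ¬ En P l x') (hn : ¬ Rch P i x) (hn' : ¬ Rch P i x')
    (h : Wd P ω x) (h' : Wd P ω' x') {ε d d' : ℝ} (hd : 0 < d) (hd' : 0 < d')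
    (hr : ∀ t ∈ Ioc 0 d, Rch P i (rv (sh (ε * t) (Tw P ω x))))
    (hr' : ∀ t ∈ Ioc 0 d', Rch P i (rv (sh (ε * t) (Tw P ω' x'))))
    (he : sh (ε * d) (Tw P ω x) = sh (ε * d') (Tw P ω' x')) : ω = ω' ∧ x = x' ∧ d = d' := by
  have a1 := det2_lt P hx h0 hn h hd hr' he
  have a2 := det2_lt P hx' h0' hn' h' hd' hr he.symm
  have hdd : d = d' := le_antisymm (not_lt.1 a2) (not_lt.1 a1)
  subst hdd
  have e : Tw P ω x = Tw P ω' x' := by
    unfold sh at he
    rw [Prod.mk.injEq] at he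
    ext1
    · exact he.1
    · linarith [he.2]
  obtain ⟨b1, b2⟩ := det P hx hx' h0 h0' h h' e
  exact ⟨b1, b2, rfl⟩

end Pool.Agent.GRM
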