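import Pool.Agent.GRM.Fold

/-! GRM-Erg: irrational rotation of the double cone (imports Fold; otherwise Mathlib).

PLAN.  `O' = {ψ | fold γ ψ ∈ O}` is measurable and `2γ`-periodic.  Claim: for a.e. `ψ`: `ψ + π ∈ O' → ψ ∈ O'`.  By `fold_form`, `ψ = ± φ + 2γ m` with `φ = fold γ ψ`;
`fold γ (ψ + π) = fold γ (π + φ)` or `fold γ (π - φ)` (`fold_add`); the hypothesis at `φ = fold γ ψ` holds for a.e. `ψ` (`fold_ae`), and `φ ∈ (0, γ)` for a.e. `ψ`
(`fold_mem`, `ae_ne_mul`).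
Circle: `p = 2γ`, `Fact (0 < p)`, `C = AddCircle p`, `S = {x : C | the representative of x in Ioc 0 p lies in O'}` or `S` defined by lifting the periodic set (`O'` is a union of
fibres: `S = (↑) '' O'`, `(↑) ⁻¹' S = O'`; `QuotientAddGroup`/`AddCircle.measurePreserving_mk`, `AddCircle.measurableEquivIoc`).  The rotation by the class of `π` is ergodic:
`AddCircle.ergodic_add_left` (file `Mathlib/Dynamics/Ergodic/AddCircleAdd.lean`): iff `addOrderOf (π : C) = 0`; it is, as `m π = 2γ m'` contradicts the irrationality of `γ / π`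
(or via `AddCircle.denseRange_zsmul_coe_iff`).  `Ergodic.ae_empty_or_univ_of_preimage_ae_le` (finite measure): `S` is null or conull, so `O'` is null or conull in `Ioc 0 p`,
and `O' ∩ Ioo 0 γ = O`, `volume O ≠ 0`: conull, hence `Ioo 0 γ \ O` is null. -/

namespace Pool.Agent.GRM

open MeasureTheory Set

private theorem order_zero {γ : ℝ} (hγ : 0 < γ) (hirr : Irrational (γ / Real.pi)) :
    addOrderOf ((Real.pi : ℝ) : AddCircle (2 * γ)) = 0 := by
  rw [addOrderOf_eq_zero_iff']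
  intro m hm h0
  rw [← AddCircle.coe_nsmul, AddCircle.coe_eq_zero_iff] at h0
  obtain ⟨k, hk⟩ := h0
  have hk' : (k : ℝ) * (2 * γ) = m * Real.pi := by
    rw [zsmul_eq_mul, nsmul_eq_mul] at hk
    exact hk
  have hm' : (0 : ℝ) < m := by exact_mod_cast hm
  have hpi := Real.pi_pos
  have hk0 : (k : ℝ) ≠ 0 := by
    intro h
    rw [h, zero_mul] at hk'
    have : 0 < (m : ℝ) * Real.pi := mul_pos hm' hpi
    linarith
  apply hirr
  refine ⟨(m : ℚ) / (2 * k), ?_⟩
  push_cast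
  rw [div_eq_div_iff (by positivity) hpi.ne']
  linarith

private theorem ae_step {γ : ℝ} (hγ : 0 < γ) {O : Set ℝ}
    (h : ∀ᵐ φ : ℝ, φ ∈ Ioo 0 γ → (fold γ (Real.pi - φ) ∈ O ∨ fold γ (Real.pi + φ) ∈ O) → φ ∈ O) :
    ∀ᵐ ψ : ℝ, fold γ (Real.pi + ψ) ∈ O → fold γ ψ ∈ O := by
  have h1 := fold_ae hγ h
  have h2 := ae_ne_mul hγ 0
  filter_upwards [h1, h2] with ψ hψ hne hin
  have hm : fold γ ψ ∈ Ioo 0 γ := fold_mem hγ (by
    intro m hm
    exact hne m (by rw [add_zero, hm]))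
  apply hψ hm
  obtain ⟨m, hm1 | hm1⟩ := fold_form hγ ψ
  · right
    have : Real.pi + ψ = Real.pi + fold γ ψ + 2 * γ * m := by linarith
    rw [this, fold_add hγ] at hin
    exact hin
  · left
    have : Real.pi + ψ = Real.pi - fold γ ψ + 2 * γ * m := by linarith
    rw [this, fold_add hγ] at hin
    exact hin

theorem erg {γ : ℝ} (hγ : 0 < γ) (hirr : Irrational (γ / Real.pi)) {O : Set ℝ} (hO : MeasurableSet O)
    (hsub : O ⊆ Ioo 0 γ)
    (h : ∀ᵐ φ : ℝ, φ ∈ Ioo 0 γ → (fold γ (Real.pi - φ) ∈ O ∨ fold γ (Real.pi + φ) ∈ O) → φ ∈ O)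
    (hpos : volume O ≠ 0) : ∀ᵐ φ : ℝ, φ ∈ Ioo 0 γ → φ ∈ O := by
  have hp : 0 < 2 * γ := by linarith
  haveI : Fact (0 < 2 * γ) := ⟨hp⟩
  have hOm : MeasurableSet {ψ : ℝ | fold γ ψ ∈ O} := measurable_fold γ hO
  set S : Set (AddCircle (2 * γ)) :=
    {x | ((AddCircle.measurableEquivIoc (2 * γ) 0 x : Ioc (0 : ℝ) (0 + 2 * γ)) : ℝ) ∈
      {ψ : ℝ | fold γ ψ ∈ O}} with hS
  have hSm : MeasurableSet S :=
    (measurable_subtype_coe.comp (AddCircle.measurableEquivIoc (2 * γ) 0).measurable) hOm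
  have hmk : ∀ ψ : ℝ, ((ψ : ℝ) : AddCircle (2 * γ)) ∈ S ↔ fold γ ψ ∈ O := by
    intro ψ
    have h1 : ((AddCircle.measurableEquivIoc (2 * γ) 0 (ψ : AddCircle (2 * γ)) :
        Ioc (0 : ℝ) (0 + 2 * γ)) : ℝ) = toIocMod hp 0 ψ := rfl
    rw [hS, mem_setOf_eq, mem_setOf_eq, h1]
    have h2 : toIocMod hp 0 ψ = ψ + 2 * γ * ((-toIocDiv hp 0 ψ : ℤ) : ℝ) := by
      rw [toIocMod, zsmul_eq_mul]
      push_cast
      ring
    rw [h2, fold_add hγ]
  have hstep := ae_step hγ h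
  have herg : Ergodic (((Real.pi : ℝ) : AddCircle (2 * γ)) + ·) := 
    AddCircle.ergodic_add_left.mpr (order_zero hγ hirr)
  have hmp := AddCircle.measurePreserving_mk (2 * γ) 0
  have hle : (fun x => ((Real.pi : ℝ) : AddCircle (2 * γ)) + x) ⁻¹' S ≤ᵐ[volume] S := by
    have hset : MeasurableSet {x : AddCircle (2 * γ) |
        ((Real.pi : ℝ) : AddCircle (2 * γ)) + x ∈ S → x ∈ S} := by
      have ha : MeasurableSet ((fun x => ((Real.pi : ℝ) : AddCircle (2 * γ)) + x) ⁻¹' S) :=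
        herg.measurable hSm
      have : {x : AddCircle (2 * γ) | ((Real.pi : ℝ) : AddCircle (2 * γ)) + x ∈ S → x ∈ S} =
          ((fun x => ((Real.pi : ℝ) : AddCircle (2 * γ)) + x) ⁻¹' S)ᶜ ∪ S := by
        ext x
        simp only [mem_setOf_eq, mem_union, mem_compl_iff, mem_preimage]
        tauto
      rw [this]
      exact ha.compl.union hSm
    have hae : ∀ᵐ x : AddCircle (2 * γ), ((Real.pi : ℝ) : AddCircle (2 * γ)) + x ∈ S → x ∈ S := by
      rw [← hmp.map_eq, ae_map_iff hmp.measurable.aemeasurable hset]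
      refine ae_restrict_of_ae ?_
      filter_upwards [hstep] with ψ hψ
      intro hin
      rw [hmk ψ]
      apply hψ
      rw [← hmk]
      exact hin
    exact hae
  rcases herg.ae_empty_or_univ_of_preimage_ae_le hSm.nullMeasurableSet hle with he | hu
  · exfalso
    apply hpos
    have h1 : ∀ᵐ x : AddCircle (2 * γ), x ∉ S := by
      filter_upwards [he] with x hx hxS
      have : (∅ : Set (AddCircle (2 * γ))) x := by rw [← hx]; exact hxS
      exact this
    have h2 := hmp.quasiMeasurePreserving.ae h1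
    rw [ae_restrict_iff' measurableSet_Ioc] at h2
    have h3 : ∀ᵐ ψ : ℝ, ψ ∉ O := by
      filter_upwards [h2] with ψ hψ hψO
      have hI := hsub hψO
      refine hψ ⟨hI.1, by linarith [hI.2]⟩ ?_
      rw [hmk, fold_of_mem ⟨hI.1.le, hI.2.le⟩ hγ]
      exact hψO
    have h4 := ae_iff.mp h3
    simpa using h4
  · have h1 : ∀ᵐ x : AddCircle (2 * γ), x ∈ S := by
      filter_upwards [hu] with x hx
      have : S x := by rw [hx]; exact mem_univ x
      exact this
    have h2 := hmp.quasiMeasurePreserving.ae h1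
    rw [ae_restrict_iff' measurableSet_Ioc] at h2
    filter_upwards [h2] with ψ hψ hI
    have := hψ ⟨hI.1, by linarith [hI.2]⟩
    rwa [hmk, fold_of_mem ⟨hI.1.le, hI.2.le⟩ hγ] at this

end Pool.Agent.GRM
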