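import Pool.Agent.GRM.Bas2

/-! GRM-Fan1: a fan of regular lines has a common itinerary (imports Bas2).

PLAN.  `x α = (uv α, cross (uv α) X)` is continuous in `α`.  For `m : ℕ` the open sets `{α | Wd ω (x α)}`, `|ω| = m`, are pairwise disjoint (`Wd_unique`) and
cover `Ioo a b` (`Reg`); `Ioo a b` is preconnected, so one word `ω m` works for all `α` (e.g. `IsPreconnected.subset_or_subset`-like lemmas, or:
`α ↦ the word` is locally constant; take `ω m` = the word of a fixed `α₀` and show that `{α ∈ Ioo a b | Wd ω (x α)}` is clopen in `Ioo a b`).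
The words are prefixes of each other (`Wd_append`, `Wd_unique`): let `κ m` = last letter of `ω (m + 1)`; `ω (m + 1) = ω m ++ [κ m]`.  So with
`y α m = Tw (ω m) (x α)`: `Ex (κ m) (y α m)`, `y α (m+1) = T (κ m) (y α m)`. -/

namespace Pool.Agent.GRM

open Bil62 Bil62.ConvexPolygon MeasureTheory Set

variable {n : ℕ} [NeZero n] (P : ConvexPolygon n)

theorem fan1 {a b : ℝ} (hab : a < b) (X : ℂ)
    (h : ∀ α ∈ Ioo a b, Reg P (uv α, cross (uv α) X)) :
    ∃ (W : ℕ → List (Fin n)) (κ : ℕ → Fin n), W 0 = [] ∧ (∀ m, W (m + 1) = W m ++ [κ m]) ∧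
      ∀ α ∈ Ioo a b, ∀ m, Wd P (W m) (uv α, cross (uv α) X) ∧
        Ex P (κ m) (Tw P (W m) (uv α, cross (uv α) X)) := by
  have hc : Continuous fun α : ℝ => ((uv α, cross (uv α) X) : ℂ × ℝ) := by
    refine continuous_uv.prodMk ?_
    unfold cross
    exact ((Complex.continuous_re.comp continuous_uv).mul continuous_const).sub
      ((Complex.continuous_im.comp continuous_uv).mul continuous_const)
  have h0 : (a + b) / 2 ∈ Ioo a b := ⟨by linarith, by linarith⟩
  have key : ∀ m : ℕ, ∃ ω : List (Fin n), ω.length = m ∧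
      ∀ α ∈ Ioo a b, Wd P ω (uv α, cross (uv α) X) := by
    intro m
    obtain ⟨ω, hω, hW⟩ := h _ h0 m
    refine ⟨ω, hω, ?_⟩
    have hu : IsOpen {α : ℝ | Wd P ω (uv α, cross (uv α) X)} := (isOpen_Wd P ω).preimage hc
    have hv : IsOpen (⋃ (ω' : List (Fin n)) (_ : ω'.length = m ∧ ω' ≠ ω),
        {α : ℝ | Wd P ω' (uv α, cross (uv α) X)}) :=
      isOpen_iUnion fun ω' => isOpen_iUnion fun _ => (isOpen_Wd P ω').preimage hc
    have hd : Disjoint {α : ℝ | Wd P ω (uv α, cross (uv α) X)}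
        (⋃ (ω' : List (Fin n)) (_ : ω'.length = m ∧ ω' ≠ ω),
          {α : ℝ | Wd P ω' (uv α, cross (uv α) X)}) := by
      rw [Set.disjoint_left]
      intro α hα hα'
      rw [mem_iUnion₂] at hα'
      obtain ⟨ω', ⟨hl, hne⟩, hα'⟩ := hα'
      exact hne (Wd_unique P (norm_uv α) (hl.trans hω.symm) hα' hα)
    have hs : Ioo a b ⊆ {α : ℝ | Wd P ω (uv α, cross (uv α) X)} ∪
        (⋃ (ω' : List (Fin n)) (_ : ω'.length = m ∧ ω' ≠ ω),
          {α : ℝ | Wd P ω' (uv α, cross (uv α) X)}) := by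
      intro α hα
      obtain ⟨ω', hl, hW'⟩ := h α hα m
      by_cases he : ω' = ω
      · left
        rw [he] at hW'
        exact hW'
      · right
        rw [mem_iUnion₂]
        exact ⟨ω', ⟨hl, he⟩, hW'⟩
    exact isPreconnected_Ioo.subset_left_of_subset_union hu hv hd hs ⟨_, h0, hW⟩
  choose W hWl hW using key
  have hstep : ∀ m, ∃ k : Fin n, W (m + 1) = W m ++ [k] := by
    intro m
    have hne : W (m + 1) ≠ [] := by
      intro he
      have := hWl (m + 1)
      rw [he] at this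
      simp at this
    refine ⟨(W (m + 1)).getLast hne, ?_⟩
    have e := List.dropLast_append_getLast hne
    have h1 := hW (m + 1) _ h0
    rw [← e, Wd_append] at h1
    have h2 : (W (m + 1)).dropLast = W m := by
      refine Wd_unique P (norm_uv _) ?_ h1.1 (hW m _ h0)
      rw [List.length_dropLast, hWl, hWl]
      rfl
    rw [h2] at e
    exact e.symm
  choose κ hκ using hstep
  refine ⟨W, κ, List.length_eq_zero_iff.1 (hWl 0), hκ, fun α hα m => ?_⟩
  have h1 := hW (m + 1) α hα
  rw [hκ m, Wd_append] at h1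
  exact ⟨h1.1, h1.2.1⟩

end Pool.Agent.GRM
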