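import Pool.Agent.GRM.Bas2

/-! GRM-Foc: the virtual source of an orbit (imports Bas2).

The proofs use `cross_refl_rpt`, `rpt_pt`, `dot_refl` and the rule `g_along` for the signed distance to a side along a line;
`fo_before` is an induction on the word with `fo_step`. -/

namespace Pool.Agent.GRM

open Bil62 Bil62.ConvexPolygon MeasureTheory Set

variable {n : ℕ} [NeZero n] (P : ConvexPolygon n)

open scoped ComplexConjugate

private theorem g_xp {l : Fin n} {x : ℂ × ℝ} (h : Ex P l x) : P.g l (xp P l x) = 0 := by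
  obtain ⟨s, _, e⟩ := xp_side P h
  rw [e, P.g_pt_self]

private theorem rpt_xp {l : Fin n} {x : ℂ × ℝ} (h : Ex P l x) : P.rpt l (xp P l x) = xp P l x := by
  obtain ⟨s, _, e⟩ := xp_side P h
  rw [e, P.rpt_pt]

omit [NeZero n] in
private theorem norm_pos_line {u z w : ℂ} (hu : ‖u‖ = 1) (h : cross u z = cross u w)
    (hd : 0 < dot u (z - w)) : ‖z - w‖ = dot u (z - w) := by
  have h1 : cross u (z - w) = 0 := by rw [cross_sub_right, h, sub_self]
  have h2 := eq_smul_of_cross_eq_zero hu h1
  obtain ⟨t, ht⟩ : ∃ t, t = dot u (z - w) := ⟨_, rfl⟩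
  rw [← ht] at h2 hd ⊢
  rw [h2, norm_mul, hu, mul_one, Complex.norm_real, Real.norm_eq_abs, abs_of_pos hd]

theorem T_cross {l : Fin n} {x : ℂ × ℝ} {F : ℂ} (h : x.2 = cross x.1 F) :
    (T P l x).2 = cross (T P l x).1 (P.rpt l F) := by
  show cross (P.refl l x.1) (P.V l) + cross x.1 (P.V l) - x.2 = cross (P.refl l x.1) (P.rpt l F)
  rw [P.cross_refl_rpt, h]

theorem fo_cross (ω : List (Fin n)) {x : ℂ × ℝ} {F : ℂ} (h : x.2 = cross x.1 F) :
    (Tw P ω x).2 = cross (Tw P ω x).1 (fo P ω F) := by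
  induction ω generalizing x F with
  | nil => exact h
  | cons l ω ih => exact ih (T_cross P h)

theorem fo_append (ω ω' : List (Fin n)) (F : ℂ) : fo P (ω ++ ω') F = fo P ω' (fo P ω F) := by
  induction ω generalizing F with
  | nil => rfl
  | cons l ω ih => exact ih _

theorem g_rpt (l : Fin n) (F : ℂ) : P.g l (P.rpt l F) = - P.g l F := by
  have h1 : P.dir l ^ 2 * conj (P.dir l) = P.dir l := by
    have := P.dir_mul_conj l
    calc P.dir l ^ 2 * conj (P.dir l) = P.dir l * (P.dir l * conj (P.dir l)) := by ring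
      _ = P.dir l := by rw [this]; ring
  have h2 := cross_mul_left (P.dir l ^ 2) (conj (P.dir l)) (conj (F - P.V l)) (P.norm_dir_sq l)
  rw [h1, cross_conj] at h2
  unfold ConvexPolygon.g ConvexPolygon.rpt
  rw [add_sub_cancel_left]
  exact h2

/-- `F` is strictly before the exit point of the line `x` on the side `l` iff it is on the inner side of side `l` -/
theorem before {l : Fin n} {x : ℂ × ℝ} {F : ℂ} (hx : ‖x.1‖ = 1) (h : x.2 = cross x.1 F) (he : Ex P l x) :
    0 < P.g l F ↔ 0 < dot x.1 (xp P l x - F) := by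
  have h1 := g_along P hx h.symm (xp_line P he) l
  rw [g_xp P he] at h1
  have h2 : cross (P.dir l) x.1 < 0 := P.exit_cross he
  constructor
  · intro hg
    by_contra hd
    have := mul_nonneg_of_nonpos_of_nonpos (not_lt.1 hd) h2.le
    linarith
  · intro hd
    have := mul_neg_of_pos_of_neg hd h2
    linarith

theorem norm_before {l : Fin n} {x : ℂ × ℝ} {F : ℂ} (hx : ‖x.1‖ = 1) (h : x.2 = cross x.1 F)
    (he : Ex P l x) (hF : 0 < P.g l F) : ‖xp P l x - F‖ = dot x.1 (xp P l x - F) := by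
  have h1 := (before P hx h he).1 hF
  exact norm_pos_line hx (by rw [xp_line P he, h]) h1

theorem fo_step {l l' : Fin n} {x : ℂ × ℝ} {F : ℂ} (hx : ‖x.1‖ = 1) (h : x.2 = cross x.1 F)
    (he : Ex P l x) (hF : 0 < P.g l F) (he' : Ex P l' (T P l x)) :
    0 < P.g l' (P.rpt l F) ∧
      ‖xp P l' (T P l x) - P.rpt l F‖ = ‖xp P l x - F‖ + ‖xp P l' (T P l x) - xp P l x‖ := by
  have hy : ‖(T P l x).1‖ = 1 := by rw [norm_T]; exact hx
  have h1 : (T P l x).2 = cross (T P l x).1 (P.rpt l F) := T_cross P h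
  have hw : cross (T P l x).1 (xp P l x) = (T P l x).2 := by
    have := T_cross P (l := l) (xp_line P he).symm
    rw [rpt_xp P he] at this
    exact this.symm
  have hd1 : dot (T P l x).1 (xp P l x - P.rpt l F) = dot x.1 (xp P l x - F) := by
    have := P.dot_refl l x.1 (xp P l x) F
    rw [rpt_xp P he] at this
    exact this
  have hb := (before P hx h he).1 hF
  have hen : En P l (T P l x) := (En_T P).2 he
  have hne : l' ≠ l := Ex_ne_En P he' hen
  obtain ⟨s', hs', e'⟩ := xp_side P he'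
  have hg : 0 < P.g l (xp P l' (T P l x)) := by
    rw [e']
    exact P.g_pt_pos hne.symm hs'
  have hga := g_along P hy hw (xp_line P he') l
  rw [g_xp P he] at hga
  have hc : 0 < cross (P.dir l) (T P l x).1 := P.ent_cross hen
  have hd2 : 0 < dot (T P l x).1 (xp P l' (T P l x) - xp P l x) := by
    by_contra hd
    have := mul_nonpos_of_nonpos_of_nonneg (not_lt.1 hd) hc.le
    linarith
  have hsum : dot (T P l x).1 (xp P l' (T P l x) - P.rpt l F)
      = dot x.1 (xp P l x - F) + dot (T P l x).1 (xp P l' (T P l x) - xp P l x) := by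
    rw [← hd1, dot_sub_right, dot_sub_right, dot_sub_right]
    ring
  have hpos : 0 < P.g l' (P.rpt l F) := by
    apply (before P hy h1 he').2
    rw [hsum]
    linarith
  refine ⟨hpos, ?_⟩
  rw [norm_before P hy h1 he' hpos, norm_before P hx h he hF, hsum,
    norm_pos_line hy (by rw [xp_line P he', hw]) hd2]

/-- the virtual source stays strictly before the exit point -/
theorem fo_before (ω : List (Fin n)) {x : ℂ × ℝ} {F : ℂ} (hx : ‖x.1‖ = 1) (h : x.2 = cross x.1 F)
    (h0 : ∀ l, Ex P l x → 0 < P.g l F) (hω : Wd P ω x) :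
    ∀ l, Ex P l (Tw P ω x) → 0 < P.g l (fo P ω F) := by
  induction ω generalizing x F with
  | nil => exact h0
  | cons l ω ih =>
    obtain ⟨h1, h2⟩ := hω
    have hy : ‖(T P l x).1‖ = 1 := by rw [norm_T]; exact hx
    exact ih hy (T_cross P h) (fun l' he' => (fo_step P hx h h1 (h0 l h1) he').1) h2

/-- the virtual source is strictly behind the last side -/
theorem fo_last (ω : List (Fin n)) (l : Fin n) {x : ℂ × ℝ} {F : ℂ} (hx : ‖x.1‖ = 1)
    (h : x.2 = cross x.1 F) (h0 : ∀ l, Ex P l x → 0 < P.g l F) (hω : Wd P (ω ++ [l]) x) :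
    P.g l (fo P (ω ++ [l]) F) < 0 := by
  rw [Wd_append] at hω
  obtain ⟨h1, h2⟩ := hω
  have h3 : Ex P l (Tw P ω x) := h2.1
  have h4 := fo_before P ω hx h h0 h1 l h3
  rw [fo_append]
  show P.g l (P.rpt l (fo P ω F)) < 0
  rw [g_rpt]
  linarith

end Pool.Agent.GRM
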