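import Pool.Agent.GRM.Bas1
import Pool.Agent.GRM.Ang

/-! GRM-Len2: in the corner at `V (k + 1)` an orbit is reflected only finitely often (imports Bas1, Ang).

PLAN.  `γ = ang k`.  A line entering through side `k + 1` has direction `dir (k+1) * uv τ`, `τ ∈ (0, π)` (`ent_cross`: `sin τ > 0`; exists by `arg`);
a line entering through side `k` has direction `-(dir k) * uv (-τ)` with `τ ∈ (0, π)` (`cross (dir k) u = sin τ`).  In both cases call `τ` the angle.
* `corner_step`: let `x` enter through `k + 1` (resp. `k`) with angle `τ` and leave through `k` (resp. `k + 1`).  Then `T x` enters through that side with the angle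
  `τ - γ`; in particular `γ < τ`.  Proof: `refl k (dir (k+1) * uv τ) = dir k ^ 2 * conj (..)`, `dir k = -(dir (k+1) * uv γ)` (`dir_eq`), so it equals
  `-(dir k) * uv (-(τ - γ))`; the new angle `τ' ∈ (0, π)` is congruent to `τ - γ ∈ (-π, π)` modulo `2π`, hence equal.  Same computation for the other side.
* `corner`: induction: after `m` reflections `m γ < τ < π`.  Statement: if `κ` alternates between `k` and `k + 1` up to `N`, then `(N : ℝ) * γ ≤ π`. -/

namespace Pool.Agent.GRM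

open Bil62 Bil62.ConvexPolygon MeasureTheory Set

variable {n : ℕ} [NeZero n] (P : ConvexPolygon n)

open scoped ComplexConjugate

private lemma conj_uv (τ : ℝ) : conj (uv τ) = uv (-τ) := by
  unfold uv
  rw [← Complex.exp_conj]
  congr 1
  simp

private lemma exists_uv {d u : ℂ} (hd : ‖d‖ = 1) (hu : ‖u‖ = 1) (h : 0 < cross d u) :
    ∃ τ ∈ Ioo 0 Real.pi, u = d * uv τ := by
  have hd0 : d ≠ 0 := by
    intro h0
    rw [h0, norm_zero] at hd
    exact zero_ne_one hd
  have hn : ‖u / d‖ = 1 := by rw [norm_div, hu, hd, div_one]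
  have h1 : uv (Complex.arg (u / d)) = u / d := by
    have h2 := Complex.norm_mul_exp_arg_mul_I (u / d)
    rw [hn] at h2
    unfold uv
    simpa using h2
  have h2 : u = d * uv (Complex.arg (u / d)) := by
    rw [h1]
    field_simp
  have h3 : cross d u = Real.sin (Complex.arg (u / d)) := by
    have h4 : cross (d * 1) (d * uv (Complex.arg (u / d))) =
        cross 1 (uv (Complex.arg (u / d))) := cross_mul_left d 1 _ hd
    rw [mul_one, ← h2] at h4
    rw [h4]
    unfold cross uv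
    rw [Complex.exp_ofReal_mul_I_im]
    simp
  rw [h3] at h
  refine ⟨Complex.arg (u / d), ⟨?_, ?_⟩, h2⟩
  · by_contra hcon
    push Not at hcon
    have h5 := Real.sin_nonpos_of_nonpos_of_neg_pi_le hcon (Complex.neg_pi_lt_arg _).le
    linarith
  · refine lt_of_le_of_ne (Complex.arg_le_pi _) fun h5 => ?_
    rw [h5, Real.sin_pi] at h
    exact lt_irrefl _ h

private lemma lt_of_sin_neg {γ τ : ℝ} (hγ : γ ∈ Ioo 0 Real.pi) (hτ : τ ∈ Ioo 0 Real.pi)
    (h : Real.sin (γ - τ) < 0) : γ < τ := by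
  by_contra hcon
  push Not at hcon
  have h1 := Real.sin_nonneg_of_nonneg_of_le_pi (x := γ - τ) (by linarith)
    (by linarith [hγ.2, hτ.1])
  linarith

/-- one reflection, from the side `k + 1` to the side `k` -/
private lemma step1 (k : Fin n) {τ : ℝ} (hτ : τ ∈ Ioo 0 Real.pi) {x : ℂ × ℝ}
    (hx : x.1 = P.dir (k + 1) * uv τ) (he : Ex P k x) :
    ang P k < τ ∧ (T P k x).1 = -(P.dir k) * uv (-(τ - ang P k)) := by
  have h1 := P.exit_cross he
  rw [hx, cross_dir_self] at h1
  refine ⟨lt_of_sin_neg ⟨ang_pos P k, ang_lt P k⟩ hτ h1, ?_⟩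
  change P.refl k x.1 = _
  have h2 : P.refl k x.1 = P.dir k * P.dir k * conj x.1 := by
    unfold ConvexPolygon.refl
    ring
  have h3 : P.dir k * P.dir k = P.dir k * -(P.dir (k + 1) * uv (ang P k)) := by
    conv_lhs => rw [dir_eq P k]
    conv_rhs => rw [dir_eq P k]
  have h4 : uv (-(τ - ang P k)) = uv (ang P k) * uv (-τ) := by
    rw [← uv_add]
    congr 1
    ring
  rw [h2, hx, h3, map_mul, conj_uv, h4]
  have h5 := P.dir_mul_conj (k + 1)
  linear_combination (-(P.dir k) * uv (ang P k) * uv (-τ)) * h5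

/-- one reflection, from the side `k` to the side `k + 1` -/
private lemma step2 (k : Fin n) {τ : ℝ} (hτ : τ ∈ Ioo 0 Real.pi) {x : ℂ × ℝ}
    (hx : x.1 = -(P.dir k) * uv (-τ)) (he : Ex P (k + 1) x) :
    ang P k < τ ∧ (T P (k + 1) x).1 = P.dir (k + 1) * uv (τ - ang P k) := by
  have hx' : x.1 = P.dir (k + 1) * uv (ang P k - τ) := by
    rw [hx, sub_eq_add_neg, uv_add, dir_eq P k]
    ring
  have h1 := P.exit_cross he
  rw [hx', cross_dir_succ] at h1
  refine ⟨lt_of_sin_neg ⟨ang_pos P k, ang_lt P k⟩ hτ h1, ?_⟩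
  change P.refl (k + 1) x.1 = _
  have h2 : P.refl (k + 1) x.1 = P.dir (k + 1) * P.dir (k + 1) * conj x.1 := by
    unfold ConvexPolygon.refl
    ring
  rw [h2, hx', map_mul, conj_uv, neg_sub]
  have h5 := P.dir_mul_conj (k + 1)
  linear_combination (P.dir (k + 1) * uv (τ - ang P k)) * h5

private lemma orb_norm {κ : ℕ → Fin n} {y : ℕ → ℂ × ℝ} (h : Orb P κ y) (m : ℕ) :
    ‖(y m).1‖ = 1 := by
  induction m with
  | zero => exact h.1
  | succ m ih => rw [(h.2 m).2, norm_T, ih]

private lemma corner_aux {κ : ℕ → Fin n} {y : ℕ → ℂ × ℝ} (h : Orb P κ y) (k : Fin n) (m₀ N : ℕ)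
    (h1 : ∀ m, m₀ ≤ m → m ≤ m₀ + N → κ m = k ∨ κ m = k + 1)
    (h2 : ∀ m, m₀ ≤ m → m < m₀ + N → κ (m + 1) ≠ κ m) (j : ℕ) (hj : j ≤ N) :
    ∃ τ ∈ Ioo 0 Real.pi, τ + j * ang P k < Real.pi ∧
      (κ (m₀ + j) = k + 1 → (y (m₀ + j + 1)).1 = P.dir (k + 1) * uv τ) ∧
      (κ (m₀ + j) = k → (y (m₀ + j + 1)).1 = -(P.dir k) * uv (-τ)) := by
  have hne : k + 1 ≠ k := P.succ_ne k
  induction j with
  | zero =>
    have h3 : En P (κ m₀) (y (m₀ + 1)) := by
      rw [(h.2 m₀).2]
      exact (En_T P).2 (h.2 m₀).1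
    have h4 := P.ent_cross h3
    have h5 := orb_norm P h (m₀ + 1)
    rcases h1 m₀ le_rfl (by omega) with h6 | h6
    · rw [h6] at h4
      obtain ⟨σ, hσ, h7⟩ := exists_uv (P.norm_dir k) h5 h4
      refine ⟨Real.pi - σ, ⟨by linarith [hσ.2], by linarith [hσ.1]⟩, ?_, fun h8 => ?_,
        fun _ => ?_⟩
      · push_cast
        linarith [hσ.1]
      · exact absurd (h8.symm.trans h6) hne
      · change (y (m₀ + 1)).1 = _
        rw [h7]
        have h8 := uv_add_pi (σ - Real.pi)
        rw [sub_add_cancel] at h8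
        rw [h8, neg_sub]
        ring
    · rw [h6] at h4
      obtain ⟨σ, hσ, h7⟩ := exists_uv (P.norm_dir (k + 1)) h5 h4
      refine ⟨σ, hσ, ?_, fun _ => h7, fun h8 => absurd (h6.symm.trans h8) hne⟩
      push_cast
      linarith [hσ.2]
  | succ j ih =>
    obtain ⟨τ, hτ, h3, h4, h5⟩ := ih (by omega)
    have h6 := h2 (m₀ + j) (by omega) (by omega)
    obtain ⟨h7, h8⟩ := h.2 (m₀ + j + 1)
    have hγ := ang_pos P k
    rcases h1 (m₀ + j) (by omega) (by omega) with h9 | h9
    · have h10 : κ (m₀ + j + 1) = k + 1 := by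
        rcases h1 (m₀ + j + 1) (by omega) (by omega) with h11 | h11
        · exact absurd (h11.trans h9.symm) h6
        · exact h11
      rw [h10] at h7 h8
      obtain ⟨h12, h13⟩ := step2 P k hτ (h5 h9) h7
      refine ⟨τ - ang P k, ⟨by linarith, by linarith [hτ.2]⟩, ?_, fun _ => ?_, fun h14 => ?_⟩
      · push_cast
        linarith
      · change (y (m₀ + j + 1 + 1)).1 = _
        rw [h8, h13]
      · exact absurd (h10.symm.trans h14) hne
    · have h10 : κ (m₀ + j + 1) = k := by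
        rcases h1 (m₀ + j + 1) (by omega) (by omega) with h11 | h11
        · exact h11
        · exact absurd (h11.trans h9.symm) h6
      rw [h10] at h7 h8
      obtain ⟨h12, h13⟩ := step1 P k hτ (h4 h9) h7
      refine ⟨τ - ang P k, ⟨by linarith, by linarith [hτ.2]⟩, ?_, fun h14 => ?_, fun _ => ?_⟩
      · push_cast
        linarith
      · exact absurd (h14.symm.trans h10) hne
      · change (y (m₀ + j + 1 + 1)).1 = _
        rw [h8, h13]

theorem corner {κ : ℕ → Fin n} {y : ℕ → ℂ × ℝ} (h : Orb P κ y) (k : Fin n) (m₀ N : ℕ)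
    (h1 : ∀ m, m₀ ≤ m → m ≤ m₀ + N → κ m = k ∨ κ m = k + 1)
    (h2 : ∀ m, m₀ ≤ m → m < m₀ + N → κ (m + 1) ≠ κ m) : (N : ℝ) * ang P k ≤ Real.pi := by
  obtain ⟨τ, hτ, h3, -⟩ := corner_aux P h k m₀ N h1 h2 N le_rfl
  linarith [hτ.1]

end Pool.Agent.GRM
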