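import Pool.Agent.GRM.Len1
import Pool.Agent.GRM.Len2

/-! GRM-Len3: infinite orbits have infinite length (imports Len1, Len2).

PLAN.  Let `z m = xp (κ m) (y m) = pt (κ m) (s m)`, `s m ∈ (0, len)` (`xp_side`); `κ (m+1) ≠ κ m` (`y (m+1) = T (κ m) (y m)` enters through `κ m`, `En_T`, `Ex_ne_En`).
Let `c` be the minimum of the constants of `three` and `two`.  Claim: there is `N` such that for every `m₀` the sum of `‖z (m+1) - z m‖` over `m₀ ≤ m < m₀ + N` is at least `c`.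
Take `N` with `(N - 2) * ang k > π` for all `k`.  If `κ (m+2) ≠ κ m` for some `m` in the block: `three` (`κ m, κ (m+1), κ (m+2)` pairwise different).  Otherwise `κ` alternates between two
sides `l ≠ l'` in the block; if they are not neighbours: `two`; if `l' = l + 1` or `l = l' + 1`: contradiction to `corner`.
Then the sum up to `q * N` is at least `q * c`. -/

namespace Pool.Agent.GRM

open Bil62 Bil62.ConvexPolygon MeasureTheory Set

variable {n : ℕ} [NeZero n] (P : ConvexPolygon n)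

theorem orb_ne {κ : ℕ → Fin n} {y : ℕ → ℂ × ℝ} (h : Orb P κ y) (m : ℕ) : κ (m + 1) ≠ κ m := by
  have h1 : En P (κ m) (y (m + 1)) := by
    rw [(h.2 m).2]
    exact (En_T P).2 (h.2 m).1
  exact Ex_ne_En P (h.2 (m + 1)).1 h1

private theorem exists_N : ∃ N : ℕ, 1 ≤ N ∧ ∀ k : Fin n, Real.pi < (N : ℝ) * ang P k := by
  have h1 : ∀ k : Fin n, ∃ N : ℕ, Real.pi < (N : ℝ) * ang P k := by
    intro k
    obtain ⟨N, hN⟩ := exists_nat_gt (Real.pi / ang P k)
    refine ⟨N, ?_⟩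
    rwa [div_lt_iff₀ (ang_pos P k)] at hN
  choose f hf using h1
  refine ⟨(∑ k, f k) + 1, by omega, fun k => (hf k).trans_le ?_⟩
  have h2 : f k ≤ ∑ k, f k := Finset.single_le_sum (fun _ _ => Nat.zero_le _) (Finset.mem_univ k)
  have h3 : (f k : ℝ) ≤ (((∑ k, f k) + 1 : ℕ) : ℝ) := by
    exact_mod_cast h2.trans (Nat.le_succ _)
  exact mul_le_mul_of_nonneg_right h3 (ang_pos P k).le

private theorem block {κ : ℕ → Fin n} {y : ℕ → ℂ × ℝ} (h : Orb P κ y) {N : ℕ} (hN1 : 1 ≤ N)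
    (hN : ∀ k : Fin n, Real.pi < (N : ℝ) * ang P k) {c₃ c₂ : ℝ}
    (h3 : ∀ l₁ l₂ l₃ : Fin n, l₁ ≠ l₂ → l₂ ≠ l₃ → l₁ ≠ l₃ →
      ∀ s₁ ∈ Icc 0 (P.len l₁), ∀ s₂ ∈ Icc 0 (P.len l₂), ∀ s₃ ∈ Icc 0 (P.len l₃),
        c₃ ≤ ‖P.pt l₁ s₁ - P.pt l₂ s₂‖ + ‖P.pt l₂ s₂ - P.pt l₃ s₃‖)
    (h2 : ∀ l l' : Fin n, l ≠ l' → l + 1 ≠ l' → l' + 1 ≠ l →
      ∀ s ∈ Icc 0 (P.len l), ∀ s' ∈ Icc 0 (P.len l'), c₂ ≤ ‖P.pt l s - P.pt l' s'‖) (m₀ : ℕ) :
    min c₃ c₂ ≤ ∑ j ∈ Finset.range N,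
      ‖xp P (κ (m₀ + j + 1)) (y (m₀ + j + 1)) - xp P (κ (m₀ + j)) (y (m₀ + j))‖ := by
  have hs : ∀ m, ∃ s ∈ Ioo 0 (P.len (κ m)), xp P (κ m) (y m) = P.pt (κ m) s := fun m =>
    xp_side P (h.2 m).1
  choose s hs hz using hs
  have hs' : ∀ m, s m ∈ Icc 0 (P.len (κ m)) := fun m => Ioo_subset_Icc_self (hs m)
  simp only [hz]
  by_cases hA : ∀ m, m₀ ≤ m → m + 2 ≤ m₀ + N → κ (m + 2) = κ m
  · have hpar : ∀ j, j ≤ N → κ (m₀ + j) = if Even j then κ m₀ else κ (m₀ + 1) := by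
      intro j
      induction j using Nat.strong_induction_on with
      | _ j ih =>
        intro hj
        match j, ih, hj with
        | 0, _, _ => simp
        | 1, _, _ => simp
        | (j + 2), ih, hj =>
          have e := hA (m₀ + j) (by omega) (by omega)
          have e' := ih j (by omega) (by omega)
          change κ (m₀ + j + 2) = _
          rw [e, e']
          simp only [Nat.even_add, even_two, iff_true]
    have hmem : ∀ m, m₀ ≤ m → m ≤ m₀ + N → κ m = κ m₀ ∨ κ m = κ (m₀ + 1) := by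
      intro m h4 h5
      have h6 := hpar (m - m₀) (by omega)
      rw [show m₀ + (m - m₀) = m by omega] at h6
      rw [h6]
      split_ifs
      · exact Or.inl rfl
      · exact Or.inr rfl
    have hne : κ m₀ ≠ κ (m₀ + 1) := (orb_ne P h m₀).symm
    by_cases hB : κ m₀ + 1 = κ (m₀ + 1)
    · exfalso
      have h7 := corner P h (κ m₀) m₀ N (fun m h4 h5 => by
        rw [hB]
        exact hmem m h4 h5) (fun m _ _ => orb_ne P h m)
      exact absurd (hN (κ m₀)) (not_lt.2 h7)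
    · by_cases hC : κ (m₀ + 1) + 1 = κ m₀
      · exfalso
        have h7 := corner P h (κ (m₀ + 1)) m₀ N (fun m h4 h5 => by
          rw [hC]
          exact (hmem m h4 h5).symm) (fun m _ _ => orb_ne P h m)
        exact absurd (hN (κ (m₀ + 1))) (not_lt.2 h7)
      · have h8 := h2 (κ m₀) (κ (m₀ + 1)) hne hB hC (s m₀) (hs' m₀) (s (m₀ + 1)) (hs' (m₀ + 1))
        have h9 : ‖P.pt (κ (m₀ + 0 + 1)) (s (m₀ + 0 + 1)) - P.pt (κ (m₀ + 0)) (s (m₀ + 0))‖ ≤
            ∑ j ∈ Finset.range N,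
              ‖P.pt (κ (m₀ + j + 1)) (s (m₀ + j + 1)) - P.pt (κ (m₀ + j)) (s (m₀ + j))‖ :=
          Finset.single_le_sum (f := fun j =>
            ‖P.pt (κ (m₀ + j + 1)) (s (m₀ + j + 1)) - P.pt (κ (m₀ + j)) (s (m₀ + j))‖)
            (s := Finset.range N) (a := 0)
            (fun _ _ => norm_nonneg _) (Finset.mem_range.2 (by omega))
        rw [norm_sub_rev] at h8
        exact (min_le_right _ _).trans (h8.trans h9)
  · push Not at hA
    obtain ⟨m, h4, h5, h6⟩ := hA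
    have h7 := h3 (κ m) (κ (m + 1)) (κ (m + 2)) (orb_ne P h m).symm (orb_ne P h (m + 1)).symm
      h6.symm (s m) (hs' m) (s (m + 1)) (hs' (m + 1)) (s (m + 2)) (hs' (m + 2))
    rw [norm_sub_rev (P.pt (κ m) (s m)) (P.pt (κ (m + 1)) (s (m + 1))),
      norm_sub_rev (P.pt (κ (m + 1)) (s (m + 1))) (P.pt (κ (m + 2)) (s (m + 2)))] at h7
    obtain ⟨i, rfl⟩ := Nat.exists_eq_add_of_le h4
    have h8 : ∑ j ∈ ({i, i + 1} : Finset ℕ),
        ‖P.pt (κ (m₀ + j + 1)) (s (m₀ + j + 1)) - P.pt (κ (m₀ + j)) (s (m₀ + j))‖ ≤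
        ∑ j ∈ Finset.range N,
          ‖P.pt (κ (m₀ + j + 1)) (s (m₀ + j + 1)) - P.pt (κ (m₀ + j)) (s (m₀ + j))‖ := by
      refine Finset.sum_le_sum_of_subset_of_nonneg ?_ fun _ _ _ => norm_nonneg _
      intro j hj
      rw [Finset.mem_insert, Finset.mem_singleton] at hj
      rw [Finset.mem_range]
      omega
    rw [Finset.sum_pair (by omega)] at h8
    exact (min_le_left _ _).trans (h7.trans h8)

theorem len_unbounded {κ : ℕ → Fin n} {y : ℕ → ℂ × ℝ} (h : Orb P κ y) (B : ℝ) :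
    ∃ m, B < ∑ j ∈ Finset.range m, ‖xp P (κ (j + 1)) (y (j + 1)) - xp P (κ j) (y j)‖ := by
  obtain ⟨c₃, hc₃, h3⟩ := three P
  obtain ⟨c₂, hc₂, h2⟩ := two P
  obtain ⟨N, hN1, hN⟩ := exists_N P
  have hc : 0 < min c₃ c₂ := lt_min hc₃ hc₂
  have key : ∀ q : ℕ, (q : ℝ) * min c₃ c₂ ≤ ∑ j ∈ Finset.range (q * N),
      ‖xp P (κ (j + 1)) (y (j + 1)) - xp P (κ j) (y j)‖ := by
    intro q
    induction q with
    | zero => simp
    | succ q ih =>
      have hb := block P h hN1 hN h3 h2 (q * N)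
      rw [add_mul, one_mul, Finset.sum_range_add]
      push_cast
      linarith
  obtain ⟨q, hq⟩ := exists_nat_gt (B / min c₃ c₂)
  refine ⟨q * N, ?_⟩
  rw [div_lt_iff₀ hc] at hq
  exact hq.trans_le (key q)

end Pool.Agent.GRM
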