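import Pool.Agent.GRM.Fan1
import Pool.Agent.GRM.Foc
import Pool.Agent.GRM.Len3

/-! GRM-Fan2: there is no fan of regular lines (imports Fan1, Foc, Len3).

The virtual sources of two lines of the fan stay bounded. -/

namespace Pool.Agent.GRM

open Bil62 Bil62.ConvexPolygon MeasureTheory Set

theorem pencil {u u' F : ℂ} (hu : ‖u‖ = 1) (hu' : ‖u'‖ = 1) {R : ℝ} (h : |cross u F| ≤ R)
    (h' : |cross u' F| ≤ R) : ‖F‖ * |cross u u'| ≤ 2 * R := by
  have h1 : ((cross u u' : ℝ) : ℂ) * F =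
      ((cross F u' : ℝ) : ℂ) * u - ((cross F u : ℝ) : ℂ) * u' := by
    apply Complex.ext
    · simp [cross]
      ring
    · simp [cross]
      ring
  have h2 : ‖((cross u u' : ℝ) : ℂ) * F‖ = ‖F‖ * |cross u u'| := by
    rw [norm_mul, Complex.norm_real, Real.norm_eq_abs, mul_comm]
  rw [← h2, h1]
  refine (norm_sub_le _ _).trans ?_
  rw [norm_mul, norm_mul, hu, hu', mul_one, mul_one, Complex.norm_real, Complex.norm_real,
    Real.norm_eq_abs, Real.norm_eq_abs, cross_comm F u', cross_comm F u, abs_neg, abs_neg]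
  linarith

variable {n : ℕ} [NeZero n] (P : ConvexPolygon n)

theorem fan2 {a b : ℝ} (hab : a < b) {k : Fin n} {s : ℝ} (hs : s ∈ Ioo 0 (P.len k))
    (h1 : ∀ α ∈ Ioo a b, En P k (uv α, cross (uv α) (P.pt k s)))
    (h2 : ∀ α ∈ Ioo a b, Reg P (uv α, cross (uv α) (P.pt k s))) : False := by
  obtain ⟨W, κ, hW0, hW1, hW⟩ := fan1 P hab (P.pt k s) h2
  generalize hX : P.pt k s = X at *
  -- two angles
  obtain ⟨δ, hδ0, hδ1, hδ2⟩ : ∃ δ : ℝ, 0 < δ ∧ δ ≤ 1 ∧ δ ≤ (b - a) / 3 :=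
    ⟨min 1 ((b - a) / 3), lt_min one_pos (by linarith), min_le_left _ _, min_le_right _ _⟩
  have hα : a + δ ∈ Ioo a b := ⟨by linarith, by linarith⟩
  have hα' : a + 2 * δ ∈ Ioo a b := ⟨by linarith, by linarith⟩
  have hsin : 0 < Real.sin δ :=
    Real.sin_pos_of_pos_of_lt_pi hδ0 (by linarith [Real.pi_gt_three])
  have hnorm : ∀ (ω : List (Fin n)) (α : ℝ), ‖(Tw P ω (uv α, cross (uv α) X)).1‖ = 1 := by
    intro ω α
    rw [norm_Tw]
    exact norm_uv α
  have hC : ∀ m, ‖fo P (W m) X‖ * Real.sin δ ≤ 2 * bd P := by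
    intro m
    have e1 := fo_cross P (W m) (x := (uv (a + δ), cross (uv (a + δ)) X)) (F := X) rfl
    have e2 := fo_cross P (W m) (x := (uv (a + 2 * δ), cross (uv (a + 2 * δ)) X)) (F := X) rfl
    have b1 := bd_Ex P (hnorm (W m) (a + δ)) (hW _ hα m).2
    have b2 := bd_Ex P (hnorm (W m) (a + 2 * δ)) (hW _ hα' m).2
    rw [e1] at b1
    rw [e2] at b2
    have h3 := pencil (hnorm (W m) (a + δ)) (hnorm (W m) (a + 2 * δ)) b1 b2
    rw [Tw_uv, Tw_uv, cross_uv] at h3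
    have h4 : |Real.sin (cw P (W m) + sg (W m) * (a + 2 * δ) -
        (cw P (W m) + sg (W m) * (a + δ)))| = Real.sin δ := by
      have h5 : cw P (W m) + sg (W m) * (a + 2 * δ) - (cw P (W m) + sg (W m) * (a + δ)) =
          sg (W m) * δ := by ring
      rw [h5]
      rcases sg_eq (W m) with h6 | h6
      · rw [h6, one_mul, abs_of_pos hsin]
      · rw [h6, neg_one_mul, Real.sin_neg, abs_neg, abs_of_pos hsin]
    rw [h4] at h3
    exact h3
  -- the orbit
  set y : ℕ → ℂ × ℝ := fun m => Tw P (W m) (uv (a + δ), cross (uv (a + δ)) X) with hy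
  have hyn : ∀ m, ‖(y m).1‖ = 1 := fun m => hnorm (W m) (a + δ)
  have hys : ∀ m, y (m + 1) = T P (κ m) (y m) := by
    intro m
    rw [hy]
    beta_reduce
    rw [hW1, Tw_append]
    rfl
  have hFs : ∀ m, fo P (W (m + 1)) X = P.rpt (κ m) (fo P (W m) X) := by
    intro m
    rw [hW1, fo_append]
    rfl
  have hEx : ∀ m, Ex P (κ m) (y m) := fun m => (hW _ hα m).2
  have hOrb : Orb P κ y := ⟨hyn 0, fun m => ⟨hEx m, hys m⟩⟩
  have h0 : ∀ l, Ex P l (uv (a + δ), cross (uv (a + δ)) X) → 0 < P.g l X := by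
    intro l hl
    have h3 := Ex_ne_En P hl (h1 _ hα)
    rw [← hX]
    exact P.g_pt_pos h3 hs
  have hb : ∀ m, 0 < P.g (κ m) (fo P (W m) X) := fun m =>
    fo_before P (W m) (x := (uv (a + δ), cross (uv (a + δ)) X)) (F := X) (norm_uv _) rfl h0
      (hW _ hα m).1 (κ m) (hEx m)
  have hline : ∀ m, (y m).2 = cross (y m).1 (fo P (W m) X) := fun m =>
    fo_cross P (W m) (x := (uv (a + δ), cross (uv (a + δ)) X)) (F := X) rfl
  have hind : ∀ m, ∑ j ∈ Finset.range m, ‖xp P (κ (j + 1)) (y (j + 1)) - xp P (κ j) (y j)‖ ≤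
      ‖xp P (κ m) (y m) - fo P (W m) X‖ := by
    intro m
    induction m with
    | zero =>
      rw [Finset.sum_range_zero]
      exact norm_nonneg _
    | succ m ih =>
      rw [Finset.sum_range_succ]
      have h3 := (fo_step P (hyn m) (hline m) (hEx m) (hb m) (l' := κ (m + 1)) (by
        rw [← hys]
        exact hEx (m + 1))).2
      rw [← hys, ← hFs] at h3
      rw [h3]
      linarith
  obtain ⟨m, hm⟩ := len_unbounded P hOrb (bd P + 2 * bd P / Real.sin δ)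
  have h3 : ‖fo P (W m) X‖ ≤ 2 * bd P / Real.sin δ := by
    rw [le_div_iff₀ hsin]
    exact hC m
  obtain ⟨t, ht, hxp⟩ := xp_side P (hEx m)
  have h4 : ‖xp P (κ m) (y m)‖ ≤ bd P := by
    rw [hxp]
    exact norm_pt_le P ⟨ht.1.le, ht.2.le⟩
  have h5 := norm_sub_le (xp P (κ m) (y m)) (fo P (W m) X)
  have h6 := hind m
  linarith

end Pool.Agent.GRM
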