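import Pool.Agent.GRM.Bas2

/-! GRM-FibA: common itineraries of strips and fans (imports Bas2). -/

namespace Pool.Agent.GRM

open Bil62 Bil62.ConvexPolygon MeasureTheory Set

variable {n : ℕ} [NeZero n] (P : ConvexPolygon n)

private theorem fiba_ex {x : ℂ × ℝ} (h : Reg P x) : ∃ l, Ex P l x := by
  obtain ⟨ω, hl, hω⟩ := h 1
  cases ω with
  | nil => simp at hl
  | cons l ω => exact ⟨l, hω.1⟩

theorem reg_T {l : Fin n} {x : ℂ × ℝ} (hx : ‖x.1‖ = 1) (h : Reg P x) (hl : Ex P l x) : Reg P (T P l x) := by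
  intro m
  obtain ⟨ω, hm, hω⟩ := h (m + 1)
  cases ω with
  | nil => simp at hm
  | cons l' ω =>
    obtain ⟨h1, h2⟩ := hω
    have e : l' = l := Ex_unique P hx h1 hl
    subst e
    exact ⟨ω, by simpa using hm, h2⟩

theorem reg_Tw {ω : List (Fin n)} {x : ℂ × ℝ} (hx : ‖x.1‖ = 1) (h : Reg P x) (hω : Wd P ω x) :
    Reg P (Tw P ω x) := by
  induction ω generalizing x with
  | nil => exact h
  | cons l ω ih =>
    obtain ⟨h1, h2⟩ := hω
    exact ih (x := T P l x) (by rw [norm_T]; exact hx) (reg_T P hx h h1) h2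

private theorem fiba_sh_zero (x : ℂ × ℝ) : sh 0 x = x := by
  unfold sh
  rw [add_zero]

private theorem fiba_const {x : ℂ × ℝ} (hx : ‖x.1‖ = 1) {w : ℝ} (hw : 0 < w)
    (h : ∀ d : ℝ, |d| < w → Reg P (sh d x)) : ∃ κ, ∀ d : ℝ, |d| < w → Ex P κ (sh d x) := by
  obtain ⟨κ, hκ⟩ := fiba_ex P (h 0 (by rw [abs_zero]; exact hw))
  refine ⟨κ, fun d hd => ?_⟩
  rw [fiba_sh_zero] at hκ
  have h1 : ∀ p ∈ Ioo (x.2 - w) (x.2 + w), ∃ k, P.Exit x.1 p k := by
    intro p hp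
    obtain ⟨k, hk⟩ := fiba_ex P (h (p - x.2) (by
      rw [abs_lt]
      constructor
      · linarith [hp.1]
      · linarith [hp.2]))
    refine ⟨k, ?_⟩
    have h2 : sh (p - x.2) x = (x.1, p) := by
      unfold sh
      rw [add_sub_cancel]
    rw [h2] at hk
    exact hk
  have h2 := P.exit_const hx h1 (p₀ := x.2) ⟨by linarith, by linarith⟩ hκ (x.2 + d) (by
    rw [abs_lt] at hd
    constructor
    · linarith [hd.1]
    · linarith [hd.2])
  exact h2

theorem strip_word {x : ℂ × ℝ} (hx : ‖x.1‖ = 1) {w : ℝ} (hw : 0 < w)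
    (h : ∀ d : ℝ, |d| < w → Reg P (sh d x)) {ω : List (Fin n)} (hω : Wd P ω x) :
    (∀ d : ℝ, |d| < w → Wd P ω (sh d x)) ∧ ∃ κ, ∀ d : ℝ, |d| < w → Ex P κ (Tw P ω (sh d x)) := by
  induction ω generalizing x with
  | nil => exact ⟨fun _ _ => trivial, fiba_const P hx hw h⟩
  | cons l ω ih =>
    obtain ⟨h1, h2⟩ := hω
    obtain ⟨κ, hκ⟩ := fiba_const P hx hw h
    have h3 := hκ 0 (by rw [abs_zero]; exact hw)
    rw [fiba_sh_zero] at h3
    have e : κ = l := Ex_unique P hx h3 h1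
    subst e
    have hn : ‖(T P κ x).1‖ = 1 := by rw [norm_T]; exact hx
    have hr : ∀ d : ℝ, |d| < w → Reg P (sh d (T P κ x)) := by
      intro d hd
      have h4 := reg_T P (x := sh (-d) x) (by exact hx) (h (-d) (by rw [abs_neg]; exact hd))
        (hκ (-d) (by rw [abs_neg]; exact hd))
      rw [T_sh, neg_neg] at h4
      exact h4
    obtain ⟨h5, κ', h6⟩ := ih hn hr h2
    refine ⟨fun d hd => ⟨hκ d hd, ?_⟩, κ', fun d hd => ?_⟩
    · rw [T_sh]
      exact h5 (-d) (by rw [abs_neg]; exact hd)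
    · show Ex P κ' (Tw P ω (T P κ (sh d x)))
      rw [T_sh]
      exact h6 (-d) (by rw [abs_neg]; exact hd)

theorem common_word {a b : ℝ} (hab : a < b) (X : ℂ) (m : ℕ)
    (h : ∀ α ∈ Ioo a b, ∃ ω : List (Fin n), ω.length = m ∧ Wd P ω (uv α, cross (uv α) X)) :
    ∃ ω : List (Fin n), ω.length = m ∧ ∀ α ∈ Ioo a b, Wd P ω (uv α, cross (uv α) X) := by
  have hc : Continuous fun α : ℝ => ((uv α, cross (uv α) X) : ℂ × ℝ) := by
    refine continuous_uv.prodMk ?_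
    unfold cross
    exact ((Complex.continuous_re.comp continuous_uv).mul continuous_const).sub
      ((Complex.continuous_im.comp continuous_uv).mul continuous_const)
  have h0 : (a + b) / 2 ∈ Ioo a b := ⟨by linarith, by linarith⟩
  obtain ⟨ω, hω, hW⟩ := h _ h0
  refine ⟨ω, hω, ?_⟩
  have hu : IsOpen {α : ℝ | Wd P ω (uv α, cross (uv α) X)} := (isOpen_Wd P ω).preimage hc
  have hv : IsOpen (⋃ (ω' : List (Fin n)) (_ : ω'.length = m ∧ ω' ≠ ω),
      {α : ℝ | Wd P ω' (uv α, cross (uv α) X)}) :=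
    isOpen_iUnion fun ω' => isOpen_iUnion fun _ => (isOpen_Wd P ω').preimage hc
  have hd : Disjoint {α : ℝ | Wd P ω (uv α, cross (uv α) X)}
      (⋃ (ω' : List (Fin n)) (_ : ω'.length = m ∧ ω' ≠ ω),
        {α : ℝ | Wd P ω' (uv α, cross (uv α) X)}) := by
    rw [Set.disjoint_left]
    intro α hα hα'
    rw [mem_iUnion₂] at hα'
    obtain ⟨ω', ⟨hl, hne⟩, hα'⟩ := hα'
    exact hne (Wd_unique P (norm_uv α) (hl.trans hω.symm) hα' hα)
  have hs : Ioo a b ⊆ {α : ℝ | Wd P ω (uv α, cross (uv α) X)} ∪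
      (⋃ (ω' : List (Fin n)) (_ : ω'.length = m ∧ ω' ≠ ω),
        {α : ℝ | Wd P ω' (uv α, cross (uv α) X)}) := by
    intro α hα
    obtain ⟨ω', hl, hW'⟩ := h α hα
    by_cases he : ω' = ω
    · left
      rw [he] at hW'
      exact hW'
    · right
      rw [mem_iUnion₂]
      exact ⟨ω', ⟨hl, he⟩, hW'⟩
  exact isPreconnected_Ioo.subset_left_of_subset_union hu hv hd hs ⟨_, h0, hW⟩

end Pool.Agent.GRM
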