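import Pool.Agent.GRM.FibA
import Pool.Agent.GRM.Foc
import Pool.Agent.GRM.Fan2

/-! GRM-FibB: a fan that contains sufficiently many regular strips is regular, hence impossible (imports FibA, Foc, Fan2).

Write `X = pt k s`, `x α = (uv α, cross (uv α) X)`.

PLAN.  By induction on `m`: for all `α ∈ Ioo a b` there is a word of length `m` with `Wd ω (x α)`.  Step: `common_word`: one word `ω` of length `m` for all `α ∈ Ioo a b`.  `F = fo ω X`;
`y α = Tw ω (x α)` has `(y α).1 = uv (cw ω + sg ω * α)` and `(y α).2 = cross (y α).1 F` (`Tw_uv`, `fo_cross`).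
(1) `‖F‖ * sin ((b - a) / 2) ≤ 2 * bd`: `|(y α).2| ≤ bd` for all `α ∈ Ioo a b` (`ω = []`: `F = X`, `norm_pt_le`; `ω = ω' ++ [l]`: `En l (y α)` by `En_T`, `Tw_append`, and
`bd_Ex` for `rv (y α)`), and `pencil` for two angles at distance `(b - a) / 2` (`cross_uv`).  As `sin t ≥ 2 t / π` on `[0, π/2]` (`Real.mul_le_sin`): `‖F‖ * (b - a) ≤ 2 * π * bd`.
(2) For `α ∈ Ioo a b` take `α' ∈ A ∩ Ioo a b` as in `hd`.  `strip_word` for `x α'` and `ω`: a side `κ` with `Ex κ (Tw ω (sh d (x α')))` for all `|d| < w`; `Tw_sh`: so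
`cross u' (V κ) < cross u' F + e < cross u' (V (κ+1))` for all `|e| < w`, `u' = (y α').1`, hence `cross u' (V κ - F) ≤ -w`, `cross u' (V (κ+1) - F) ≥ w`.
For `u = (y α).1`: `‖u - u'‖ ≤ |α - α'|` and `‖V κ - F‖ * (b - a) ≤ bd * (b - a) + 2 * π * bd ≤ (2 * π + 2) * bd` (`b - a ≤ 1`), so by `hd` and `abs_cross_le'`:
`|cross (u - u') (V κ - F)| < w`.  Hence `Ex κ (y α)`: the word `ω ++ [κ]` for `x α`.
So all lines of the fan are regular; `fan2` gives the contradiction. -/

namespace Pool.Agent.GRM

open Bil62 Bil62.ConvexPolygon MeasureTheory Set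

variable {n : ℕ} [NeZero n] (P : ConvexPolygon n)

theorem norm_uv_sub (α β : ℝ) : ‖uv α - uv β‖ ≤ |α - β| := by
  have h1 : uv α - uv β = uv β * (uv (α - β) - 1) := by
    have h2 : uv α = uv β * uv (α - β) := by
      rw [← uv_add]
      congr 1
      ring
    rw [h2]
    ring
  rw [h1, norm_mul, norm_uv, one_mul]
  have h3 : uv (α - β) = Complex.exp (Complex.I * ((α - β : ℝ) : ℂ)) := by
    unfold uv
    rw [mul_comm]
  rw [h3]
  exact Real.norm_exp_I_mul_ofReal_sub_one_le

private theorem bd_nonneg' : 0 ≤ bd P := by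
  unfold bd
  exact Finset.sum_nonneg fun j _ => norm_nonneg _

/-- the lines of the fan after the common word have bounded second component -/
private theorem bd_y (ω : List (Fin n)) {x : ℂ × ℝ} (hx : ‖x.1‖ = 1) (h0 : |x.2| ≤ bd P)
    (hω : Wd P ω x) : |(Tw P ω x).2| ≤ bd P := by
  rcases List.eq_nil_or_concat ω with h | ⟨ω', l, h⟩
  · subst h
    exact h0
  · have h' : ω = ω' ++ [l] := by
      rw [h]
      try simp
    subst h'
    rw [Wd_append] at hω
    have h1 : Ex P l (Tw P ω' x) := hω.2.1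
    have h2 : Tw P (ω' ++ [l]) x = T P l (Tw P ω' x) := by
      rw [Tw_append]
      rfl
    have h3 : En P l (Tw P (ω' ++ [l]) x) := by
      rw [h2]
      exact (En_T P).2 h1
    have h4 : Ex P l (rv (Tw P (ω' ++ [l]) x)) := (Ex_rv P).2 h3
    have h5 := bd_Ex P (by rw [norm_rv, norm_Tw]; exact hx) h4
    have h6 : (rv (Tw P (ω' ++ [l]) x)).2 = -(Tw P (ω' ++ [l]) x).2 := rfl
    rw [h6, abs_neg] at h5
    exact h5

theorem fibB {a b w s : ℝ} {k : Fin n} (hs : s ∈ Ioo 0 (P.len k)) (hab : a < b) (hba : b - a ≤ 1)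
    (hw : 0 < w) (hEn : ∀ α ∈ Ioo a b, En P k (uv α, cross (uv α) (P.pt k s))) (A : Set ℝ)
    (hA : ∀ α ∈ A, ∀ d : ℝ, |d| < w → Reg P (sh d (uv α, cross (uv α) (P.pt k s))))
    (hd : ∀ α ∈ Ioo a b, ∃ α' ∈ A ∩ Ioo a b, |α - α'| * ((2 * Real.pi + 2) * bd P) < w * (b - a)) :
    False := by
  have hbd := bd_nonneg' P
  have hX : ‖P.pt k s‖ ≤ bd P := norm_pt_le P ⟨hs.1.le, hs.2.le⟩
  have key : ∀ m : ℕ, ∀ α ∈ Ioo a b, ∃ ω : List (Fin n), ω.length = m ∧
      Wd P ω (uv α, cross (uv α) (P.pt k s)) := by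
    intro m
    induction m with
    | zero => exact fun α _ => ⟨[], rfl, trivial⟩
    | succ m ih =>
      obtain ⟨ω, hωl, hω⟩ := common_word P hab (P.pt k s) m ih
      have hline : ∀ α : ℝ, (Tw P ω (uv α, cross (uv α) (P.pt k s))).2 =
          cross (Tw P ω (uv α, cross (uv α) (P.pt k s))).1 (fo P ω (P.pt k s)) := fun α =>
        fo_cross P ω (x := (uv α, cross (uv α) (P.pt k s))) (F := P.pt k s) rfl
      have hy : ∀ α ∈ Ioo a b, |(Tw P ω (uv α, cross (uv α) (P.pt k s))).2| ≤ bd P := by
        intro α hα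
        refine bd_y P ω (norm_uv α) ?_ (hω α hα)
        have h1 := abs_cross_le' (uv α) (P.pt k s)
        rw [norm_uv, one_mul] at h1
        exact h1.trans hX
      have hn : ∀ α : ℝ, ‖(Tw P ω (uv α, cross (uv α) (P.pt k s))).1‖ = 1 := by
        intro α
        rw [norm_Tw]
        exact norm_uv α
      obtain ⟨F, hF⟩ : ∃ F, F = fo P ω (P.pt k s) := ⟨_, rfl⟩
      rw [← hF] at hline
      -- the bound for the virtual source
      have hFb : ‖F‖ * (b - a) ≤ 2 * Real.pi * bd P := by
        have hα1 : a + (b - a) / 4 ∈ Ioo a b := ⟨by linarith, by linarith⟩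
        have hα2 : a + 3 * (b - a) / 4 ∈ Ioo a b := ⟨by linarith, by linarith⟩
        have b1 := hy _ hα1
        have b2 := hy _ hα2
        rw [hline] at b1 b2
        have h3 := pencil (hn _) (hn _) b1 b2
        rw [Tw_uv, Tw_uv, cross_uv] at h3
        have hsin : 2 / Real.pi * ((b - a) / 2) ≤ Real.sin ((b - a) / 2) :=
          Real.mul_le_sin (by linarith) (by linarith [Real.pi_gt_three])
        have hpos : 0 ≤ 2 / Real.pi * ((b - a) / 2) :=
          mul_nonneg (div_nonneg (by norm_num) Real.pi_pos.le) (by linarith)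
        have h4 : |Real.sin (cw P ω + sg ω * (a + 3 * (b - a) / 4) -
            (cw P ω + sg ω * (a + (b - a) / 4)))| = Real.sin ((b - a) / 2) := by
          have h5 : cw P ω + sg ω * (a + 3 * (b - a) / 4) -
              (cw P ω + sg ω * (a + (b - a) / 4)) = sg ω * ((b - a) / 2) := by ring
          rw [h5]
          rcases sg_eq ω with h6 | h6
          · rw [h6, one_mul, abs_of_nonneg (hpos.trans hsin)]
          · rw [h6, neg_one_mul, Real.sin_neg, abs_neg, abs_of_nonneg (hpos.trans hsin)]
        rw [h4] at h3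
        have h7 : ‖F‖ * (2 / Real.pi * ((b - a) / 2)) ≤ 2 * bd P :=
          (mul_le_mul_of_nonneg_left hsin (norm_nonneg _)).trans h3
        have h8 : ‖F‖ * (2 / Real.pi * ((b - a) / 2)) = ‖F‖ * (b - a) / Real.pi := by
          field_simp
        rw [h8, div_le_iff₀ Real.pi_pos] at h7
        linarith
      have hVF : ∀ j, ‖P.V j - F‖ * (b - a) ≤ (2 * Real.pi + 2) * bd P := by
        intro j
        have h1 : ‖P.V j - F‖ ≤ bd P + ‖F‖ := (norm_sub_le _ _).trans (by
          have := norm_V_le P j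
          linarith)
        have h2 := mul_le_mul_of_nonneg_right h1 (sub_nonneg.2 hab.le)
        have h3 : bd P * (b - a) ≤ bd P := by
          calc bd P * (b - a) ≤ bd P * 1 := mul_le_mul_of_nonneg_left hba hbd
            _ = bd P := mul_one _
        rw [add_mul] at h2
        linarith
      intro α hα
      obtain ⟨α', ⟨hα'A, hα'⟩, hαα⟩ := hd α hα
      obtain ⟨-, κ, hκ⟩ := strip_word P (norm_uv α') hw (hA α' hα'A) (hω α' hα')
      have hκ' : ∀ e : ℝ, |e| < w → Ex P κ (sh e (Tw P ω (uv α', cross (uv α') (P.pt k s)))) := by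
        intro e he
        have h1 : |sg ω * e| < w := by
          rcases sg_eq ω with h6 | h6
          · rw [h6, one_mul]
            exact he
          · rw [h6, neg_one_mul, abs_neg]
            exact he
        have h2 := hκ (sg ω * e) h1
        rw [Tw_sh] at h2
        have h3 : sg ω * (sg ω * e) = e := by
          rcases sg_eq ω with h6 | h6
          · rw [h6]
            ring
          · rw [h6]
            ring
        rw [h3] at h2
        exact h2
      -- abbreviations
      obtain ⟨y, hyd⟩ : ∃ y, y = Tw P ω (uv α, cross (uv α) (P.pt k s)) := ⟨_, rfl⟩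
      obtain ⟨y', hyd'⟩ : ∃ y', y' = Tw P ω (uv α', cross (uv α') (P.pt k s)) := ⟨_, rfl⟩
      have hl1 := hline α
      have hl2 := hline α'
      rw [← hyd'] at hκ'
      rw [← hyd] at hl1
      rw [← hyd'] at hl2
      have hyy : ‖y.1 - y'.1‖ ≤ |α - α'| := by
        rw [hyd, hyd', Tw_uv, Tw_uv]
        refine (norm_uv_sub _ _).trans (le_of_eq ?_)
        have h5 : cw P ω + sg ω * α - (cw P ω + sg ω * α') = sg ω * (α - α') := by ring
        rw [h5, abs_mul]
        rcases sg_eq ω with h6 | h6
        · rw [h6, abs_one, one_mul]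
        · rw [h6, abs_neg, abs_one, one_mul]
      have hsmall : ∀ j, |cross (y.1 - y'.1) (P.V j - F)| < w := by
        intro j
        have h1 := abs_cross_le' (y.1 - y'.1) (P.V j - F)
        have h2 : ‖y.1 - y'.1‖ * ‖P.V j - F‖ ≤ |α - α'| * ‖P.V j - F‖ :=
          mul_le_mul_of_nonneg_right hyy (norm_nonneg _)
        have h3 : |α - α'| * ‖P.V j - F‖ * (b - a) < w * (b - a) := by
          calc |α - α'| * ‖P.V j - F‖ * (b - a) = |α - α'| * (‖P.V j - F‖ * (b - a)) := by ring
            _ ≤ |α - α'| * ((2 * Real.pi + 2) * bd P) :=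
              mul_le_mul_of_nonneg_left (hVF j) (abs_nonneg _)
            _ < w * (b - a) := hαα
        have h4 := lt_of_mul_lt_mul_right h3 (sub_nonneg.2 hab.le)
        linarith
      have hE : ∀ e : ℝ, |e| < w → cross y'.1 (P.V κ) < y'.2 + e ∧
          y'.2 + e < cross y'.1 (P.V (κ + 1)) := fun e he => hκ' e he
      have h00 := hE 0 (by rw [abs_zero]; exact hw)
      rw [add_zero] at h00
      have hL : cross y'.1 (P.V κ) - y'.2 ≤ -w := by
        by_contra hc
        have hc' := not_le.1 hc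
        have h1 := (hE (cross y'.1 (P.V κ) - y'.2) (by
          rw [abs_lt]
          constructor
          · exact hc'
          · linarith [h00.1])).1
        linarith
      have hR : w ≤ cross y'.1 (P.V (κ + 1)) - y'.2 := by
        by_contra hc
        have hc' := not_le.1 hc
        have h1 := (hE (cross y'.1 (P.V (κ + 1)) - y'.2) (by
          rw [abs_lt]
          constructor
          · linarith [h00.2]
          · exact hc')).2
        linarith
      have hexp : ∀ j, cross y.1 (P.V j) - y.2 =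
          (cross y'.1 (P.V j) - y'.2) + cross (y.1 - y'.1) (P.V j - F) := by
        intro j
        rw [hl1, hl2]
        unfold cross
        simp only [Complex.sub_re, Complex.sub_im]
        ring
      have hex : Ex P κ y := by
        have h1 := hexp κ
        have h2 := hexp (κ + 1)
        have h3 := abs_lt.1 (hsmall κ)
        have h4 := abs_lt.1 (hsmall (κ + 1))
        show cross y.1 (P.V κ) < y.2 ∧ y.2 < cross y.1 (P.V (κ + 1))
        constructor
        · linarith [h3.2]
        · linarith [h4.1]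
      refine ⟨ω ++ [κ], by rw [List.length_append, hωl]; rfl, ?_⟩
      rw [Wd_append]
      refine ⟨hω α hα, ?_, trivial⟩
      rw [← hyd]
      exact hex
  exact fan2 P hab hs hEn (fun α hα m => key m α hα)

end Pool.Agent.GRM
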