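import Mathlib

/-! GRM-FibC: dense sampling near a density point (Mathlib only).

PLAN.  Lebesgue density theorem: `IsUnifLocDoublingMeasure.ae_tendsto_measure_inter_div` (or `Besicovitch.ae_tendsto_measure_inter_div`): for a.e. `x ∈ A`:
`volume (A ∩ closedBall x r) / volume (closedBall x r) → 1` as `r → 0+`.  `volume A ≠ 0` gives such an `x ∈ A ⊆ O`.  Take `r < 1/2`, `r > 0`, with `closedBall x r ⊆ O` and ratio
`> 1 - c'`, `c' = min (c / 2) (1 / 4)`; `a = x - r`, `b = x + r`, `b - a = 2 r`.  Let `α ∈ Ioo a b`, `ε = c * (b - a)`; suppose no `α' ∈ A ∩ Ioo a b` has `|α - α'| < ε`.  The set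
`Ioo (α - ε) (α + ε) ∩ Ioo a b` contains an interval of length at least `min ε r` (on the side of `α` towards `x`), it is disjoint from `A`, so
`volume (A ∩ closedBall x r) ≤ 2 r - min ε r`, while it is `> (1 - c') 2 r`: `min (2 c r) r < 2 c' r ≤ min (c r) (r / 2)`, contradiction.
(`A` need not be measurable: use `A ∩ I ⊆ I \ J` and monotonicity.) -/

namespace Pool.Agent.GRM

open MeasureTheory Set

private theorem dens_aux {A : Set ℝ} {x r m : ℝ} (hm : 0 < m) {p : ℝ}
    (hpl : x - r ≤ p) (hpr : p + m ≤ x + r) (hJ : ∀ y ∈ Ioo p (p + m), y ∉ A) :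
    volume (A ∩ Metric.closedBall x r) ≤ ENNReal.ofReal (2 * r - m) := by
  have hsub : Ioo p (p + m) ⊆ Metric.closedBall x r := by
    intro y hy
    rw [Real.closedBall_eq_Icc]
    exact ⟨by linarith [hy.1], by linarith [hy.2]⟩
  have h1 : A ∩ Metric.closedBall x r ⊆ Metric.closedBall x r \ Ioo p (p + m) := by
    rintro y ⟨hyA, hyB⟩
    exact ⟨hyB, fun hy => hJ y hy hyA⟩
  calc volume (A ∩ Metric.closedBall x r)
      ≤ volume (Metric.closedBall x r \ Ioo p (p + m)) := measure_mono h1
    _ = volume (Metric.closedBall x r) - volume (Ioo p (p + m)) := by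
        refine measure_sdiff hsub measurableSet_Ioo.nullMeasurableSet ?_
        rw [Real.volume_Ioo]
        exact ENNReal.ofReal_ne_top
    _ = ENNReal.ofReal (2 * r - m) := by
        rw [Real.volume_closedBall, Real.volume_Ioo, add_sub_cancel_left,
          ENNReal.ofReal_sub _ hm.le]

theorem dens {A O : Set ℝ} (hO : IsOpen O) (hAO : A ⊆ O) (hA : volume A ≠ 0) {c : ℝ} (hc : 0 < c) :
    ∃ a b : ℝ, a < b ∧ b - a ≤ 1 ∧ Ioo a b ⊆ O ∧
      ∀ α ∈ Ioo a b, ∃ α' ∈ A ∩ Ioo a b, |α - α'| < c * (b - a) := by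
  have hne : (volume : Measure ℝ).restrict A ≠ 0 := by
    rwa [Ne, Measure.restrict_eq_zero]
  haveI : (ae ((volume : Measure ℝ).restrict A)).NeBot := ae_neBot.2 hne
  have h1 := Besicovitch.ae_tendsto_measure_inter_div (volume : Measure ℝ) A
  have h2 : ∀ᵐ x ∂((volume : Measure ℝ).restrict A), x ∈ O := by
    rw [ae_iff]
    have e1 : {x | ¬ x ∈ O} = Oᶜ := rfl
    rw [e1, Measure.restrict_apply hO.measurableSet.compl]
    have e2 : Oᶜ ∩ A = ∅ := by
      ext y
      constructor
      · rintro ⟨hy1, hy2⟩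
        exact hy1 (hAO hy2)
      · intro hy; exact absurd hy (notMem_empty y)
    rw [e2, measure_empty]
  obtain ⟨x, hx1, hx2⟩ := (h1.and h2).exists
  set c' : ℝ := min (c / 2) (1 / 4) with hc'
  have hc'0 : 0 < c' := by rw [hc']; positivity
  have hc'1 : c' ≤ 1 / 4 := min_le_right _ _
  have hc'2 : c' ≤ c / 2 := min_le_left _ _
  have h3 : ENNReal.ofReal (1 - c') < 1 := by
    rw [ENNReal.ofReal_lt_one]; linarith
  have h4 := (tendsto_order.1 hx1).1 _ h3
  obtain ⟨δ, hδ, hδO⟩ := Metric.isOpen_iff.1 hO x hx2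
  have h5 : ∀ᶠ r in nhdsWithin (0 : ℝ) (Ioi 0), r < min δ (1 / 2) := by
    refine Filter.Eventually.filter_mono nhdsWithin_le_nhds ?_
    exact gt_mem_nhds (by positivity)
  have h6 : ∀ᶠ r in nhdsWithin (0 : ℝ) (Ioi 0), 0 < r := self_mem_nhdsWithin
  obtain ⟨r, ⟨hr1, hr2⟩, hr0⟩ := ((h4.and h5).and h6).exists
  have hrδ : r < δ := lt_of_lt_of_le hr2 (min_le_left _ _)
  have hrh : r < 1 / 2 := lt_of_lt_of_le hr2 (min_le_right _ _)
  refine ⟨x - r, x + r, by linarith, by linarith, ?_, ?_⟩
  · intro y hy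
    refine hδO ?_
    rw [Real.ball_eq_Ioo]
    exact ⟨by linarith [hy.1], by linarith [hy.2]⟩
  · intro α hα
    by_contra hcon
    push Not at hcon
    have hba : c * (x + r - (x - r)) = 2 * c * r := by ring
    rw [hba] at hcon
    set m : ℝ := min (2 * c * r) r with hm
    have hm0 : 0 < m := by rw [hm]; positivity
    have hm1 : m ≤ 2 * c * r := min_le_left _ _
    have hm2 : m ≤ r := min_le_right _ _
    have hvol : volume (A ∩ Metric.closedBall x r) ≤ ENNReal.ofReal (2 * r - m) := by
      rcases le_total α x with hαx | hαx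
      · refine dens_aux hm0 (p := α) hα.1.le (by linarith) ?_
        intro y hy hyA
        have := hcon y ⟨hyA, by linarith [hα.1, hy.1], by linarith [hy.2]⟩
        rw [abs_sub_comm, abs_of_pos (by linarith [hy.1])] at this
        linarith [hy.2]
      · refine dens_aux hm0 (p := α - m) (by linarith) (by linarith [hα.2]) ?_
        intro y hy hyA
        have := hcon y ⟨hyA, by linarith [hy.1], by linarith [hα.2, hy.2]⟩
        rw [abs_of_pos (by linarith [hy.2])] at this
        linarith [hy.1]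
    rw [Real.volume_closedBall] at hr1
    have h7 : ENNReal.ofReal (1 - c') * ENNReal.ofReal (2 * r) <
        volume (A ∩ Metric.closedBall x r) := by
      refine (ENNReal.lt_div_iff_mul_lt (Or.inl ?_) (Or.inl ENNReal.ofReal_ne_top)).1 hr1
      rw [Ne, ENNReal.ofReal_eq_zero]
      push Not
      linarith
    have h8 := lt_of_lt_of_le h7 hvol
    rw [← ENNReal.ofReal_mul (by linarith)] at h8
    have h9 := (ENNReal.ofReal_lt_ofReal_iff_of_nonneg (by nlinarith)).1 h8
    have h10 : m < 2 * c' * r := by nlinarith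
    rcases min_choice (2 * c * r) r with h | h
    · rw [← hm] at h
      nlinarith
    · rw [← hm] at h
      nlinarith

end Pool.Agent.GRM
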