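import Pool.Agent.GRM.FibB
import Pool.Agent.GRM.FibC
import Pool.Agent.GRM.Bad1
import Pool.Agent.GRM.Lnk1

/-! GRM-FibD: in almost every direction the lines that meet side `i` are dense (imports FibB, FibC, Bad1, Lnk1). -/

namespace Pool.Agent.GRM

open Bil62 Bil62.ConvexPolygon MeasureTheory Set

variable {n : ℕ} [NeZero n] (P : ConvexPolygon n)

/-- the line through the point `pt k s` with direction `uv α` -/
private noncomputable def xl (k : Fin n) (α s : ℝ) : ℂ × ℝ := (uv α, cross (uv α) (P.pt k s))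

private theorem fa_dir (k : Fin n) (α : ℝ) :
    cross (P.dir k) (uv α) = Real.sin (α - Complex.arg (P.dir k)) := by
  have h := cross_uv (Complex.arg (P.dir k)) α
  rw [← dir_eq_uv] at h
  exact h

private theorem fa_lnz (k : Fin n) (θ s : ℝ) :
    lnz P (k, θ, s) = xl P k (Complex.arg (P.dir k) + θ) s := by
  have h : P.vel (k, θ, s) = uv (Complex.arg (P.dir k) + θ) := by
    rw [uv_add, ← dir_eq_uv]
    rfl
  unfold lnz xl ConvexPolygon.pv
  rw [h]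
  rfl

private theorem fa_En {k : Fin n} {α s : ℝ} (hs : s ∈ Ioo 0 (P.len k))
    (hα : α - Complex.arg (P.dir k) ∈ Ioo 0 Real.pi) : En P k (xl P k α s) := by
  refine P.ent_of_pt hs rfl ?_
  show 0 < cross (P.dir k) (uv α)
  rw [fa_dir]
  exact Real.sin_pos_of_mem_Ioo hα

private theorem fa_sh {k : Fin n} {α s d : ℝ} (h : 0 < Real.sin (α - Complex.arg (P.dir k))) :
    sh d (xl P k α s) = xl P k α (s - d / Real.sin (α - Complex.arg (P.dir k))) := by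
  have h1 : ∀ s, cross (uv α) (P.pt k s) =
      cross (uv α) (P.V k) - s * Real.sin (α - Complex.arg (P.dir k)) := by
    intro s
    unfold ConvexPolygon.pt
    rw [cross_add_right, cross_smul_right, cross_comm (uv α) (P.dir k), fa_dir]
    ring
  unfold sh xl
  rw [h1, h1]
  ext1
  · rfl
  · show cross (uv α) (P.V k) - s * Real.sin (α - Complex.arg (P.dir k)) + d = _
    rw [sub_mul, div_mul_cancel₀ _ h.ne']
    ring

/-- the directions without lines through the segment that reach the side `i` -/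
private def A0 (i k : Fin n) (s₁ s₂ η : ℝ) : Set ℝ :=
  {α | α - Complex.arg (P.dir k) ∈ Ioo 0 Real.pi ∧ η < Real.sin (α - Complex.arg (P.dir k)) ∧
    ∀ s ∈ Ioo s₁ s₂, ¬ Rch P i (xl P k α s) ∧ ¬ Rch P i (rv (xl P k α s))}

private theorem fb_null {i : Fin n} (hf : ∀ j, Full P i j) (k : Fin n) {s₁ s₂ η : ℝ} (h0 : 0 < s₁)
    (h12 : s₁ < s₂) (h2 : s₂ < P.len k) (hη : 0 < η) : ∀ᵐ α : ℝ, α ∉ A0 P i k s₁ s₂ η := by
  have hb := bad1 P hf
  obtain ⟨A, hA⟩ : ∃ A : Set ℝ, A = {α | α ∈ A0 P i k s₁ s₂ η ∧ ∀ (k : Fin n) (p : ℝ),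
    En P k (uv α, p) → ¬ Rch P i (uv α, p) → ¬ Rch P i (rv (uv α, p)) → Reg P (uv α, p)} := ⟨_, rfl⟩
  have hnull : volume A = 0 := by
    by_contra hne
    obtain ⟨O, hO⟩ : ∃ O : Set ℝ, O = {α | α - Complex.arg (P.dir k) ∈ Ioo 0 Real.pi} := ⟨_, rfl⟩
    have hOo : IsOpen O := by
      rw [hO]
      exact isOpen_Ioo.preimage (continuous_id.sub continuous_const)
    have hAO : A ⊆ O := by
      rw [hA, hO]
      intro α hα
      exact hα.1.1
    have hbd : 0 ≤ bd P := (norm_nonneg _).trans (norm_V_le P k)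
    have hK : 0 ≤ (2 * Real.pi + 2) * bd P := by
      have := Real.pi_pos
      positivity
    obtain ⟨w, hw⟩ : ∃ w, w = η * (s₂ - s₁) / 2 := ⟨_, rfl⟩
    have hw0 : 0 < w := by
      rw [hw]
      have := mul_pos hη (sub_pos.2 h12)
      linarith
    obtain ⟨a, b, hab, hba, hsub, hden⟩ := dens hOo hAO hne
      (show 0 < w / ((2 * Real.pi + 2) * bd P + 1) by positivity)
    have hs : (s₁ + s₂) / 2 ∈ Ioo 0 (P.len k) := ⟨by linarith, by linarith⟩
    refine fibB P hs hab hba hw0 (fun α hα => ?_) A (fun α hα d hd => ?_) (fun α hα => ?_)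
    · have h1 := hsub hα
      rw [hO] at h1
      exact fa_En P hs h1
    · rw [hA] at hα
      obtain ⟨⟨a1, a2, a3⟩, a4⟩ := hα
      have hsin : 0 < Real.sin (α - Complex.arg (P.dir k)) := hη.trans a2
      have e1 : sh d (uv α, cross (uv α) (P.pt k ((s₁ + s₂) / 2))) =
          xl P k α ((s₁ + s₂) / 2 - d / Real.sin (α - Complex.arg (P.dir k))) := fa_sh P hsin
      rw [e1]
      have e2 : |d / Real.sin (α - Complex.arg (P.dir k))| < (s₂ - s₁) / 2 := by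
        rw [abs_div, abs_of_pos hsin, div_lt_iff₀ hsin]
        have e3 : (s₂ - s₁) / 2 * η ≤ (s₂ - s₁) / 2 * Real.sin (α - Complex.arg (P.dir k)) :=
          mul_le_mul_of_nonneg_left a2.le (by linarith)
        rw [hw] at hd
        linarith
      obtain ⟨e4, e5⟩ := abs_lt.1 e2
      have e6 : (s₁ + s₂) / 2 - d / Real.sin (α - Complex.arg (P.dir k)) ∈ Ioo s₁ s₂ :=
        ⟨by linarith, by linarith⟩
      obtain ⟨e7, e8⟩ := a3 _ e6
      exact a4 k _ (fa_En P ⟨h0.trans e6.1, e6.2.trans h2⟩ a1) e7 e8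
    · obtain ⟨α', h1, h3⟩ := hden α hα
      refine ⟨α', h1, ?_⟩
      have hK1 : 0 < (2 * Real.pi + 2) * bd P + 1 := by linarith
      calc |α - α'| * ((2 * Real.pi + 2) * bd P) ≤ |α - α'| * ((2 * Real.pi + 2) * bd P + 1) :=
            mul_le_mul_of_nonneg_left (by linarith) (abs_nonneg _)
        _ < w / ((2 * Real.pi + 2) * bd P + 1) * (b - a) * ((2 * Real.pi + 2) * bd P + 1) :=
            mul_lt_mul_of_pos_right h3 hK1
        _ = w * (b - a) := by field_simp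
  have hA' : ∀ᵐ α : ℝ, α ∉ A := measure_eq_zero_iff_ae_notMem.1 hnull
  filter_upwards [hb, hA'] with α h1 h3 h4
  apply h3
  rw [hA]
  exact ⟨h4, h1⟩

theorem fibD {i : Fin n} (hf : ∀ j, Full P i j) (k : Fin n) : ∀ᵐ θ : ℝ, θ ∈ Ioo 0 Real.pi →
    ∀ s₁ s₂ : ℝ, 0 ≤ s₁ → s₁ < s₂ → s₂ ≤ P.len k →
      ∃ s ∈ Ioo s₁ s₂, Rch P i (lnz P (k, θ, s)) ∨ Rch P i (rv (lnz P (k, θ, s))) := by
  have h1 : ∀ᵐ α : ℝ, ∀ (q₁ q₂ : ℚ) (N : ℕ), (0 : ℝ) < q₁ → (q₁ : ℝ) < q₂ → (q₂ : ℝ) < P.len k →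
      α ∉ A0 P i k q₁ q₂ (1 / ((N : ℝ) + 1)) := by
    rw [ae_all_iff]
    intro q₁
    rw [ae_all_iff]
    intro q₂
    rw [ae_all_iff]
    intro N
    by_cases h : (0 : ℝ) < q₁ ∧ (q₁ : ℝ) < q₂ ∧ (q₂ : ℝ) < P.len k
    · filter_upwards [fb_null P hf k h.1 h.2.1 h.2.2 (show (0 : ℝ) < 1 / ((N : ℝ) + 1) by positivity)] with α hα
      exact fun _ _ _ => hα
    · exact ae_of_all _ fun α a1 a2 a3 => absurd ⟨a1, a2, a3⟩ h
  have h2 : ∀ᵐ θ : ℝ, ∀ (q₁ q₂ : ℚ) (N : ℕ), (0 : ℝ) < q₁ → (q₁ : ℝ) < q₂ → (q₂ : ℝ) < P.len k →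
      Complex.arg (P.dir k) + θ ∉ A0 P i k q₁ q₂ (1 / ((N : ℝ) + 1)) :=
    (measurePreserving_add_left volume (Complex.arg (P.dir k))).quasiMeasurePreserving.ae h1
  filter_upwards [h2] with θ hθ hθ0 s₁ s₂ hs0 hs12 hs2
  by_contra hno
  obtain ⟨q₁, hq1, hq1'⟩ := exists_rat_btwn hs12
  obtain ⟨q₂, hq2, hq2'⟩ := exists_rat_btwn hq1'
  have hsin : 0 < Real.sin θ := Real.sin_pos_of_mem_Ioo hθ0
  obtain ⟨N, hN⟩ := exists_nat_one_div_lt hsin
  refine hθ q₁ q₂ N (lt_of_le_of_lt hs0 hq1) hq2 (lt_of_lt_of_le hq2' hs2) ⟨?_, ?_, ?_⟩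
  · rw [add_sub_cancel_left]
    exact hθ0
  · rw [add_sub_cancel_left]
    exact hN
  · intro s hs
    have hs' : s ∈ Ioo s₁ s₂ := ⟨hq1.trans hs.1, hs.2.trans hq2'⟩
    rw [← fa_lnz]
    exact ⟨fun h => hno ⟨s, hs', Or.inl h⟩, fun h => hno ⟨s, hs', Or.inr h⟩⟩

end Pool.Agent.GRM
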