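import Pool.Agent.GRM.Opn

/-! GRM-FibE: from dense fibres to invariant sets with null boundary in almost every fibre (imports Opn; measure theory).

Fubini and the topology of the fibres. -/

namespace Pool.Agent.GRM

open Bil62 Bil62.ConvexPolygon MeasureTheory Set

variable {n : ℕ} [NeZero n] (P : ConvexPolygon n)

private theorem fib_line {I A Zs : Set ℝ} {L : ℝ} (hI : I = Ioo 0 L) (hZ : IsOpen Zs)
    (h0 : volume {s | s ∈ I ∧ s ∈ Zs ∧ s ∉ A} = 0)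
    (hfib : ∀ s₁ s₂ : ℝ, 0 ≤ s₁ → s₁ < s₂ → s₂ ≤ L → ∃ s ∈ Ioo s₁ s₂, s ∈ Zs)
    (hfr : volume (frontier {s | s ∈ I ∧ s ∈ A}) = 0) : volume {s | s ∈ I ∧ s ∉ A} = 0 := by
  have hIo : IsOpen I := by
    rw [hI]
    exact isOpen_Ioo
  have hO : interior {s | s ∈ I ∧ s ∉ A} = ∅ := by
    rw [eq_empty_iff_forall_notMem]
    intro x hx
    obtain ⟨ε, hε, hb⟩ := Metric.isOpen_iff.1 isOpen_interior x hx
    have hb' : ∀ s : ℝ, |s - x| < ε → s ∈ I ∧ s ∉ A := by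
      intro s hs
      have h := hb (show s ∈ Metric.ball x ε by rwa [Metric.mem_ball, Real.dist_eq])
      have h' : s ∈ {s | s ∈ I ∧ s ∉ A} := interior_subset h
      exact h'
    have h1 := (hb' (x - ε / 2) (by rw [abs_lt]; constructor <;> linarith)).1
    have h2 := (hb' (x + ε / 2) (by rw [abs_lt]; constructor <;> linarith)).1
    rw [hI] at h1 h2
    obtain ⟨s, hs, hsZ⟩ := hfib (x - ε / 2) (x + ε / 2) h1.1.le (by linarith) h2.2.le
    have hV : IsOpen (Ioo (x - ε / 2) (x + ε / 2) ∩ Zs) := isOpen_Ioo.inter hZ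
    have hpos := hV.measure_pos volume ⟨s, hs, hsZ⟩
    refine hpos.ne' (measure_mono_null ?_ h0)
    rintro y ⟨hy, hyZ⟩
    have h3 := hb' y (by rw [abs_lt]; constructor <;> linarith [hy.1, hy.2])
    exact ⟨h3.1, hyZ, h3.2⟩
  refine measure_mono_null ?_ hfr
  rintro s ⟨hs, hsA⟩
  rw [frontier, mem_sdiff]
  refine ⟨?_, fun h => hsA (interior_subset h).2⟩
  by_contra hc
  have h1 : s ∈ interior {s | s ∈ I ∧ s ∉ A} := by
    rw [mem_interior]
    refine ⟨I ∩ (closure {s | s ∈ I ∧ s ∈ A})ᶜ, ?_, hIo.inter isClosed_closure.isOpen_compl, hs, hc⟩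
    rintro y ⟨hy, hy'⟩
    exact ⟨hy, fun hyA => hy' (subset_closure ⟨hy, hyA⟩)⟩
  rw [hO] at h1
  exact h1

theorem fibE {Z M : Set (Fin n × ℝ × ℝ)} (hZ : IsOpen Z) (hM : MeasurableSet M) (h0 : P.mu (Z \ M) = 0)
    (hfib : ∀ k, ∀ᵐ θ : ℝ, θ ∈ Ioo 0 Real.pi → ∀ s₁ s₂ : ℝ, 0 ≤ s₁ → s₁ < s₂ → s₂ ≤ P.len k →
      ∃ s ∈ Ioo s₁ s₂, (k, θ, s) ∈ Z)
    (hfr : ∀ k, ∀ᵐ θ : ℝ, θ ∈ Ioo 0 Real.pi →
      volume (frontier {s | s ∈ Ioo 0 (P.len k) ∧ (k, θ, s) ∈ M}) = 0) : P.mu Mᶜ = 0 := by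
  have hmk : ∀ k, Continuous (fun x : ℝ × ℝ => ((k, x) : Fin n × ℝ × ℝ)) := fun k =>
    continuous_const.prodMk continuous_id
  have hR : ∀ k, MeasurableSet (Ioo 0 Real.pi ×ˢ Ioo 0 (P.len k)) := fun k =>
    measurableSet_Ioo.prod measurableSet_Ioo
  rw [P.mu_apply (hZ.measurableSet.diff hM)] at h0
  rw [P.mu_apply hM.compl]
  refine Finset.sum_eq_zero fun k _ => ?_
  have h1 : P.nu k {x | (k, x) ∈ Z \ M} = 0 := (Finset.sum_eq_zero_iff.1 h0) k (Finset.mem_univ k)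
  have hm1 : MeasurableSet {x : ℝ × ℝ | (k, x) ∈ Z \ M} :=
    (hmk k).measurable (hZ.measurableSet.diff hM)
  have hm2 : MeasurableSet {x : ℝ × ℝ | (k, x) ∈ Mᶜ} := (hmk k).measurable hM.compl
  have hac : volume.restrict (Ioo 0 Real.pi ×ˢ Ioo 0 (P.len k)) ≪ P.nu k := by
    refine withDensity_absolutelyContinuous' ?_ ?_
    · exact (ENNReal.measurable_ofReal.comp (Real.measurable_sin.comp measurable_fst)).aemeasurable
    · rw [ae_restrict_iff' (hR k)]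
      refine Filter.Eventually.of_forall fun x hx => ?_
      have := Real.sin_pos_of_mem_Ioo hx.1
      rw [ne_eq, ENNReal.ofReal_eq_zero, not_le]
      exact this
  have h2 := hac h1
  rw [Measure.restrict_apply hm1, Measure.volume_eq_prod,
    Measure.measure_prod_null (hm1.inter (hR k))] at h2
  have hac' : P.nu k ≪ volume.restrict (Ioo 0 Real.pi ×ˢ Ioo 0 (P.len k)) :=
    withDensity_absolutelyContinuous _ _
  apply hac'
  rw [Measure.restrict_apply hm2, Measure.volume_eq_prod,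
    Measure.measure_prod_null (hm2.inter (hR k))]
  filter_upwards [h2, hfib k, hfr k] with θ h3 h4 h5
  by_cases hθ : θ ∈ Ioo 0 Real.pi
  · have h6 := fib_line (I := Ioo 0 (P.len k)) (A := {s | (k, θ, s) ∈ M}) (Zs := {s | (k, θ, s) ∈ Z})
      rfl (hZ.preimage ((hmk k).comp (continuous_const.prodMk continuous_id))) (by
        refine measure_mono_null ?_ h3
        rintro s ⟨hs, hsZ, hsM⟩
        exact ⟨⟨hsZ, hsM⟩, hθ, hs⟩) (h4 hθ) (h5 hθ)
    refine measure_mono_null ?_ h6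
    rintro s ⟨hsM, _, hs⟩
    exact ⟨hs, hsM⟩
  · have h6 : Prod.mk θ ⁻¹' ({x : ℝ × ℝ | (k, x) ∈ Mᶜ} ∩ Ioo 0 Real.pi ×ˢ Ioo 0 (P.len k)) = ∅ := by
      rw [eq_empty_iff_forall_notMem]
      rintro s ⟨_, hs, _⟩
      exact hθ hs
    rw [h6, measure_empty]
    rfl

end Pool.Agent.GRM
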