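import Pool.Agent.GRM.Bas2

/-! GRM-InjP: total measure of disjoint pieces of the cylinder.

The pieces are cut by the strips `2πm ≤ z.1 < 2π(m+1)` and translated to the first strip, where they are disjoint. -/

namespace Pool.Agent.GRM

open MeasureTheory Set

private def ij_D (m : ℤ) : Set (ℝ × ℝ) :=
  {z | z.1 ∈ Ico (2 * Real.pi * m) (2 * Real.pi * (m + 1))}

private theorem ij_D_meas (m : ℤ) : MeasurableSet (ij_D m) :=
  measurable_fst measurableSet_Ico

private theorem ij_D_ex (z : ℝ × ℝ) : ∃ m : ℤ, z ∈ ij_D m := by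
  have hp : 0 < 2 * Real.pi := by positivity
  refine ⟨⌊z.1 / (2 * Real.pi)⌋, ?_, ?_⟩
  · have h1 := Int.floor_le (z.1 / (2 * Real.pi))
    rw [le_div_iff₀ hp] at h1
    linarith
  · have h1 := Int.lt_floor_add_one (z.1 / (2 * Real.pi))
    rw [div_lt_iff₀ hp] at h1
    linarith

private theorem ij_D_uniq {z : ℝ × ℝ} {m m' : ℤ} (h : z ∈ ij_D m) (h' : z ∈ ij_D m') : m = m' := by
  have hp : 0 < 2 * Real.pi := by positivity
  obtain ⟨h1, h2⟩ := h
  obtain ⟨h3, h4⟩ := h'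
  have h5 : (m : ℝ) < m' + 1 := lt_of_mul_lt_mul_left (h1.trans_lt h4) hp.le
  have h6 : (m' : ℝ) < m + 1 := lt_of_mul_lt_mul_left (h3.trans_lt h2) hp.le
  have h7 : m < m' + 1 := by exact_mod_cast h5
  have h8 : m' < m + 1 := by exact_mod_cast h6
  omega

private noncomputable def ij_a (m : ℤ) : ℝ × ℝ := (2 * Real.pi * m, 0)

private def ij_C {ι : Type} (B : ι → Set (ℝ × ℝ)) (p : ι × ℤ) : Set (ℝ × ℝ) :=
  (fun z => z + ij_a p.2) ⁻¹' (B p.1 ∩ ij_D p.2)

theorem injP {ι : Type} [Countable ι] (B : ι → Set (ℝ × ℝ)) (hm : ∀ j, MeasurableSet (B j)) (R : ℝ)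
    (hR : ∀ j, ∀ z ∈ B j, |z.2| ≤ R)
    (hinj : ∀ j j', ∀ z ∈ B j, ∀ z' ∈ B j', uv z.1 = uv z'.1 → z.2 = z'.2 → j = j' ∧ z = z') :
    ∑' j, volume (B j) ≤ ENNReal.ofReal (2 * Real.pi * (2 * R)) := by
  have hC : ∀ p : ι × ℤ, MeasurableSet (ij_C B p) := fun p =>
    (measurable_add_const (ij_a p.2)) ((hm p.1).inter (ij_D_meas p.2))
  have hvC : ∀ p : ι × ℤ, volume (ij_C B p) = volume (B p.1 ∩ ij_D p.2) := fun p =>
    measure_preimage_add_right volume (ij_a p.2) (B p.1 ∩ ij_D p.2)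
  have hB : ∀ j, volume (B j) = ∑' m : ℤ, volume (ij_C B (j, m)) := by
    intro j
    have h1 : B j = ⋃ m : ℤ, B j ∩ ij_D m := by
      ext z
      rw [mem_iUnion]
      constructor
      · intro hz
        obtain ⟨m, hm'⟩ := ij_D_ex z
        exact ⟨m, hz, hm'⟩
      · rintro ⟨m, hz, _⟩
        exact hz
    have h2 : Pairwise (Function.onFun Disjoint fun m : ℤ => B j ∩ ij_D m) := by
      intro m m' hne
      refine Set.disjoint_left.2 fun z hz hz' => hne (ij_D_uniq hz.2 hz'.2)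
    conv_lhs => rw [h1]
    rw [measure_iUnion h2 fun m => (hm j).inter (ij_D_meas m)]
    exact tsum_congr fun m => (hvC (j, m)).symm
  have hsum : ∑' j, volume (B j) = ∑' p : ι × ℤ, volume (ij_C B p) := by
    rw [tsum_congr hB]
    exact (ENNReal.tsum_prod (f := fun j m => volume (ij_C B (j, m)))).symm
  have hdisj : Pairwise (Function.onFun Disjoint (ij_C B)) := by
    rintro ⟨j, m⟩ ⟨j', m'⟩ hne
    refine Set.disjoint_left.2 fun z hz hz' => hne ?_
    obtain ⟨h1, h2⟩ := hz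
    obtain ⟨h3, h4⟩ := hz'
    have h5 : uv (z + ij_a m).1 = uv (z + ij_a m').1 := by
      have hu : ∀ k : ℤ, uv (z + ij_a k).1 = uv z.1 := by
        intro k
        unfold uv
        rw [Complex.exp_eq_exp_iff_exists_int]
        refine ⟨k, ?_⟩
        change ((z.1 + 2 * Real.pi * k : ℝ) : ℂ) * Complex.I = _
        push_cast
        ring
      rw [hu, hu]
    have h6 : (z + ij_a m).2 = (z + ij_a m').2 := rfl
    obtain ⟨h7, h8⟩ := hinj j j' (z + ij_a m) h1 (z + ij_a m') h3 h5 h6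
    have h9 : m = m' := by
      change z + ij_a m' ∈ ij_D m' at h4
      rw [← h8] at h4
      exact ij_D_uniq h2 h4
    rw [h7, h9]
  rw [hsum, ← measure_iUnion hdisj hC]
  have hsub : (⋃ p, ij_C B p) ⊆ Ico 0 (2 * Real.pi) ×ˢ Icc (-R) R := by
    intro z hz
    rw [mem_iUnion] at hz
    obtain ⟨⟨j, m⟩, h1, h2, h3⟩ := hz
    change 2 * Real.pi * (m : ℝ) ≤ z.1 + 2 * Real.pi * m at h2
    change z.1 + 2 * Real.pi * m < 2 * Real.pi * ((m : ℝ) + 1) at h3
    have h4 := hR j _ h1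
    have h5 : (z + ij_a m).2 = z.2 := by
      change z.2 + 0 = z.2
      ring
    rw [h5, abs_le] at h4
    refine ⟨⟨by linarith, by linarith⟩, h4⟩
  refine (measure_mono hsub).trans ?_
  rw [Measure.volume_eq_prod, Measure.prod_prod, Real.volume_Ico, Real.volume_Icc,
    ENNReal.ofReal_mul (by positivity)]
  apply le_of_eq
  congr 2
  · ring
  · ring


theorem injL {ι : Type} [Countable ι] (B : ι → Set ℝ) (hm : ∀ j, MeasurableSet (B j))
    (hinj : ∀ j j', ∀ z ∈ B j, ∀ z' ∈ B j', uv z = uv z' → j = j' ∧ z = z') :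
    ∑' j, volume (B j) ≤ ENNReal.ofReal (2 * Real.pi) := by
  have h1 := injP (fun j => B j ×ˢ Icc (-(1 / 2) : ℝ) (1 / 2))
    (fun j => (hm j).prod measurableSet_Icc) (1 / 2)
    (fun j z hz => abs_le.2 ⟨hz.2.1, hz.2.2⟩)
    (fun j j' z hz z' hz' h h' => by
      obtain ⟨h2, h3⟩ := hinj j j' z.1 hz.1 z'.1 hz'.1 h
      exact ⟨h2, Prod.ext h3 h'⟩)
  have h2 : ∀ j, volume (B j ×ˢ Icc (-(1 / 2) : ℝ) (1 / 2)) = volume (B j) := by
    intro j
    rw [Measure.volume_eq_prod, Measure.prod_prod, Real.volume_Icc]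
    have : (1 / 2 : ℝ) - -(1 / 2) = 1 := by norm_num
    rw [this, ENNReal.ofReal_one, mul_one]
  rw [tsum_congr h2] at h1
  have h3 : 2 * Real.pi * (2 * (1 / 2)) = 2 * Real.pi := by ring
  rwa [h3] at h1


end Pool.Agent.GRM
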