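import Mathlib

/-! GRM-Strip: area of a strip over a measurable set (Mathlib only).

PLAN.  Measurability: preimages under measurable maps.  Volume: `Measure.volume_eq_prod`, `Measure.prod_apply`: the slice over `β` is empty if
`ε * (β - c) ∉ A` and an open interval of length `w` otherwise (`η = 1`: `(g, g + w)`, `η = -1`: `(g - w, g)`); the set of the `β` with
`ε * (β - c) ∈ A` has measure `volume A` (translation and reflection). -/

namespace Pool.Agent.GRM

open MeasureTheory Set

/-- a strip -/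
def stp (A : Set ℝ) (c ε η w : ℝ) (g : ℝ → ℝ) : Set (ℝ × ℝ) :=
  {z | ε * (z.1 - c) ∈ A ∧ η * (z.2 - g (ε * (z.1 - c))) ∈ Ioo 0 w}

theorem measurableSet_stp {A : Set ℝ} (hA : MeasurableSet A) (c ε η w : ℝ) {g : ℝ → ℝ}
    (hg : Measurable g) : MeasurableSet (stp A c ε η w g) := by
  have h1 : Measurable fun z : ℝ × ℝ => ε * (z.1 - c) := (measurable_fst.sub_const c).const_mul ε
  have h2 : Measurable fun z : ℝ × ℝ => η * (z.2 - g (ε * (z.1 - c))) :=
    (measurable_snd.sub (hg.comp h1)).const_mul η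
  exact (h1 hA).inter (h2 measurableSet_Ioo)

theorem measurableSet_lin {A : Set ℝ} (hA : MeasurableSet A) (c ε : ℝ) :
    MeasurableSet {β : ℝ | ε * (β - c) ∈ A} := by
  have h1 : Measurable fun β : ℝ => ε * (β - c) := (measurable_id.sub_const c).const_mul ε
  exact h1 hA

theorem volume_lin {A : Set ℝ} (hA : MeasurableSet A) (c : ℝ) {ε : ℝ} (hε : ε = 1 ∨ ε = -1) :
    volume {β : ℝ | ε * (β - c) ∈ A} = volume A := by
  rcases hε with rfl | rfl
  · have h1 := (measurePreserving_sub_right (volume : Measure ℝ) c).measure_preimage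
      hA.nullMeasurableSet
    rw [← h1]
    congr 1
    ext β
    simp only [mem_ofPred_eq, mem_preimage, one_mul]
  · have h1 := (Measure.measurePreserving_sub_left (volume : Measure ℝ) c).measure_preimage
      hA.nullMeasurableSet
    rw [← h1]
    congr 1
    ext β
    simp only [mem_ofPred_eq, mem_preimage, neg_mul, one_mul, neg_sub]

theorem volume_stp {A : Set ℝ} (hA : MeasurableSet A) (c : ℝ) {ε η w : ℝ} (hε : ε = 1 ∨ ε = -1)
    (hη : η = 1 ∨ η = -1) {g : ℝ → ℝ} (hg : Measurable g) :
    volume (stp A c ε η w g) = volume A * ENNReal.ofReal w := by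
  have h1 : ∀ β : ℝ, volume (Prod.mk β ⁻¹' stp A c ε η w g) =
      {β : ℝ | ε * (β - c) ∈ A}.indicator (fun _ => ENNReal.ofReal w) β := by
    intro β
    by_cases hβ : ε * (β - c) ∈ A
    · rw [indicator_of_mem (show β ∈ {β : ℝ | ε * (β - c) ∈ A} from hβ)]
      have h2 : Prod.mk β ⁻¹' stp A c ε η w g =
          {y : ℝ | η * (y - g (ε * (β - c))) ∈ Ioo 0 w} := by
        ext y
        exact ⟨fun h => h.2, fun h => ⟨hβ, h⟩⟩
      rw [h2, volume_lin measurableSet_Ioo _ hη, Real.volume_Ioo, sub_zero]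
    · rw [indicator_of_notMem (show β ∉ {β : ℝ | ε * (β - c) ∈ A} from hβ)]
      have h2 : Prod.mk β ⁻¹' stp A c ε η w g = ∅ := by
        ext y
        exact ⟨fun h => hβ h.1, fun h => h.elim⟩
      rw [h2, measure_empty]
  rw [Measure.volume_eq_prod, Measure.prod_apply (measurableSet_stp hA c ε η w hg)]
  rw [lintegral_congr h1, lintegral_indicator_const (measurableSet_lin hA c ε),
    volume_lin hA c hε, mul_comm]

end Pool.Agent.GRM
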