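import Pool.Agent.GRM.Bas2
import Pool.Agent.GRM.Vtx
import Pool.Agent.GRM.Det
import Pool.Agent.GRM.InjP
import Pool.Agent.GRM.Strip

/-! GRM-GerE: the events have finite total measure (imports Bas2, Vtx, Det, InjP, Strip).

The line at the end of the gap depends only on the direction `uv (cw ω + sg ω * α)`, so by `det2` the numbers
`cw ω + sg ω * α`, `α ∈ A ω`, are different modulo `2π` for words of the same parity; `injL` bounds their measure. -/

namespace Pool.Agent.GRM

open Bil62 Bil62.ConvexPolygon MeasureTheory Set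

variable {n : ℕ} [NeZero n] (P : ConvexPolygon n)

private theorem sh_hit' {c : ℝ} (h : c * c = 1) (y : ℂ × ℝ) (p : ℝ) :
    sh (c * (c * (p - y.2))) y = (y.1, p) := by
  unfold sh
  ext1
  · rfl
  · show y.2 + c * (c * (p - y.2)) = p
    have h1 : c * (c * (p - y.2)) = (c * c) * (p - y.2) := by ring
    rw [h1, h]
    ring

private theorem uv_inj' {α α' : ℝ} (h : α ∈ Ico 0 (2 * Real.pi)) (h' : α' ∈ Ico 0 (2 * Real.pi))
    (he : uv α = uv α') : α = α' := by
  obtain ⟨m, hm⟩ := (uv_eq_iff α α').1 he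
  have hp : 0 < 2 * Real.pi := by positivity
  have h1 : ((m : ℤ) : ℝ) < 1 := by
    by_contra hc
    push Not at hc
    have := mul_le_mul_of_nonneg_right hc hp.le
    linarith [h.2, h'.1]
  have h2 : (-1 : ℝ) < ((m : ℤ) : ℝ) := by
    by_contra hc
    push Not at hc
    have := mul_le_mul_of_nonneg_right hc hp.le
    linarith [h.1, h'.2]
  have h3 : m < 1 := by exact_mod_cast h1
  have h4 : -1 < m := by exact_mod_cast h2
  have h5 : m = 0 := by omega
  rw [hm, h5]
  simp

private theorem mem_part {σ : ℝ} {s : ℝ} {B : Set ℝ} {β : ℝ} [Decidable (s = σ)]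
    (h : β ∈ (if s = σ then B else (∅ : Set ℝ))) : s = σ ∧ β ∈ B := by
  by_cases hc : s = σ
  · rw [if_pos hc] at h
    exact ⟨hc, h⟩
  · rw [if_neg hc] at h
    exact absurd h (Set.notMem_empty _)

theorem gerE (i k : Fin n) {η : ℝ} (hη : η = 1 ∨ η = -1) (j : Fin n) (A : List (Fin n) → Set ℝ)
    (hm : ∀ ω, MeasurableSet (A ω)) (hA : ∀ ω, A ω ⊆ Ico 0 (2 * Real.pi))
    (h : ∀ ω, ∀ α ∈ A ω, Into P k (uv α) ∧ ¬ Rch P i (vr P k α) ∧ Wd P ω (vr P k α) ∧
      0 < η * sg ω * (cross (Tw P ω (vr P k α)).1 (P.V j) - (Tw P ω (vr P k α)).2) ∧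
      ∀ d ∈ Ioc 0 (η * sg ω * (cross (Tw P ω (vr P k α)).1 (P.V j) - (Tw P ω (vr P k α)).2)),
        Rch P i (rv (sh (η * sg ω * d) (Tw P ω (vr P k α))))) :
    ∑' ω, volume (A ω) ≠ ⊤ := by
  classical
  have hs2 : ∀ ω : List (Fin n), sg ω * sg ω = 1 := by
    intro ω
    rcases sg_eq ω with h | h <;> rw [h] <;> norm_num
  have hη2 : η * η = 1 := by
    rcases hη with h | h <;> rw [h] <;> norm_num
  have hc2 : ∀ ω : List (Fin n), (η * sg ω) * (η * sg ω) = 1 := by
    intro ω
    have h1 : (η * sg ω) * (η * sg ω) = (η * η) * (sg ω * sg ω) := by ring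
    rw [h1, hη2, hs2, mul_one]
  have key : ∀ σ : ℝ, ∑' ω : List (Fin n),
      volume (if sg ω = σ then {β : ℝ | sg ω * (β - cw P ω) ∈ A ω} else (∅ : Set ℝ)) ≤
        ENNReal.ofReal (2 * Real.pi) := by
    intro σ
    refine injL (fun ω : List (Fin n) => if sg ω = σ then {β : ℝ | sg ω * (β - cw P ω) ∈ A ω} else (∅ : Set ℝ))
      ?_ ?_
    · intro ω
      show MeasurableSet (if sg ω = σ then {β : ℝ | sg ω * (β - cw P ω) ∈ A ω} else (∅ : Set ℝ))
      split_ifs
      · exact measurableSet_lin (hm ω) _ _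
      · exact MeasurableSet.empty
    · intro ω ω' β hβ β' hβ' he
      obtain ⟨hs, ha⟩ := mem_part hβ
      obtain ⟨hs', ha'⟩ := mem_part hβ'
      have ha1 : sg ω * (β - cw P ω) ∈ A ω := ha
      have ha1' : sg ω' * (β' - cw P ω') ∈ A ω' := ha'
      have hb : cw P ω + sg ω * (sg ω * (β - cw P ω)) = β := by
        have h1 : sg ω * (sg ω * (β - cw P ω)) = (sg ω * sg ω) * (β - cw P ω) := by ring
        rw [h1, hs2]
        ring
      have hb' : cw P ω' + sg ω' * (sg ω' * (β' - cw P ω')) = β' := by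
        have h1 : sg ω' * (sg ω' * (β' - cw P ω')) = (sg ω' * sg ω') * (β' - cw P ω') := by ring
        rw [h1, hs2]
        ring
      generalize sg ω * (β - cw P ω) = α at ha1 hb
      generalize sg ω' * (β' - cw P ω') = α' at ha1' hb'
      have hy : (Tw P ω (vr P k α)).1 = uv β := by
        have h1 := Tw_uv P ω α (cross (uv α) (P.V (k + 1)))
        rw [hb] at h1
        exact h1
      have hy' : (Tw P ω' (vr P k α')).1 = uv β' := by
        have h1 := Tw_uv P ω' α' (cross (uv α') (P.V (k + 1)))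
        rw [hb'] at h1
        exact h1
      obtain ⟨hi, hnr, hw, hd, hr⟩ := h ω α ha1
      obtain ⟨hi', hnr', hw', hd', hr'⟩ := h ω' α' ha1'
      have hss : sg ω' = sg ω := by rw [hs, hs']
      have hsh := sh_hit' (hc2 ω) (Tw P ω (vr P k α)) (cross (Tw P ω (vr P k α)).1 (P.V j))
      have hsh' := sh_hit' (hc2 ω') (Tw P ω' (vr P k α')) (cross (Tw P ω' (vr P k α')).1 (P.V j))
      have hE : sh (η * sg ω * (η * sg ω * (cross (Tw P ω (vr P k α)).1 (P.V j) - (Tw P ω (vr P k α)).2)))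
            (Tw P ω (vr P k α)) =
          sh (η * sg ω' * (η * sg ω' * (cross (Tw P ω' (vr P k α')).1 (P.V j) - (Tw P ω' (vr P k α')).2)))
            (Tw P ω' (vr P k α')) := by
        rw [hsh, hsh', hy, hy', he]
      have hE2 : sh (η * sg ω * (η * sg ω * (cross (Tw P ω (vr P k α)).1 (P.V j) - (Tw P ω (vr P k α)).2)))
            (Tw P ω (vr P k α)) =
          sh (η * sg ω * (η * sg ω' * (cross (Tw P ω' (vr P k α')).1 (P.V j) - (Tw P ω' (vr P k α')).2)))
            (Tw P ω' (vr P k α')) := by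
        rw [hE, hss]
      have hr2 : ∀ t ∈ Ioc 0 (η * sg ω' * (cross (Tw P ω' (vr P k α')).1 (P.V j) - (Tw P ω' (vr P k α')).2)),
          Rch P i (rv (sh (η * sg ω * t) (Tw P ω' (vr P k α')))) := by
        intro t ht
        have h1 := hr' t ht
        rw [hss] at h1
        exact h1
      have hdet := det2 P (i := i) (norm_uv α : ‖(vr P k α).1‖ = 1) (norm_uv α' : ‖(vr P k α').1‖ = 1)
        (vr_no_En P (norm_uv α : ‖(vr P k α).1‖ = 1) rfl hi)
        (vr_no_En P (norm_uv α' : ‖(vr P k α').1‖ = 1) rfl hi') hnr hnr' hw hw' hd hd' hr hr2 hE2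
      obtain ⟨h1, h2, -⟩ := hdet
      have h3 : uv α = uv α' := congrArg Prod.fst h2
      have h4 := uv_inj' (hA ω ha1) (hA ω' ha1') h3
      refine ⟨h1, ?_⟩
      rw [← hb, ← hb', h1, h4]
  have hle : ∀ ω : List (Fin n), volume (A ω) ≤
      volume (if sg ω = (1 : ℝ) then {β : ℝ | sg ω * (β - cw P ω) ∈ A ω} else (∅ : Set ℝ)) +
      volume (if sg ω = (-1 : ℝ) then {β : ℝ | sg ω * (β - cw P ω) ∈ A ω} else (∅ : Set ℝ)) := by
    intro ω
    have hv := volume_lin (hm ω) (cw P ω) (sg_eq ω)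
    rcases sg_eq ω with h1 | h1
    · rw [if_pos h1, hv]
      exact le_self_add
    · rw [if_pos h1, hv]
      exact le_add_self
  have hsum := ENNReal.tsum_le_tsum hle
  rw [ENNReal.tsum_add] at hsum
  have hfin := le_trans hsum (add_le_add (key 1) (key (-1)))
  exact ne_top_of_le_ne_top (ENNReal.add_ne_top.2 ⟨ENNReal.ofReal_ne_top, ENNReal.ofReal_ne_top⟩) hfin

end Pool.Agent.GRM
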