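import Pool.Agent.GRM.RchA

/-! GRM-GerP: the gap beside an orbit before and after a reflection (imports Bas1, RchA).

The distance of the exit point from the ends of the exit side, and the gap after one reflection. -/

namespace Pool.Agent.GRM

open Bil62 Bil62.ConvexPolygon MeasureTheory Set

variable {n : ℕ} [NeZero n] (P : ConvexPolygon n)

theorem dist_pos {l : Fin n} {y : ℂ × ℝ} {ε : ℝ} (hε : ε = 1 ∨ ε = -1) (h : Ex P l y) :
    0 < ε * (cross y.1 (P.V (vx ε l)) - y.2) := by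
  obtain ⟨h1, h2⟩ := h
  rcases hε with rfl | rfl
  · have hv : vx (1 : ℝ) l = l + 1 := if_pos one_pos
    rw [hv]
    linarith
  · have hv : vx (-1 : ℝ) l = l := if_neg (by norm_num)
    rw [hv]
    linarith

theorem Ex_sh {l : Fin n} {y : ℂ × ℝ} {ε : ℝ} (hε : ε = 1 ∨ ε = -1) (h : Ex P l y) {d : ℝ} (hd : 0 < d)
    (hd' : d < ε * (cross y.1 (P.V (vx ε l)) - y.2)) : Ex P l (sh (ε * d) y) := by
  obtain ⟨h1, h2⟩ := h
  rcases hε with rfl | rfl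
  · have hv : vx (1 : ℝ) l = l + 1 := if_pos one_pos
    rw [hv] at hd'
    refine ⟨?_, ?_⟩
    · show cross y.1 (P.V l) < y.2 + 1 * d
      linarith
    · show y.2 + 1 * d < cross y.1 (P.V (l + 1))
      linarith
  · have hv : vx (-1 : ℝ) l = l := if_neg (by norm_num)
    rw [hv] at hd'
    refine ⟨?_, ?_⟩
    · show cross y.1 (P.V l) < y.2 + -1 * d
      linarith
    · show y.2 + -1 * d < cross y.1 (P.V (l + 1))
      linarith

private theorem gerp_one {i l : Fin n} {y : ℂ × ℝ} {ε : ℝ} (hε : ε = 1 ∨ ε = -1) (h : Ex P l y) {d : ℝ}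
    (hd : 0 < d) (hd' : d < ε * (cross y.1 (P.V (vx ε l)) - y.2)) (hr : Rch P i (rv (sh (ε * d) y))) :
    Rch P i (rv (sh (-ε * d) (T P l y))) := by
  have h1 := Rch_rv_T P (Ex_sh P hε h hd hd') hr
  rw [T_sh, ← neg_mul] at h1
  exact h1

theorem gerP_min {i l : Fin n} {y : ℂ × ℝ} {ε : ℝ} (hε : ε = 1 ∨ ε = -1) (h : Ex P l y) {w : ℝ}
    (hw : 0 < w) (hs : ∀ d ∈ Ioo 0 w, Rch P i (rv (sh (ε * d) y))) :
    ∃ w' > 0, ∀ d ∈ Ioo 0 w', Rch P i (rv (sh (-ε * d) (T P l y))) := by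
  refine ⟨min w (ε * (cross y.1 (P.V (vx ε l)) - y.2)), lt_min hw (dist_pos P hε h), fun d hd => ?_⟩
  have h1 := lt_min_iff.1 hd.2
  exact gerp_one P hε h hd.1 h1.2 (hs d ⟨hd.1, h1.1⟩)

theorem gerP_keep {i l : Fin n} {y : ℂ × ℝ} {ε : ℝ} (hε : ε = 1 ∨ ε = -1) (h : Ex P l y) {w : ℝ}
    (hs : ∀ d ∈ Ioo 0 w, Rch P i (rv (sh (ε * d) y)))
    (hne : ¬ ∀ d ∈ Ioc 0 (ε * (cross y.1 (P.V (vx ε l)) - y.2)), Rch P i (rv (sh (ε * d) y))) :
    ∀ d ∈ Ioo 0 w, Rch P i (rv (sh (-ε * d) (T P l y))) := by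
  push Not at hne
  obtain ⟨d₀, hd₀, hn⟩ := hne
  have hw : w ≤ d₀ := by
    by_contra hlt
    exact hn (hs d₀ ⟨hd₀.1, not_le.1 hlt⟩)
  intro d hd
  exact gerp_one P hε h hd.1 (hd.2.trans_le (hw.trans hd₀.2)) (hs d hd)

end Pool.Agent.GRM
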