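import Pool.Agent.GRM.Bas2
import Pool.Agent.GRM.Vtx
import Pool.Agent.GRM.Det
import Pool.Agent.GRM.InjP
import Pool.Agent.GRM.Strip

/-! GRM-GerV: the volume argument.
-/

namespace Pool.Agent.GRM

open Bil62 Bil62.ConvexPolygon MeasureTheory Set

variable {n : ℕ} [NeZero n] (P : ConvexPolygon n)

/-- the strip of the word `ω` -/
private noncomputable def gvB (k : Fin n) (η w : ℝ) (A : List (Fin n) → Set ℝ)
    (ω : List (Fin n)) : Set (ℝ × ℝ) :=
  stp (A ω) (cw P ω) (sg ω) (η * sg ω) w (fun α => (Tw P ω (vr P k α)).2)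

private theorem gv_sq (ω : List (Fin n)) : sg ω * sg ω = 1 := by
  rcases sg_eq ω with h | h <;> rw [h] <;> norm_num

private theorem gv_meas (k : Fin n) (ω : List (Fin n)) :
    Measurable (fun α => (Tw P ω (vr P k α)).2) :=
  (continuous_snd.comp ((continuous_Tw P ω).comp (continuous_vr P k))).measurable

private theorem gv_mem {k : Fin n} {η w : ℝ} (hη : η = 1 ∨ η = -1) {A : List (Fin n) → Set ℝ}
    {ω : List (Fin n)} {z : ℝ × ℝ} (hz : z ∈ gvB P k η w A ω) :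
    ∃ α ∈ A ω, ∃ d ∈ Ioo 0 w, z.1 = cw P ω + sg ω * α ∧
      z.2 = (Tw P ω (vr P k α)).2 + η * sg ω * d ∧
      (uv z.1, z.2) = sh (η * sg ω * d) (Tw P ω (vr P k α)) := by
  obtain ⟨h1, h2⟩ := hz
  have hs := gv_sq ω
  have hη2 : η * η = 1 := by
    rcases hη with h | h <;> rw [h] <;> norm_num
  have e1 : z.1 = cw P ω + sg ω * (sg ω * (z.1 - cw P ω)) := by
    rw [← mul_assoc, hs]
    ring
  have e2 : z.2 = (Tw P ω (vr P k (sg ω * (z.1 - cw P ω)))).2 +
      η * sg ω * (η * sg ω * (z.2 - (Tw P ω (vr P k (sg ω * (z.1 - cw P ω)))).2)) := by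
    have e3 : η * sg ω * (η * sg ω * (z.2 - (Tw P ω (vr P k (sg ω * (z.1 - cw P ω)))).2)) =
        (η * η) * (sg ω * sg ω) * (z.2 - (Tw P ω (vr P k (sg ω * (z.1 - cw P ω)))).2) := by ring
    rw [e3, hs, hη2]
    ring
  refine ⟨sg ω * (z.1 - cw P ω), h1,
    η * sg ω * (z.2 - (Tw P ω (vr P k (sg ω * (z.1 - cw P ω)))).2), h2, e1, e2, ?_⟩
  have e4 : (Tw P ω (vr P k (sg ω * (z.1 - cw P ω)))).1 = uv z.1 := by
    have e5 := Tw_uv P ω (sg ω * (z.1 - cw P ω))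
      (cross (uv (sg ω * (z.1 - cw P ω))) (P.V (k + 1)))
    rw [← e1] at e5
    exact e5
  refine Prod.ext ?_ ?_
  · change uv z.1 = (Tw P ω (vr P k (sg ω * (z.1 - cw P ω)))).1
    rw [e4]
  · exact e2

private theorem gv_half (i k : Fin n) {η : ℝ} (hη : η = 1 ∨ η = -1) {w : ℝ} (hw : 0 < w)
    (A : List (Fin n) → Set ℝ)
    (hm : ∀ ω, MeasurableSet (A ω)) (hA : ∀ ω, A ω ⊆ Ico 0 (2 * Real.pi))
    (h : ∀ ω, ∀ α ∈ A ω, Into P k (uv α) ∧ ¬ Rch P i (vr P k α) ∧ Wd P ω (vr P k α) ∧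
      (∃ l, Ex P l (Tw P ω (vr P k α))) ∧
      ∀ d ∈ Ioo 0 w, Rch P i (rv (sh (η * sg ω * d) (Tw P ω (vr P k α))))) (σ : ℝ) :
    ∑' ω, volume {z : ℝ × ℝ | sg ω = σ ∧ z ∈ gvB P k η w A ω} ≤
      ENNReal.ofReal (2 * Real.pi * (2 * (bd P + w))) := by
  refine injP (fun ω => {z : ℝ × ℝ | sg ω = σ ∧ z ∈ gvB P k η w A ω}) (fun ω => ?_) (bd P + w)
    (fun ω z hz => ?_) (fun ω ω' z hz z' hz' he1 he2 => ?_)
  · by_cases hs : sg ω = σ
    · have e : {z : ℝ × ℝ | sg ω = σ ∧ z ∈ gvB P k η w A ω} = gvB P k η w A ω := by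
        ext z
        exact ⟨fun h => h.2, fun h => ⟨hs, h⟩⟩
      rw [e]
      exact measurableSet_stp (hm ω) _ _ _ _ (gv_meas P k ω)
    · have e : {z : ℝ × ℝ | sg ω = σ ∧ z ∈ gvB P k η w A ω} = ∅ := by
        ext z
        exact ⟨fun h => absurd h.1 hs, fun h => absurd h (Set.notMem_empty z)⟩
      rw [e]
      exact MeasurableSet.empty
  · obtain ⟨α, hα, d, hd, -, e2, -⟩ := gv_mem P hη hz.2
    obtain ⟨-, -, -, ⟨l, hl⟩, -⟩ := h ω α hα
    have hn : ‖(Tw P ω (vr P k α)).1‖ = 1 := by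
      have e5 := Tw_uv P ω α (cross (uv α) (P.V (k + 1)))
      change ‖(Tw P ω (uv α, cross (uv α) (P.V (k + 1)))).1‖ = 1
      rw [e5]
      exact norm_uv _
    have h1 := bd_Ex P hn hl
    rw [e2]
    refine (abs_add_le _ _).trans (add_le_add h1 ?_)
    rw [abs_mul, abs_mul, abs_of_pos hd.1]
    have h2 : |η| = 1 := by
      rcases hη with h | h <;> rw [h] <;> norm_num
    have h3 : |sg ω| = 1 := by
      rcases sg_eq ω with h | h <;> rw [h] <;> norm_num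
    rw [h2, h3, one_mul, one_mul]
    exact hd.2.le
  · obtain ⟨α, hα, d, hd, e1, e2, e3⟩ := gv_mem P hη hz.2
    obtain ⟨α', hα', d', hd', e1', e2', e3'⟩ := gv_mem P hη hz'.2
    obtain ⟨hI, hN, hW, -, hR⟩ := h ω α hα
    obtain ⟨hI', hN', hW', -, hR'⟩ := h ω' α' hα'
    have hs : sg ω = σ := hz.1
    have hs' : sg ω' = σ := hz'.1
    rw [he1, he2, e3'] at e3
    rw [hs] at hR e3
    rw [hs'] at hR' e3
    obtain ⟨c1, c2, c3⟩ := det2 P (i := i) (ε := η * σ) (x := vr P k α) (x' := vr P k α')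
      (norm_uv α) (norm_uv α')
      (vr_no_En P (norm_uv α) rfl hI) (vr_no_En P (norm_uv α') rfl hI') hN hN' hW hW' hd.1 hd'.1
      (fun t ht => hR t ⟨ht.1, lt_of_le_of_lt ht.2 hd.2⟩)
      (fun t ht => hR' t ⟨ht.1, lt_of_le_of_lt ht.2 hd'.2⟩) e3.symm
    have c4 : uv α = uv α' := congrArg Prod.fst c2
    obtain ⟨m, hmm⟩ := (uv_eq_iff α α').1 c4
    have r1 := hA ω hα
    have r2 := hA ω' hα'
    have hm0 : m = 0 := by
      have hpi := Real.two_pi_pos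
      have u1 : (m : ℝ) < 1 := by
        by_contra hc
        push Not at hc
        nlinarith [r1.2, r2.1]
      have u2 : (-1 : ℝ) < m := by
        by_contra hc
        push Not at hc
        nlinarith [r1.1, r2.2]
      have u3 : m < 1 := by exact_mod_cast u1
      have u4 : -1 < m := by exact_mod_cast u2
      omega
    have c5 : α = α' := by
      rw [hmm, hm0]
      simp
    refine ⟨c1, Prod.ext ?_ he2⟩
    rw [e1, e1', ← c1, c5]

theorem gerV (i k : Fin n) {η : ℝ} (hη : η = 1 ∨ η = -1) {w : ℝ} (hw : 0 < w) (A : List (Fin n) → Set ℝ)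
    (hm : ∀ ω, MeasurableSet (A ω)) (hA : ∀ ω, A ω ⊆ Ico 0 (2 * Real.pi))
    (h : ∀ ω, ∀ α ∈ A ω, Into P k (uv α) ∧ ¬ Rch P i (vr P k α) ∧ Wd P ω (vr P k α) ∧
      (∃ l, Ex P l (Tw P ω (vr P k α))) ∧
      ∀ d ∈ Ioo 0 w, Rch P i (rv (sh (η * sg ω * d) (Tw P ω (vr P k α))))) :
    ∑' ω, volume (A ω) ≠ ⊤ := by
  have b1 := gv_half P i k hη hw A hm hA h 1
  have b2 := gv_half P i k hη hw A hm hA h (-1)
  have hv : ∀ ω, volume (A ω) * ENNReal.ofReal w =
      volume {z : ℝ × ℝ | sg ω = 1 ∧ z ∈ gvB P k η w A ω} +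
        volume {z : ℝ × ℝ | sg ω = -1 ∧ z ∈ gvB P k η w A ω} := by
    intro ω
    have hηs : η * sg ω = 1 ∨ η * sg ω = -1 := by
      rcases hη with h1 | h1 <;> rcases sg_eq ω with h2 | h2 <;> rw [h1, h2] <;> norm_num
    have h3 : volume (gvB P k η w A ω) = volume (A ω) * ENNReal.ofReal w :=
      volume_stp (hm ω) _ (sg_eq ω) hηs (gv_meas P k ω)
    rw [← h3]
    rcases sg_eq ω with h2 | h2
    · have e : {z : ℝ × ℝ | sg ω = 1 ∧ z ∈ gvB P k η w A ω} = gvB P k η w A ω := by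
        ext z
        exact ⟨fun h => h.2, fun h => ⟨h2, h⟩⟩
      have e' : {z : ℝ × ℝ | sg ω = -1 ∧ z ∈ gvB P k η w A ω} = ∅ := by
        ext z
        refine ⟨fun h => ?_, fun h => absurd h (Set.notMem_empty z)⟩
        have h4 := h.1
        rw [h2] at h4
        norm_num at h4
      rw [e, e', measure_empty, add_zero]
    · have e : {z : ℝ × ℝ | sg ω = -1 ∧ z ∈ gvB P k η w A ω} = gvB P k η w A ω := by
        ext z
        exact ⟨fun h => h.2, fun h => ⟨h2, h⟩⟩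
      have e' : {z : ℝ × ℝ | sg ω = 1 ∧ z ∈ gvB P k η w A ω} = ∅ := by
        ext z
        refine ⟨fun h => ?_, fun h => absurd h (Set.notMem_empty z)⟩
        have h4 := h.1
        rw [h2] at h4
        norm_num at h4
      rw [e, e', measure_empty, zero_add]
  intro htop
  have h1 : (∑' ω, volume (A ω)) * ENNReal.ofReal w ≤
      ENNReal.ofReal (2 * Real.pi * (2 * (bd P + w))) +
        ENNReal.ofReal (2 * Real.pi * (2 * (bd P + w))) := by
    rw [← ENNReal.tsum_mul_right]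
    simp only [hv]
    rw [ENNReal.tsum_add]
    exact add_le_add b1 b2
  have hw0 : ENNReal.ofReal w ≠ 0 := by
    rw [Ne, ENNReal.ofReal_eq_zero]
    push Not
    exact hw
  rw [htop, ENNReal.top_mul hw0] at h1
  have h2 := lt_of_le_of_lt h1 (ENNReal.add_lt_top.2 ⟨ENNReal.ofReal_lt_top, ENNReal.ofReal_lt_top⟩)
  exact absurd h2 (lt_irrefl _)

end Pool.Agent.GRM
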