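import Pool.Agent.GRM.Bas2

/-! GRM-MsG: measurability (imports Bas2).

`ms_Ioc`, `ms_Ioo`: for compact `K` the set `{α | ∀ s ∈ K, f (α, s * D α) ∈ U}` is open (tube lemma); the sets in question are
countable intersections of unions of such sets (`K = Icc (1/(q+2)) 1`, resp. `Icc (1/(q+2)) (1 - 1/(q+2))`) with `{D ≤ 0}`.
The other sets are preimages of open sets, or countable intersections of countable unions of such preimages. -/

namespace Pool.Agent.GRM

open Bil62 Bil62.ConvexPolygon MeasureTheory Set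

private theorem ms_tube {U : Set (ℂ × ℝ)} (hU : IsOpen U) {g : ℝ × ℝ → ℂ × ℝ} (hg : Continuous g)
    {K : Set ℝ} (hK : IsCompact K) : IsOpen {α : ℝ | ∀ s ∈ K, g (α, s) ∈ U} := by
  rw [isOpen_iff_eventually]
  intro a ha
  apply hK.eventually_forall_of_forall_eventually
  intro s hs
  exact hg.continuousAt.eventually (hU.mem_nhds (ha s hs))

private theorem ms_gen {U : Set (ℂ × ℝ)} (hU : IsOpen U) {f : ℝ × ℝ → ℂ × ℝ} (hf : Continuous f)
    {D : ℝ → ℝ} (hD : Continuous D) {I : Set ℝ} {K : ℕ → Set ℝ} (hK : ∀ q, IsCompact (K q))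
    (hI : I = ⋃ q, K q) :
    MeasurableSet {α | 0 < D α → ∀ s ∈ I, f (α, s * D α) ∈ U} := by
  have h1 : {α | 0 < D α → ∀ s ∈ I, f (α, s * D α) ∈ U} =
      {α | D α ≤ 0} ∪ ⋂ q, {α | ∀ s ∈ K q, f (α, s * D α) ∈ U} := by
    ext α
    simp only [mem_ofPred_eq, mem_union, mem_iInter]
    constructor
    · intro h
      rcases le_or_gt (D α) 0 with h2 | h2
      · exact Or.inl h2
      · refine Or.inr fun q s hs => h h2 s ?_
        rw [hI]
        exact mem_iUnion.2 ⟨q, hs⟩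
    · rintro (h | h) h2 s hs
      · exact absurd h (not_le.2 h2)
      · rw [hI] at hs
        obtain ⟨q, hq⟩ := mem_iUnion.1 hs
        exact h q s hq
  rw [h1]
  refine (isClosed_le hD continuous_const).measurableSet.union
    (MeasurableSet.iInter fun q => IsOpen.measurableSet ?_)
  exact ms_tube hU (g := fun z => f (z.1, z.2 * D z.1))
    (hf.comp (continuous_fst.prodMk (continuous_snd.mul (hD.comp continuous_fst)))) (hK q)

private theorem ms_small {x : ℝ} (hx : 0 < x) : ∃ q : ℕ, 1 / ((q : ℝ) + 2) ≤ x := by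
  obtain ⟨q, hq⟩ := exists_nat_one_div_lt hx
  refine ⟨q, le_trans ?_ hq.le⟩
  apply one_div_le_one_div_of_le
  · positivity
  · linarith

theorem ms_Ioc {U : Set (ℂ × ℝ)} (hU : IsOpen U) {f : ℝ × ℝ → ℂ × ℝ} (hf : Continuous f) {D : ℝ → ℝ}
    (hD : Continuous D) : MeasurableSet {α | ∀ d ∈ Ioc 0 (D α), f (α, d) ∈ U} := by
  have h1 : {α | ∀ d ∈ Ioc 0 (D α), f (α, d) ∈ U} =
      {α | 0 < D α → ∀ s ∈ Ioc (0 : ℝ) 1, f (α, s * D α) ∈ U} := by
    ext α
    constructor
    · intro h h2 s hs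
      exact h _ ⟨mul_pos hs.1 h2, mul_le_of_le_one_left h2.le hs.2⟩
    · intro h d hd
      have h2 : 0 < D α := lt_of_lt_of_le hd.1 hd.2
      have h3 := h h2 (d / D α) ⟨div_pos hd.1 h2, (div_le_one h2).2 hd.2⟩
      rwa [div_mul_cancel₀ _ h2.ne'] at h3
  rw [h1]
  refine ms_gen hU hf hD (K := fun q : ℕ => Icc (1 / ((q : ℝ) + 2)) 1) (fun q => isCompact_Icc) ?_
  ext s
  simp only [mem_iUnion, mem_Ioc, mem_Icc]
  constructor
  · rintro ⟨h2, h3⟩
    obtain ⟨q, hq⟩ := ms_small h2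
    exact ⟨q, hq, h3⟩
  · rintro ⟨q, h2, h3⟩
    refine ⟨lt_of_lt_of_le ?_ h2, h3⟩
    positivity

theorem ms_Ioo {U : Set (ℂ × ℝ)} (hU : IsOpen U) {f : ℝ × ℝ → ℂ × ℝ} (hf : Continuous f) {D : ℝ → ℝ}
    (hD : Continuous D) : MeasurableSet {α | ∀ d ∈ Ioo 0 (D α), f (α, d) ∈ U} := by
  have h1 : {α | ∀ d ∈ Ioo 0 (D α), f (α, d) ∈ U} =
      {α | 0 < D α → ∀ s ∈ Ioo (0 : ℝ) 1, f (α, s * D α) ∈ U} := by
    ext α
    constructor
    · intro h h2 s hs
      exact h _ ⟨mul_pos hs.1 h2, mul_lt_of_lt_one_left h2 hs.2⟩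
    · intro h d hd
      have h2 : 0 < D α := hd.1.trans hd.2
      have h3 := h h2 (d / D α) ⟨div_pos hd.1 h2, (div_lt_one h2).2 hd.2⟩
      rwa [div_mul_cancel₀ _ h2.ne'] at h3
  rw [h1]
  refine ms_gen hU hf hD (K := fun q : ℕ => Icc (1 / ((q : ℝ) + 2)) (1 - 1 / ((q : ℝ) + 2)))
    (fun q => isCompact_Icc) ?_
  ext s
  simp only [mem_iUnion, mem_Ioo, mem_Icc]
  constructor
  · rintro ⟨h2, h3⟩
    obtain ⟨q, hq⟩ := ms_small (lt_min h2 (sub_pos.2 h3))
    have h4 := min_le_left s (1 - s)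
    have h5 := min_le_right s (1 - s)
    exact ⟨q, by linarith, by linarith⟩
  · rintro ⟨q, h2, h3⟩
    have h4 : 0 < 1 / ((q : ℝ) + 2) := by positivity
    exact ⟨by linarith, by linarith⟩

variable {n : ℕ} [NeZero n] (P : ConvexPolygon n)

theorem ms_Into (k : Fin n) : MeasurableSet {α : ℝ | Into P k (uv α)} :=
  ((isOpen_Into P k).preimage continuous_uv).measurableSet

theorem ms_Wd (k : Fin n) (ω : List (Fin n)) : MeasurableSet {α : ℝ | Wd P ω (vr P k α)} :=
  ((isOpen_Wd P ω).preimage (continuous_vr P k)).measurableSet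

theorem ms_Ex (k : Fin n) (ω : List (Fin n)) (l : Fin n) :
    MeasurableSet {α : ℝ | Ex P l (Tw P ω (vr P k α))} :=
  ((isOpen_Ex P l).preimage ((continuous_Tw P ω).comp (continuous_vr P k))).measurableSet

theorem ms_Reg (k : Fin n) : MeasurableSet {α : ℝ | Reg P (vr P k α)} := by
  have h1 : {α : ℝ | Reg P (vr P k α)} =
      ⋂ m : ℕ, ⋃ ω : List (Fin n), ({α : ℝ | ω.length = m} ∩ {α : ℝ | Wd P ω (vr P k α)}) := by
    ext α
    simp only [mem_ofPred_eq, mem_iInter, mem_iUnion, mem_inter_iff]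
    exact Iff.rfl
  rw [h1]
  exact MeasurableSet.iInter fun m => MeasurableSet.iUnion fun ω =>
    (MeasurableSet.const _).inter (ms_Wd P k ω)

theorem ms_Rch (i k : Fin n) : MeasurableSet {α : ℝ | Rch P i (vr P k α)} :=
  ((isOpen_Rch P i).preimage (continuous_vr P k)).measurableSet

private theorem ms_cont (k : Fin n) (ω : List (Fin n)) (η : ℝ) :
    Continuous fun z : ℝ × ℝ => rv (sh (η * z.2) (Tw P ω (vr P k z.1))) := by
  have h1 : Continuous fun z : ℝ × ℝ => Tw P ω (vr P k z.1) :=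
    (continuous_Tw P ω).comp ((continuous_vr P k).comp continuous_fst)
  have h2 : Continuous fun z : ℝ × ℝ => sh (η * z.2) (Tw P ω (vr P k z.1)) :=
    (continuous_fst.comp h1).prodMk
      ((continuous_snd.comp h1).add (continuous_const.mul continuous_snd))
  exact continuous_rv.comp h2

theorem ms_slice (i k : Fin n) (ω : List (Fin n)) (η w : ℝ) :
    MeasurableSet {α : ℝ | ∀ d ∈ Ioo 0 w, Rch P i (rv (sh (η * d) (Tw P ω (vr P k α))))} :=
  ms_Ioo (isOpen_Rch P i) (ms_cont P k ω η) (D := fun _ => w) continuous_const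

theorem ms_event (i k : Fin n) (ω : List (Fin n)) (η : ℝ) (j : Fin n) :
    MeasurableSet {α : ℝ | ∀ d ∈ Ioc 0 (η * (cross (Tw P ω (vr P k α)).1 (P.V j) - (Tw P ω (vr P k α)).2)),
      Rch P i (rv (sh (η * d) (Tw P ω (vr P k α))))} := by
  have h1 : Continuous fun α : ℝ => Tw P ω (vr P k α) :=
    (continuous_Tw P ω).comp (continuous_vr P k)
  have h2 : Continuous fun α : ℝ => cross (Tw P ω (vr P k α)).1 (P.V j) :=
    continuous_cross.comp ((continuous_fst.comp h1).prodMk continuous_const)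
  exact ms_Ioc (isOpen_Rch P i) (ms_cont P k ω η)
    (D := fun α => η * (cross (Tw P ω (vr P k α)).1 (P.V j) - (Tw P ω (vr P k α)).2))
    (continuous_const.mul (h2.sub (continuous_snd.comp h1)))

end Pool.Agent.GRM
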