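import Pool.Agent.GRM.GerV
import Pool.Agent.GRM.MsG

/-! GRM-Germ2: a gap of constant width is impossible for almost every ray (imports GerV, MsG).

PLAN.  For `M q : ℕ` let `S = {α ∈ Ico 0 (2π) | Into, Reg, ¬ Rch i, and for all ω with M ≤ ω.length and Wd ω (vr k α) the gap of width 1/(q+1)}`: measurable
(`ms_Into`, `ms_Reg`, `ms_Rch`, `ms_Wd`, `ms_slice`; countable intersection over the words).  `A ω = if M ≤ ω.length then S ∩ {α | Wd ω (vr k α)} else ∅`.
`gerV` (`Reg` gives an exit side of `Tw ω (vr k α)`: the word of length `|ω| + 1` extends `ω`, `Wd_unique`, `Wd_append`): `∑' ω, volume (A ω) < ∞`.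
For each `m ≥ M` the sets `A ω`, `|ω| = m`, cover `S` (`Reg`): `volume S ≤ ∑' ω with |ω| = m`.  So `∑' m, volume S ≤ ∑' ω, volume (A ω) < ∞` (sum over the
fibres of `length`: e.g. `ENNReal.tsum_comp_le_tsum_of_injective`-style lemmas on the sigma type, or `(Equiv.sigmaFiberEquiv List.length).tsum_eq` and
`ENNReal.tsum_sigma`), hence `volume S = 0` (`ENNReal.tsum_const_eq_top_of_ne_zero`). -/

namespace Pool.Agent.GRM

open Bil62 Bil62.ConvexPolygon MeasureTheory Set

variable {n : ℕ} [NeZero n] (P : ConvexPolygon n)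

private theorem exit_of_reg {ω : List (Fin n)} {x : ℂ × ℝ} (hx : ‖x.1‖ = 1) (hR : Reg P x)
    (hω : Wd P ω x) : ∃ l, Ex P l (Tw P ω x) := by
  obtain ⟨ω', hl, hW⟩ := hR (ω.length + 1)
  have e1 : ω'.take ω.length ++ ω'.drop ω.length = ω' := List.take_append_drop _ _
  rw [← e1, Wd_append] at hW
  obtain ⟨hW1, hW2⟩ := hW
  have hl1 : (ω'.take ω.length).length = ω.length := by
    rw [List.length_take, hl]
    omega
  have e2 : ω'.take ω.length = ω := Wd_unique P hx hl1 hW1 hω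
  rw [e2] at hW2
  have hl2 : (ω'.drop ω.length).length = 1 := by
    rw [List.length_drop, hl]
    omega
  obtain ⟨l, hl3⟩ := List.length_eq_one_iff.1 hl2
  rw [hl3] at hW2
  exact ⟨l, hW2.1⟩

/-- the bad set -/
private def Sb (i k : Fin n) (η : ℝ) (M q : ℕ) : Set ℝ :=
  (((Ico 0 (2 * Real.pi) ∩ {α : ℝ | Into P k (uv α)}) ∩ {α : ℝ | Reg P (vr P k α)}) ∩
    {α : ℝ | Rch P i (vr P k α)}ᶜ) ∩
    ⋂ ω : List (Fin n), {α : ℝ | M ≤ ω.length → Wd P ω (vr P k α) →
      ∀ d ∈ Ioo 0 (1 / ((q : ℝ) + 1)), Rch P i (rv (sh (η * sg ω * d) (Tw P ω (vr P k α))))}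

private theorem ms_Sb (i k : Fin n) (η : ℝ) (M q : ℕ) : MeasurableSet (Sb P i k η M q) := by
  unfold Sb
  refine (((measurableSet_Ico.inter (ms_Into P k)).inter (ms_Reg P k)).inter (ms_Rch P i k).compl).inter
    (MeasurableSet.iInter fun ω => ?_)
  by_cases hM : M ≤ ω.length
  · have e : {α : ℝ | M ≤ ω.length → Wd P ω (vr P k α) →
        ∀ d ∈ Ioo 0 (1 / ((q : ℝ) + 1)), Rch P i (rv (sh (η * sg ω * d) (Tw P ω (vr P k α))))} =
        {α : ℝ | Wd P ω (vr P k α)}ᶜ ∪
          {α : ℝ | ∀ d ∈ Ioo 0 (1 / ((q : ℝ) + 1)),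
            Rch P i (rv (sh ((η * sg ω) * d) (Tw P ω (vr P k α))))} := by
      ext α
      simp only [mem_setOf_eq, mem_union, mem_compl_iff]
      constructor
      · intro h
        by_cases hW : Wd P ω (vr P k α)
        · exact Or.inr (h hM hW)
        · exact Or.inl hW
      · rintro (h | h) _ hW
        · exact absurd hW h
        · exact h
    rw [e]
    exact (ms_Wd P k ω).compl.union (ms_slice P i k ω (η * sg ω) _)
  · have e : {α : ℝ | M ≤ ω.length → Wd P ω (vr P k α) →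
        ∀ d ∈ Ioo 0 (1 / ((q : ℝ) + 1)), Rch P i (rv (sh (η * sg ω * d) (Tw P ω (vr P k α))))} =
        Set.univ := by
      ext α
      simp only [mem_setOf_eq, mem_univ, iff_true]
      intro h
      exact absurd h hM
    rw [e]
    exact MeasurableSet.univ

open Classical in
/-- the bad set, the word `ω` -/
private noncomputable def Ab (i k : Fin n) (η : ℝ) (M q : ℕ) (ω : List (Fin n)) : Set ℝ :=
  if M ≤ ω.length then Sb P i k η M q ∩ {α : ℝ | Wd P ω (vr P k α)} else ∅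

theorem germ2 (i k : Fin n) {η : ℝ} (hη : η = 1 ∨ η = -1) (M q : ℕ) :
    ∀ᵐ α : ℝ, α ∈ Ico 0 (2 * Real.pi) → Into P k (uv α) → Reg P (vr P k α) → ¬ Rch P i (vr P k α) →
      ¬ ∀ ω : List (Fin n), M ≤ ω.length → Wd P ω (vr P k α) →
        ∀ d ∈ Ioo 0 (1 / ((q : ℝ) + 1)), Rch P i (rv (sh (η * sg ω * d) (Tw P ω (vr P k α)))) := by
  have hw : (0 : ℝ) < 1 / ((q : ℝ) + 1) := by positivity
  have key : ∑' ω, volume (Ab P i k η M q ω) ≠ ⊤ := by
    refine gerV P i k hη hw (Ab P i k η M q) ?_ ?_ ?_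
    · intro ω
      unfold Ab
      split_ifs
      · exact (ms_Sb P i k η M q).inter (ms_Wd P k ω)
      · exact MeasurableSet.empty
    · intro ω α hα
      unfold Ab at hα
      split_ifs at hα with hM
      · exact hα.1.1.1.1.1
      · exact absurd hα (notMem_empty _)
    · intro ω α hα
      unfold Ab at hα
      split_ifs at hα with hM
      · obtain ⟨⟨⟨⟨⟨hI, hInto⟩, hReg⟩, hRch⟩, hgap⟩, hW⟩ := hα
        have h1 : M ≤ ω.length → Wd P ω (vr P k α) →
            ∀ d ∈ Ioo 0 (1 / ((q : ℝ) + 1)), Rch P i (rv (sh (η * sg ω * d) (Tw P ω (vr P k α)))) :=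
          mem_iInter.1 hgap ω
        exact ⟨hInto, hRch, hW, exit_of_reg P (norm_uv α) hReg hW, h1 hM hW⟩
      · exact absurd hα (notMem_empty _)
  have hS : volume (Sb P i k η M q) = 0 := by
    by_contra h0
    apply key
    rw [← ENNReal.tsum_fiberwise (fun ω => volume (Ab P i k η M q ω)) (fun ω : List (Fin n) => ω.length)]
    refine top_unique ?_
    have hinj : Function.Injective (fun m : ℕ => m + M) := fun a b h => Nat.add_right_cancel h
    refine le_trans ?_ (ENNReal.tsum_comp_le_tsum_of_injective hinj _)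
    have e0 : ∑' _ : ℕ, volume (Sb P i k η M q) = ⊤ := ENNReal.tsum_const_eq_top_of_ne_zero h0
    rw [← e0]
    refine ENNReal.tsum_le_tsum fun m => ?_
    refine le_trans (measure_mono ?_) (measure_iUnion_le _)
    intro α hα
    obtain ⟨ω, hl, hW⟩ := hα.1.1.2 (m + M)
    refine mem_iUnion.2 ⟨⟨ω, hl⟩, ?_⟩
    show α ∈ Ab P i k η M q ω
    unfold Ab
    rw [if_pos (by omega)]
    exact ⟨hα, hW⟩
  rw [ae_iff]
  refine measure_mono_null ?_ hS
  intro α hα
  simp only [mem_setOf_eq] at hα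
  push Not at hα
  obtain ⟨hI, hInto, hReg, hRch, hgap⟩ := hα
  refine ⟨⟨⟨⟨hI, hInto⟩, hReg⟩, hRch⟩, mem_iInter.2 fun ω => ?_⟩
  intro hM hW
  exact hgap ω hM hW

end Pool.Agent.GRM
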