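import Pool.Agent.GRM.Germ1
import Pool.Agent.GRM.Germ2

/-! GRM-Germ: the germ theorem (imports Germ1, Germ2).

PLAN.  `germ1` and `germ2` for all `M q` (countable) give the statement for a.e. `α ∈ Ico 0 (2π)`.  All the predicates depend on `α` only through `uv α`,
and `uv (α + m * 2π) = uv α` (`uv_eq_iff`): the bad set is invariant under translation by `2π`, so it is the countable union of translates of a null set
(`α - 2π ⌊α / 2π⌋ ∈ Ico 0 (2π)`; translations are measure preserving). -/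

namespace Pool.Agent.GRM

open Bil62 Bil62.ConvexPolygon MeasureTheory Set

variable {n : ℕ} [NeZero n] (P : ConvexPolygon n)

theorem ae_of_period {p : ℝ → Prop} (hp : ∀ (α : ℝ) (m : ℤ), p α → p (α + m * (2 * Real.pi)))
    (h : ∀ᵐ α : ℝ, α ∈ Ico 0 (2 * Real.pi) → p α) : ∀ᵐ α : ℝ, p α := by
  have h1 : ∀ᵐ α : ℝ, ∀ m : ℤ, α - m * (2 * Real.pi) ∈ Ico 0 (2 * Real.pi) →
      p (α - m * (2 * Real.pi)) := by
    rw [ae_all_iff]
    intro m
    exact (measurePreserving_sub_right volume ((m : ℝ) * (2 * Real.pi))).quasiMeasurePreserving.ae h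
  filter_upwards [h1] with α hα
  have hpi : 0 < 2 * Real.pi := by positivity
  have h2 := hα ⌊α / (2 * Real.pi)⌋ (by
    have a1 := Int.floor_le (α / (2 * Real.pi))
    have a2 := Int.lt_floor_add_one (α / (2 * Real.pi))
    rw [le_div_iff₀ hpi] at a1
    rw [div_lt_iff₀ hpi] at a2
    constructor
    · linarith
    · linarith)
  have h3 := hp _ ⌊α / (2 * Real.pi)⌋ h2
  rw [sub_add_cancel] at h3
  exact h3

private theorem uv_per (α : ℝ) (m : ℤ) : uv (α + m * (2 * Real.pi)) = uv α := by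
  unfold uv
  have e : ((α + m * (2 * Real.pi) : ℝ) : ℂ) * Complex.I =
      (α : ℂ) * Complex.I + (m : ℂ) * (2 * Real.pi * Complex.I) := by
    push_cast
    ring
  rw [e]
  exact Complex.exp_periodic.int_mul m _

private theorem vr_per (k : Fin n) (α : ℝ) (m : ℤ) : vr P k (α + m * (2 * Real.pi)) = vr P k α := by
  unfold vr
  rw [uv_per]

/-- almost every regular ray from a vertex with a one-sided gap arrives at side `i` -/
theorem germ (i k : Fin n) {η : ℝ} (hη : η = 1 ∨ η = -1) :
    ∀ᵐ α : ℝ, Into P k (uv α) → Reg P (vr P k α) →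
      (∃ w > 0, ∀ d ∈ Ioo 0 w, Rch P i (rv (sh (η * d) (vr P k α)))) → Rch P i (vr P k α) := by
  apply ae_of_period
  · intro α m h
    rw [uv_per, vr_per]
    exact h
  · have h2 : ∀ᵐ α : ℝ, ∀ M q : ℕ, α ∈ Ico 0 (2 * Real.pi) → Into P k (uv α) → Reg P (vr P k α) →
        ¬ Rch P i (vr P k α) →
        ¬ ∀ ω : List (Fin n), M ≤ ω.length → Wd P ω (vr P k α) →
        ∀ d ∈ Ioo 0 (1 / ((q : ℝ) + 1)), Rch P i (rv (sh (η * sg ω * d) (Tw P ω (vr P k α)))) := by
      rw [ae_all_iff]
      intro M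
      rw [ae_all_iff]
      intro q
      exact germ2 P i k hη M q
    filter_upwards [germ1 P i k hη, h2] with α h1 h2 hI hInto hReg hgap
    by_contra hn
    obtain ⟨M, q, hMq⟩ := h1 hI hInto hReg hn hgap
    exact h2 M q hI hInto hReg hn hMq

end Pool.Agent.GRM
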