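import Pool.Agent.GRM.GerP
import Pool.Agent.GRM.GerE
import Pool.Agent.GRM.MsG

/-! GRM-Germ1: almost every ray with a gap has finally a gap of constant width (Borel-Cantelli). -/

namespace Pool.Agent.GRM

open Bil62 Bil62.ConvexPolygon MeasureTheory Set

variable {n : ℕ} [NeZero n] (P : ConvexPolygon n)

/-- the event: the gap beside the line after the word `ω` contains the end `j` of the exit side -/
private def Ev (i k : Fin n) (η : ℝ) (j : Fin n) (ω : List (Fin n)) : Set ℝ :=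
  {α | α ∈ Ico 0 (2 * Real.pi) ∧ Into P k (uv α) ∧ ¬ Rch P i (vr P k α) ∧ Wd P ω (vr P k α) ∧
    (∃ l, Ex P l (Tw P ω (vr P k α)) ∧ vx (η * sg ω) l = j) ∧
    ∀ d ∈ Ioc 0 (η * sg ω * (cross (Tw P ω (vr P k α)).1 (P.V j) - (Tw P ω (vr P k α)).2)),
      Rch P i (rv (sh (η * sg ω * d) (Tw P ω (vr P k α))))}

private theorem Ev_meas (i k : Fin n) (η : ℝ) (j : Fin n) (ω : List (Fin n)) :
    MeasurableSet (Ev P i k η j ω) := by
  have h1 : Ev P i k η j ω = Ico 0 (2 * Real.pi) ∩ {α : ℝ | Into P k (uv α)} ∩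
      {α : ℝ | Rch P i (vr P k α)}ᶜ ∩ {α : ℝ | Wd P ω (vr P k α)} ∩
      (⋃ l : Fin n, {α : ℝ | Ex P l (Tw P ω (vr P k α))} ∩ {_α : ℝ | vx (η * sg ω) l = j}) ∩
      {α : ℝ | ∀ d ∈ Ioc 0 (η * sg ω * (cross (Tw P ω (vr P k α)).1 (P.V j) -
        (Tw P ω (vr P k α)).2)), Rch P i (rv (sh (η * sg ω * d) (Tw P ω (vr P k α))))} := by
    ext α
    simp only [Ev, mem_ofPred_eq, mem_inter_iff, mem_compl_iff, mem_iUnion]
    tauto
  rw [h1]
  exact ((((measurableSet_Ico.inter (ms_Into P k)).inter (ms_Rch P i k).compl).inter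
    (ms_Wd P k ω)).inter (MeasurableSet.iUnion fun l => (ms_Ex P k ω l).inter
      (MeasurableSet.const _))).inter (ms_event P i k ω (η * sg ω) j)

private theorem eps_or {η : ℝ} (hη : η = 1 ∨ η = -1) (ω : List (Fin n)) :
    η * sg ω = 1 ∨ η * sg ω = -1 := by
  rcases hη with h | h <;> rcases sg_eq ω with h' | h' <;> rw [h, h'] <;> norm_num

private theorem Ev_fin (i k : Fin n) {η : ℝ} (hη : η = 1 ∨ η = -1) (j : Fin n) :
    ∀ᵐ α : ℝ, {ω | α ∈ Ev P i k η j ω}.Finite := by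
  refine ae_finite_setOfPred_mem (gerE P i k hη j (Ev P i k η j) (Ev_meas P i k η j)
    (fun ω α hα => hα.1) fun ω α hα => ?_)
  obtain ⟨h1, h2, h3, h4, ⟨l, h5, h6⟩, h7⟩ := hα
  refine ⟨h2, h3, h4, ?_, h7⟩
  have h8 := dist_pos P (eps_or hη ω) h5
  rw [h6] at h8
  exact h8

private theorem sg_snoc (ω : List (Fin n)) (l : Fin n) : sg (ω ++ [l]) = - sg ω := by
  unfold sg
  rw [List.length_append, List.length_singleton, pow_succ]
  ring

private theorem Wd_snoc {ω : List (Fin n)} {l : Fin n} {x : ℂ × ℝ} (h : Wd P (ω ++ [l]) x) :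
    Wd P ω x ∧ Ex P l (Tw P ω x) := by
  have h1 := (Wd_append P ω [l] x).1 h
  exact ⟨h1.1, h1.2.1⟩

private theorem Tw_snoc (ω : List (Fin n)) (l : Fin n) (x : ℂ × ℝ) :
    Tw P (ω ++ [l]) x = T P l (Tw P ω x) := by
  rw [Tw_append]
  rfl

theorem germ1 (i k : Fin n) {η : ℝ} (hη : η = 1 ∨ η = -1) :
    ∀ᵐ α : ℝ, α ∈ Ico 0 (2 * Real.pi) → Into P k (uv α) → Reg P (vr P k α) → ¬ Rch P i (vr P k α) →
      (∃ w > 0, ∀ d ∈ Ioo 0 w, Rch P i (rv (sh (η * d) (vr P k α)))) →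
      ∃ M q : ℕ, ∀ ω : List (Fin n), M ≤ ω.length → Wd P ω (vr P k α) →
        ∀ d ∈ Ioo 0 (1 / ((q : ℝ) + 1)), Rch P i (rv (sh (η * sg ω * d) (Tw P ω (vr P k α)))) := by
  filter_upwards [ae_all_iff.2 fun j => Ev_fin P i k hη j] with α hfin hα hinto hreg hnr hgap
  obtain ⟨M, hM⟩ : ∃ M : ℕ, ∀ j ω, α ∈ Ev P i k η j ω → ω.length < M := by
    have h1 : (⋃ j, {ω | α ∈ Ev P i k η j ω}).Finite := finite_iUnion hfin
    obtain ⟨B, hB⟩ := (h1.image List.length).bddAbove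
    exact ⟨B + 1, fun j ω h => Nat.lt_succ_of_le
      (hB (mem_image_of_mem _ (mem_iUnion.2 ⟨j, h⟩)))⟩
  have hnorm : ‖(vr P k α).1‖ = 1 := norm_uv α
  -- (1) every word has a gap of positive width
  have step1 : ∀ ω : List (Fin n), Wd P ω (vr P k α) →
      ∃ w > 0, ∀ d ∈ Ioo 0 w, Rch P i (rv (sh (η * sg ω * d) (Tw P ω (vr P k α)))) := by
    intro ω
    induction ω using List.reverseRecOn with
    | nil =>
      intro _
      obtain ⟨w, hw, h⟩ := hgap
      refine ⟨w, hw, fun d hd => ?_⟩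
      have h1 := h d hd
      have h2 : η * sg ([] : List (Fin n)) * d = η * d := by
        unfold sg
        simp
      rw [h2]
      exact h1
    | append_singleton ω l ih =>
      intro h
      obtain ⟨h1, h2⟩ := Wd_snoc P h
      obtain ⟨w, hw, h3⟩ := ih h1
      obtain ⟨w', hw', h4⟩ := gerP_min P (eps_or hη ω) h2 hw h3
      refine ⟨w', hw', fun d hd => ?_⟩
      have h5 := h4 d hd
      rw [Tw_snoc, sg_snoc, show η * -sg ω * d = -(η * sg ω) * d from by ring]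
      exact h5
  obtain ⟨ω₀, hlen, hω₀⟩ := hreg M
  obtain ⟨w, hw, hgap₀⟩ := step1 ω₀ hω₀
  -- (2) from the length `M` on the width is kept
  have step2 : ∀ ω₁ : List (Fin n), Wd P (ω₀ ++ ω₁) (vr P k α) →
      ∀ d ∈ Ioo 0 w, Rch P i (rv (sh (η * sg (ω₀ ++ ω₁) * d) (Tw P (ω₀ ++ ω₁) (vr P k α)))) := by
    intro ω₁
    induction ω₁ using List.reverseRecOn with
    | nil =>
      intro _
      rw [List.append_nil]
      exact hgap₀
    | append_singleton ω₁ l ih =>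
      intro h
      rw [← List.append_assoc] at h
      obtain ⟨h1, h2⟩ := Wd_snoc P h
      have h3 := ih h1
      have h4 := gerP_keep P (eps_or hη (ω₀ ++ ω₁)) h2 h3 fun hall => by
        have h5 : α ∈ Ev P i k η (vx (η * sg (ω₀ ++ ω₁)) l) (ω₀ ++ ω₁) :=
          ⟨hα, hinto, hnr, h1, ⟨l, h2, rfl⟩, hall⟩
        have h6 := hM _ _ h5
        rw [List.length_append, hlen] at h6
        omega
      intro d hd
      have h5 := h4 d hd
      rw [← List.append_assoc, Tw_snoc, sg_snoc,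
        show η * -sg (ω₀ ++ ω₁) * d = -(η * sg (ω₀ ++ ω₁)) * d from by ring]
      exact h5
  obtain ⟨q, hq⟩ := exists_nat_one_div_lt hw
  refine ⟨M, q, fun ω hωM hω d hd => ?_⟩
  have h1 : Wd P (ω.take M ++ ω.drop M) (vr P k α) := by
    rw [List.take_append_drop]
    exact hω
  have h2 : ω.take M = ω₀ := by
    refine Wd_unique P hnorm ?_ ((Wd_append P _ _ _).1 h1).1 hω₀
    rw [List.length_take, hlen]
    omega
  rw [h2] at h1
  have h3 : ω₀ ++ ω.drop M = ω := by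
    rw [← h2, List.take_append_drop]
  have h4 := step2 (ω.drop M) h1 d ⟨hd.1, hd.2.trans hq⟩
  rw [h3] at h4
  exact h4

end Pool.Agent.GRM
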