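import Pool.Agent.GRM.Bad1
import Pool.Agent.GRM.Foc

/-! GRM-HorA: for almost every base point no trapped line through it is singular (imports Bad1, Foc). -/

namespace Pool.Agent.GRM

open Bil62 Bil62.ConvexPolygon MeasureTheory Set

variable {n : ℕ} [NeZero n] (P : ConvexPolygon n)

private theorem rpt_rpt' (l : Fin n) (z : ℂ) : P.rpt l (P.rpt l z) = z := by
  have h := P.dir_mul_conj l
  unfold rpt
  rw [add_sub_cancel_left, map_mul, map_pow, Complex.conj_conj]
  linear_combination (P.dir l * (starRingEnd ℂ) (P.dir l) + 1) * (z - P.V l) * h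

private theorem back_step (l : Fin n) (x : ℂ × ℝ) (F : ℂ) :
    (T P l x).2 = cross (T P l x).1 F ↔ x.2 = cross x.1 (P.rpt l F) := by
  constructor
  · intro h
    have h1 := T_cross P (l := l) h
    rwa [T_T] at h1
  · intro h
    have h1 := T_cross P (l := l) h
    rwa [rpt_rpt'] at h1

private theorem cross_uv' (α : ℝ) (w : ℂ) :
    cross (uv α) w = Real.cos α * w.im - Real.sin α * w.re := by
  unfold cross uv
  rw [Complex.exp_ofReal_mul_I_re, Complex.exp_ofReal_mul_I_im]

private theorem null_N {i : Fin n} (hf : ∀ j, Full P i j) (ω : List (Fin n)) (j : Fin n) :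
    volume {α : ℝ | ¬ (Into P j (uv (cw P ω + sg ω * α + Real.pi)) →
      Rch P i (vr P j (cw P ω + sg ω * α + Real.pi)))} = 0 := by
  have hq : Measure.QuasiMeasurePreserving (fun α : ℝ => cw P ω + sg ω * α + Real.pi) volume volume := by
    rcases sg_eq ω with h | h
    · have e : (fun α : ℝ => cw P ω + sg ω * α + Real.pi) = fun α => α + (cw P ω + Real.pi) := by
        funext α
        rw [h]
        ring
      rw [e]
      exact (measurePreserving_add_right volume (cw P ω + Real.pi)).quasiMeasurePreserving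
    · have e : (fun α : ℝ => cw P ω + sg ω * α + Real.pi) = fun α => (cw P ω + Real.pi) - α := by
        funext α
        rw [h]
        ring
      rw [e]
      exact (Measure.measurePreserving_sub_left volume (cw P ω + Real.pi)).quasiMeasurePreserving
  have h1 := hq.ae (hf j)
  rwa [ae_iff] at h1

private theorem null_S (k : Fin n) (w : ℂ) {N : Set ℝ} (hN : volume N = 0) :
    volume ((fun α : ℝ => cross (uv α) w / cross (uv α) (P.dir k)) ''
      (N ∩ {α | cross (uv α) (P.dir k) ≠ 0})) = 0 := by
  have h0 : volume (N ∩ {α | cross (uv α) (P.dir k) ≠ 0}) = 0 :=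
    measure_mono_null inter_subset_left hN
  refine MeasureTheory.addHaar_image_eq_zero_of_differentiableOn_of_addHaar_eq_zero volume ?_ h0
  have hd : ∀ v : ℂ, Differentiable ℝ (fun α : ℝ => cross (uv α) v) := by
    intro v
    simp only [cross_uv']
    exact (Real.differentiable_cos.mul_const _).sub (Real.differentiable_sin.mul_const _)
  intro α hα
  exact ((hd w α).div (hd (P.dir k) α) hα.2).differentiableWithinAt

theorem cross_back (ω : List (Fin n)) (x : ℂ × ℝ) (Q : ℂ) :
    (Tw P ω x).2 = cross (Tw P ω x).1 Q ↔ x.2 = cross x.1 (fo P ω.reverse Q) := by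
  induction ω generalizing x with
  | nil => exact Iff.rfl
  | cons l ω ih =>
    have e1 : Tw P (l :: ω) x = Tw P ω (T P l x) := rfl
    have e2 : fo P (l :: ω).reverse Q = P.rpt l (fo P ω.reverse Q) := by
      rw [List.reverse_cons, fo_append]
      rfl
    rw [e1, e2, ih, back_step]

theorem horA {i : Fin n} (hf : ∀ j, Full P i j) (k : Fin n) : ∀ᵐ s : ℝ, ∀ α : ℝ,
    En P k (uv α, cross (uv α) (P.pt k s)) → ¬ Rch P i (uv α, cross (uv α) (P.pt k s)) →
      ¬ Rch P i (rv (uv α, cross (uv α) (P.pt k s))) → Reg P (uv α, cross (uv α) (P.pt k s)) := by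
  have key : ∀ᵐ s : ℝ, ∀ (ω : List (Fin n)) (j : Fin n),
      s ∉ (fun α : ℝ => cross (uv α) (fo P ω.reverse (P.V (j + 1)) - P.V k) /
        cross (uv α) (P.dir k)) ''
      ({α : ℝ | ¬ (Into P j (uv (cw P ω + sg ω * α + Real.pi)) →
        Rch P i (vr P j (cw P ω + sg ω * α + Real.pi)))} ∩
        {α | cross (uv α) (P.dir k) ≠ 0}) := by
    rw [ae_all_iff]
    intro ω
    rw [ae_all_iff]
    intro j
    rw [ae_iff]
    simp only [not_not, ofPred_mem_eq]
    exact null_S P k _ (null_N P hf ω j)
  filter_upwards [key] with s hs α he hn hn'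
  by_contra hr
  have hx : ‖(uv α, cross (uv α) (P.pt k s)).1‖ = 1 := norm_uv α
  obtain ⟨ω, j, hW, h1, h2⟩ := not_reg P hx he hr
  have e1 : (Tw P ω (uv α, cross (uv α) (P.pt k s))).1 = uv (cw P ω + sg ω * α) := Tw_uv P ω α _
  have e2 : -(Tw P ω (uv α, cross (uv α) (P.pt k s))).1 = uv (cw P ω + sg ω * α + Real.pi) := by
    rw [e1, uv_add_pi]
  have e3 : rv (Tw P ω (uv α, cross (uv α) (P.pt k s))) = vr P j (cw P ω + sg ω * α + Real.pi) := by
    unfold rv vr
    rw [← e2, h1, cross_neg_left]
  have hpos : 0 < cross (P.dir k) (uv α) := P.ent_cross he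
  have hne : cross (uv α) (P.dir k) ≠ 0 := by
    rw [cross_comm]
    linarith
  refine hs ω j ⟨α, ⟨?_, hne⟩, ?_⟩
  · intro hc
    have h3 := hc (by rw [← e2]; exact h2)
    rw [← e3] at h3
    exact hn' ((Rch_rv_Tw P hx hn hW).1 h3)
  · have h4 := (cross_back P ω (uv α, cross (uv α) (P.pt k s)) (P.V (j + 1))).1 h1
    simp only at h4
    unfold ConvexPolygon.pt at h4
    rw [cross_add_right, cross_smul_right] at h4
    simp only
    rw [div_eq_iff hne, cross_sub_right]
    linarith

end Pool.Agent.GRM
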