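import Pool.Agent.GRM.HorA
import Pool.Agent.GRM.Fan2
import Pool.Agent.GRM.Lnk1

/-! GRM-HorB: at almost every base point the directions whose orbit meets side `i` are dense (imports HorA, Fan2, Lnk1). -/

namespace Pool.Agent.GRM

open Bil62 Bil62.ConvexPolygon MeasureTheory Set

variable {n : ℕ} [NeZero n] (P : ConvexPolygon n)

private theorem lnz_uv (k : Fin n) (θ s : ℝ) : lnz P (k, θ, s) =
    (uv (Complex.arg (P.dir k) + θ), cross (uv (Complex.arg (P.dir k) + θ)) (P.pt k s)) := by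
  have h1 : P.vel (k, θ, s) = uv (Complex.arg (P.dir k) + θ) := by
    rw [uv_add, ← dir_eq_uv]
    rfl
  have h2 : lnz P (k, θ, s) = (P.vel (k, θ, s), cross (P.vel (k, θ, s)) (P.pt k s)) := rfl
  rw [h2, h1]

theorem horB {i : Fin n} (hf : ∀ j, Full P i j) (k : Fin n) : ∀ᵐ s : ℝ, s ∈ Ioo 0 (P.len k) →
    ∀ a b : ℝ, 0 ≤ a → a < b → b ≤ Real.pi →
      ∃ θ ∈ Ioo a b, Rch P i (lnz P (k, θ, s)) ∨ Rch P i (rv (lnz P (k, θ, s))) := by
  filter_upwards [horA P hf k] with s hs hsI a b ha hab hb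
  by_contra hcon
  push Not at hcon
  have key : ∀ α ∈ Ioo (Complex.arg (P.dir k) + a) (Complex.arg (P.dir k) + b),
      En P k (uv α, cross (uv α) (P.pt k s)) ∧ Reg P (uv α, cross (uv α) (P.pt k s)) := by
    intro α hα
    have hθ : α - Complex.arg (P.dir k) ∈ Ioo a b := ⟨by linarith [hα.1], by linarith [hα.2]⟩
    have h1 := lnz_uv P k (α - Complex.arg (P.dir k)) s
    have h2 : Complex.arg (P.dir k) + (α - Complex.arg (P.dir k)) = α := by ring
    rw [h2] at h1
    obtain ⟨h3, h4⟩ := hcon _ hθ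
    have h5 : (k, α - Complex.arg (P.dir k), s) ∈ P.Phase :=
      ⟨⟨by linarith [hθ.1], by linarith [hθ.2]⟩, hsI⟩
    have h6 := lnz_En P h5
    rw [h1] at h3 h4 h6
    exact ⟨h6, hs α h6 h3 h4⟩
  exact fan2 P (by linarith) hsI (fun α hα => (key α hα).1) (fun α hα => (key α hα).2)

end Pool.Agent.GRM
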