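import Pool.Agent.GRM.Bas2

/-! GRM-Len1: three different sides have no common point, quantitatively (imports Bas2; compactness).

PLAN.
* `side_zero`: `g l (pt k s) = 0` for `l ≠ k`, `s ∈ [0, len k]` only if (`s = 0` and `l + 1 = k`) or (`s = len k` and `l = k + 1`): `g_pt_eq` expresses `g l (pt k s)` as a convex
  combination of `g l (V k) ≥ 0` and `g l (V (k+1)) ≥ 0` (`g_V_nonneg`, `g_V_pos`).
* `three`: for fixed `l₁, l₂, l₃` pairwise different the continuous function `‖pt l₁ s₁ - pt l₂ s₂‖ + ‖pt l₂ s₂ - pt l₃ s₃‖` on the compact box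
  `Icc 0 (len l₁) ×ˢ Icc 0 (len l₂) ×ˢ Icc 0 (len l₃)` does not vanish: otherwise `z = pt l₁ s₁ = pt l₂ s₂ = pt l₃ s₃`, `g l₂ z = g l₃ z = 0` (`g_pt_self`) and
  `side_zero` gives `l₂ = l₃` (if `s₁ = 0`: `l₂ + 1 = l₁ = l₃ + 1`; `0 ≠ len`).  Minimum over the finitely many triples.
* `two`: the same for `‖pt l s - pt l' s'‖` with `l ≠ l'`, `l + 1 ≠ l'`, `l' + 1 ≠ l`. -/

namespace Pool.Agent.GRM

open Bil62 Bil62.ConvexPolygon MeasureTheory Set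

variable {n : ℕ} [NeZero n] (P : ConvexPolygon n)

theorem side_zero {l k : Fin n} {s : ℝ} (hlk : l ≠ k) (hs : s ∈ Icc 0 (P.len k))
    (h : P.g l (P.pt k s) = 0) : (s = 0 ∧ l + 1 = k) ∨ (s = P.len k ∧ l = k + 1) := by
  have h0 := P.g_pt_eq l k s
  rw [h, mul_zero] at h0
  have h1 := P.g_V_nonneg l k
  have h2 := P.g_V_nonneg l (k + 1)
  have hs0 := hs.1
  have hs1 := sub_nonneg.2 hs.2
  have e1 := mul_nonneg hs1 h1
  have e2 := mul_nonneg hs0 h2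
  by_cases hk : k = l + 1
  · left
    refine ⟨?_, hk.symm⟩
    have h3 : 0 < P.g l (P.V (k + 1)) := by
      apply P.g_V_pos
      · rw [hk]
        exact P.succ_succ_ne l
      · rw [hk]
        exact P.succ_ne (l + 1)
    have h4 : s * P.g l (P.V (k + 1)) = 0 := by linarith
    exact (mul_eq_zero.1 h4).resolve_right h3.ne'
  · right
    have h3 : 0 < P.g l (P.V k) := P.g_V_pos (Ne.symm hlk) hk
    have h4 : (P.len k - s) * P.g l (P.V k) = 0 := by linarith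
    have h5 : s = P.len k := by
      have := (mul_eq_zero.1 h4).resolve_right h3.ne'
      linarith
    refine ⟨h5, ?_⟩
    by_contra h6
    have h7 : 0 < P.g l (P.V (k + 1)) :=
      P.g_V_pos (Ne.symm h6) (fun h8 => hlk (add_right_cancel h8).symm)
    have h8 : s * P.g l (P.V (k + 1)) = 0 := by linarith
    have h9 : 0 < s * P.g l (P.V (k + 1)) := by
      rw [h5]
      exact mul_pos (P.len_pos k) h7
    linarith

private lemma unif {ι : Type*} [Finite ι] (Q : ι → ℝ → Prop)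
    (hQ : ∀ i, ∃ c > 0, ∀ c' ≤ c, Q i c') : ∃ c > 0, ∀ i, Q i c := by
  choose c hc hcQ using hQ
  rcases isEmpty_or_nonempty ι with he | he
  · exact ⟨1, one_pos, fun i => (he.false i).elim⟩
  · obtain ⟨i0, hi0⟩ := Finite.exists_min c
    exact ⟨c i0, hc i0, fun i => hcQ i _ (hi0 i)⟩

private lemma cont_pt (k : Fin n) : Continuous (P.pt k) := by
  unfold ConvexPolygon.pt
  exact continuous_const.add (Complex.continuous_ofReal.mul continuous_const)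

private lemma eq_of_add {a b : ℂ} {x : ℝ} (hx : 0 ≤ x) (h : ‖a - b‖ + x = 0) : a = b := by
  have h1 : ‖a - b‖ = 0 := le_antisymm (by linarith) (norm_nonneg _)
  exact sub_eq_zero.1 (norm_eq_zero.1 h1)

theorem three : ∃ c > 0, ∀ l₁ l₂ l₃ : Fin n, l₁ ≠ l₂ → l₂ ≠ l₃ → l₁ ≠ l₃ →
    ∀ s₁ ∈ Icc 0 (P.len l₁), ∀ s₂ ∈ Icc 0 (P.len l₂), ∀ s₃ ∈ Icc 0 (P.len l₃),
      c ≤ ‖P.pt l₁ s₁ - P.pt l₂ s₂‖ + ‖P.pt l₂ s₂ - P.pt l₃ s₃‖ := by
  obtain ⟨c, hc, H⟩ := unif (ι := Fin n × Fin n × Fin n)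
    (fun l c => l.1 ≠ l.2.1 → l.2.1 ≠ l.2.2 → l.1 ≠ l.2.2 →
      ∀ s₁ ∈ Icc 0 (P.len l.1), ∀ s₂ ∈ Icc 0 (P.len l.2.1), ∀ s₃ ∈ Icc 0 (P.len l.2.2),
      c ≤ ‖P.pt l.1 s₁ - P.pt l.2.1 s₂‖ + ‖P.pt l.2.1 s₂ - P.pt l.2.2 s₃‖) (by
    rintro ⟨l₁, l₂, l₃⟩
    by_cases hd : l₁ ≠ l₂ ∧ l₂ ≠ l₃ ∧ l₁ ≠ l₃
    · obtain ⟨d1, d2, d3⟩ := hd
      let K : Set (ℝ × ℝ × ℝ) := Icc 0 (P.len l₁) ×ˢ (Icc 0 (P.len l₂) ×ˢ Icc 0 (P.len l₃))
      have hK : IsCompact K := isCompact_Icc.prod (isCompact_Icc.prod isCompact_Icc)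
      have hne : K.Nonempty := ⟨(0, 0, 0), ⟨le_rfl, (P.len_pos l₁).le⟩,
        ⟨le_rfl, (P.len_pos l₂).le⟩, ⟨le_rfl, (P.len_pos l₃).le⟩⟩
      have hf : Continuous fun x : ℝ × ℝ × ℝ =>
          ‖P.pt l₁ x.1 - P.pt l₂ x.2.1‖ + ‖P.pt l₂ x.2.1 - P.pt l₃ x.2.2‖ := by
        have c1 := (cont_pt P l₁).comp (continuous_fst (X := ℝ) (Y := ℝ × ℝ))
        have c2 := (cont_pt P l₂).comp
          ((continuous_fst (X := ℝ) (Y := ℝ)).comp (continuous_snd (X := ℝ) (Y := ℝ × ℝ)))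
        have c3 := (cont_pt P l₃).comp
          ((continuous_snd (X := ℝ) (Y := ℝ)).comp (continuous_snd (X := ℝ) (Y := ℝ × ℝ)))
        exact (c1.sub c2).norm.add (c2.sub c3).norm
      obtain ⟨x, hx, hmin⟩ := hK.exists_isMinOn hne hf.continuousOn
      obtain ⟨hx1, hx2, hx3⟩ := hx
      refine ⟨‖P.pt l₁ x.1 - P.pt l₂ x.2.1‖ + ‖P.pt l₂ x.2.1 - P.pt l₃ x.2.2‖, ?_, ?_⟩
      · refine lt_of_le_of_ne (add_nonneg (norm_nonneg _) (norm_nonneg _)) fun h0 => ?_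
        have z1 := eq_of_add (norm_nonneg _) h0.symm
        have z2 := eq_of_add (norm_nonneg (P.pt l₁ x.1 - P.pt l₂ x.2.1))
          (by rw [add_comm]; exact h0.symm)
        have g2 : P.g l₂ (P.pt l₁ x.1) = 0 := by
          rw [z1]
          exact P.g_pt_self l₂ _
        have g3 : P.g l₃ (P.pt l₁ x.1) = 0 := by
          rw [z1, z2]
          exact P.g_pt_self l₃ _
        have hl := P.len_pos l₁
        rcases side_zero P (Ne.symm d1) hx1 g2 with ⟨a1, a2⟩ | ⟨a1, a2⟩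
        · rcases side_zero P (Ne.symm d3) hx1 g3 with ⟨b1, b2⟩ | ⟨b1, b2⟩
          · exact d2 (add_right_cancel (a2.trans b2.symm))
          · rw [a1] at b1
            linarith
        · rcases side_zero P (Ne.symm d3) hx1 g3 with ⟨b1, b2⟩ | ⟨b1, b2⟩
          · rw [a1] at b1
            linarith
          · exact d2 (a2.trans b2.symm)
      · intro c' hc' _ _ _ s₁ h1 s₂ h2 s₃ h3
        exact hc'.trans (hmin (show (s₁, s₂, s₃) ∈ K from ⟨h1, h2, h3⟩))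
    · exact ⟨1, one_pos, fun c' _ h1 h2 h3 => (hd ⟨h1, h2, h3⟩).elim⟩)
  exact ⟨c, hc, fun l₁ l₂ l₃ h1 h2 h3 => H (l₁, l₂, l₃) h1 h2 h3⟩

theorem two : ∃ c > 0, ∀ l l' : Fin n, l ≠ l' → l + 1 ≠ l' → l' + 1 ≠ l →
    ∀ s ∈ Icc 0 (P.len l), ∀ s' ∈ Icc 0 (P.len l'), c ≤ ‖P.pt l s - P.pt l' s'‖ := by
  obtain ⟨c, hc, H⟩ := unif (ι := Fin n × Fin n)
    (fun l c => l.1 ≠ l.2 → l.1 + 1 ≠ l.2 → l.2 + 1 ≠ l.1 →
      ∀ s₁ ∈ Icc 0 (P.len l.1), ∀ s₂ ∈ Icc 0 (P.len l.2),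
      c ≤ ‖P.pt l.1 s₁ - P.pt l.2 s₂‖) (by
    rintro ⟨l₁, l₂⟩
    by_cases hd : l₁ ≠ l₂ ∧ l₁ + 1 ≠ l₂ ∧ l₂ + 1 ≠ l₁
    · obtain ⟨d1, d2, d3⟩ := hd
      let K : Set (ℝ × ℝ) := Icc 0 (P.len l₁) ×ˢ Icc 0 (P.len l₂)
      have hK : IsCompact K := isCompact_Icc.prod isCompact_Icc
      have hne : K.Nonempty := ⟨(0, 0), ⟨le_rfl, (P.len_pos l₁).le⟩,
        ⟨le_rfl, (P.len_pos l₂).le⟩⟩
      have hf : Continuous fun x : ℝ × ℝ => ‖P.pt l₁ x.1 - P.pt l₂ x.2‖ := by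
        have c1 := (cont_pt P l₁).comp (continuous_fst (X := ℝ) (Y := ℝ))
        have c2 := (cont_pt P l₂).comp (continuous_snd (X := ℝ) (Y := ℝ))
        exact (c1.sub c2).norm
      obtain ⟨x, hx, hmin⟩ := hK.exists_isMinOn hne hf.continuousOn
      obtain ⟨hx1, hx2⟩ := hx
      refine ⟨‖P.pt l₁ x.1 - P.pt l₂ x.2‖, ?_, ?_⟩
      · refine lt_of_le_of_ne (norm_nonneg _) fun h0 => ?_
        have z1 : P.pt l₁ x.1 = P.pt l₂ x.2 := sub_eq_zero.1 (norm_eq_zero.1 h0.symm)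
        have g2 : P.g l₂ (P.pt l₁ x.1) = 0 := by
          rw [z1]
          exact P.g_pt_self l₂ _
        rcases side_zero P (Ne.symm d1) hx1 g2 with ⟨-, a2⟩ | ⟨-, a2⟩
        · exact d3 a2
        · exact d2 a2.symm
      · intro c' hc' _ _ _ s₁ h1 s₂ h2
        exact hc'.trans (hmin (show (s₁, s₂) ∈ K from ⟨h1, h2⟩))
    · exact ⟨1, one_pos, fun c' _ h1 h2 h3 => (hd ⟨h1, h2, h3⟩).elim⟩)
  exact ⟨c, hc, fun l₁ l₂ h1 h2 h3 => H (l₁, l₂) h1 h2 h3⟩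

end Pool.Agent.GRM
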