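import Pool.Agent.GRM.Lnk1
import Pool.Agent.GRM.Ang
import Pool.Agent.GRM.Vtx

/-! GRM-Lnk2: the orbit of a vertex ray as a chain of phase points (imports Lnk1, Ang, Vtx).

* `hits_vertex`: the point `z = (k + 1, φ, 0)` (not in the phase space: the base point is the vertex `V (k+1)`), `vel z = dir (k+1) * uv φ`, `lnz z = lr k φ 0`.
* `chain_of_Rch`: induction on the word from a phase point (`lnz_exists`), first step by `hits_vertex`. -/

namespace Pool.Agent.GRM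

open Bil62 Bil62.ConvexPolygon MeasureTheory Set

variable {n : ℕ} [NeZero n] (P : ConvexPolygon n)

private theorem lnk_pos (k : Fin n) (φ : ℝ) : P.pos (k + 1, φ, 0) = P.V (k + 1) := by
  unfold ConvexPolygon.pos
  simp

theorem lnz_vertex (k : Fin n) (φ : ℝ) : lnz P (k + 1, φ, 0) = lr P k φ 0 := by
  refine Prod.ext rfl ?_
  change cross (P.vel (k + 1, φ, 0)) (P.pos (k + 1, φ, 0)) =
    cross (P.dir (k + 1) * uv φ) (P.V (k + 1)) + 0
  rw [lnk_pos, add_zero]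
  rfl

theorem hits_vertex {k l : Fin n} {φ : ℝ} (hφ : φ ∈ Ioo 0 (ang P k)) (h : Ex P l (lr P k φ 0)) :
    ∃ z' ∈ P.Phase, z'.1 = l ∧ P.Hits (k + 1, φ, 0) z' := by
  have hInto : Into P k (P.vel (k + 1, φ, 0)) := Into_of P hφ
  rw [← lnz_vertex] at h
  have hgl : 0 < P.g l (P.V (k + 1)) := exit_pos P (x := lnz P (k + 1, φ, 0)) hInto h
  have hE : P.Exit (P.vel (k + 1, φ, 0)) (P.pv (k + 1, φ, 0)) l := h
  obtain ⟨s, hs, hp⟩ := P.exit_pt hE
  have hcl := P.exit_cross hE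
  obtain ⟨θ, hθ, hv⟩ := exists_angle (P.norm_dir l) (P.norm_vel (k + 1, φ, 0)) hcl
  have hl := on_line (P.norm_vel (k + 1, φ, 0))
    (show cross (P.vel (k + 1, φ, 0)) (P.pos (k + 1, φ, 0)) =
      cross (P.vel (k + 1, φ, 0)) (P.pt l s) from hp.symm)
  set t := dot (P.vel (k + 1, φ, 0)) (P.pt l s - P.pos (k + 1, φ, 0)) with ht
  have h0 : P.g l (P.V (k + 1)) + t * cross (P.dir l) (P.vel (k + 1, φ, 0)) = 0 := by
    have h1 := P.g_pt_self l s
    rw [hl, P.g_add_smul, lnk_pos] at h1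
    exact h1
  have htpos : 0 < t := by
    by_contra hneg
    have h2 := mul_nonneg_of_nonpos_of_nonpos (not_lt.1 hneg) hcl.le
    linarith
  refine ⟨(l, θ, s), ⟨hθ, hs⟩, rfl, t, htpos, hl, ?_, hv⟩
  intro r hr
  rw [P.mem_interior_iff]
  intro j
  rw [P.g_add_smul, lnk_pos]
  have hr1 := hr.1
  have hr2 := hr.2
  by_cases hj : j = l
  · rw [hj]
    have h3 : t * cross (P.dir l) (P.vel (k + 1, φ, 0)) <
        r * cross (P.dir l) (P.vel (k + 1, φ, 0)) := mul_lt_mul_of_neg_right hr2 hcl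
    linarith
  · have h1 := P.g_pt_pos hj hs
    rw [hl, P.g_add_smul, lnk_pos] at h1
    have h2 := P.g_V_nonneg j (k + 1)
    set c := cross (P.dir j) (P.vel (k + 1, φ, 0))
    set G := P.g j (P.V (k + 1))
    rcases lt_trichotomy c 0 with hc | hc | hc
    · have h3 : t * c < r * c := mul_lt_mul_of_neg_right hr2 hc
      linarith
    · rw [hc, mul_zero] at h1 ⊢
      exact h1
    · have := mul_pos hr1 hc
      linarith

private theorem chain_base {z z' : Fin n × ℝ × ℝ} (hz' : z' ∈ P.Phase) (hh : P.Hits z z') :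
    ∃ (N : ℕ) (y : ℕ → Fin n × ℝ × ℝ), y 0 = z ∧
      (∀ m ≤ N, y (m + 1) ∈ P.Phase ∧ P.Hits (y m) (y (m + 1))) ∧ (y (N + 1)).1 = z'.1 := by
  refine ⟨0, fun m => Nat.casesOn m z fun _ => z', rfl, ?_, rfl⟩
  intro m hm
  obtain rfl : m = 0 := Nat.le_zero.1 hm
  exact ⟨hz', hh⟩

private theorem chain_cons {i : Fin n} {z z' : Fin n × ℝ × ℝ} (hz' : z' ∈ P.Phase)
    (hh : P.Hits z z') (h : ∃ (N : ℕ) (y : ℕ → Fin n × ℝ × ℝ), y 0 = z' ∧
      (∀ m ≤ N, y (m + 1) ∈ P.Phase ∧ P.Hits (y m) (y (m + 1))) ∧ (y (N + 1)).1 = i) :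
    ∃ (N : ℕ) (y : ℕ → Fin n × ℝ × ℝ), y 0 = z ∧
      (∀ m ≤ N, y (m + 1) ∈ P.Phase ∧ P.Hits (y m) (y (m + 1))) ∧ (y (N + 1)).1 = i := by
  obtain ⟨N, y, h0, h1, h2⟩ := h
  refine ⟨N + 1, fun m => Nat.casesOn m z fun m => y m, rfl, ?_, h2⟩
  intro m hm
  cases m with
  | zero =>
    change y 0 ∈ P.Phase ∧ P.Hits z (y 0)
    rw [h0]
    exact ⟨hz', hh⟩
  | succ m => exact h1 m (by omega)

private theorem chain_of_Wd {i : Fin n} (ω : List (Fin n)) : ∀ {z : Fin n × ℝ × ℝ},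
    z ∈ P.Phase → Wd P ω (lnz P z) → Ex P i (Tw P ω (lnz P z)) →
    ∃ (N : ℕ) (y : ℕ → Fin n × ℝ × ℝ), y 0 = z ∧
      (∀ m ≤ N, y (m + 1) ∈ P.Phase ∧ P.Hits (y m) (y (m + 1))) ∧ (y (N + 1)).1 = i := by
  induction ω with
  | nil =>
    intro z hz _ h
    obtain ⟨z', hz', hi, hh, _⟩ := lnz_exists P hz h
    rw [← hi]
    exact chain_base P hz' hh
  | cons l ω ih =>
    intro z hz hw h
    obtain ⟨z', hz', _, hh, hT⟩ := lnz_exists P hz hw.1
    refine chain_cons P hz' hh (ih hz' ?_ ?_)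
    · rw [hT]
      exact hw.2
    · rw [hT]
      exact h

theorem chain_of_Rch {i k : Fin n} {φ : ℝ} (hφ : φ ∈ Ioo 0 (ang P k)) (h : Rch P i (lr P k φ 0)) :
    ∃ (N : ℕ) (y : ℕ → Fin n × ℝ × ℝ), y 0 = (k + 1, φ, 0) ∧
      (∀ m ≤ N, y (m + 1) ∈ P.Phase ∧ P.Hits (y m) (y (m + 1))) ∧ (y (N + 1)).1 = i := by
  obtain ⟨ω, hw, hE⟩ := h
  cases ω with
  | nil =>
    obtain ⟨z', hz', hi, hh⟩ := hits_vertex P hφ hE
    rw [← hi]
    exact chain_base P hz' hh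
  | cons l ω =>
    obtain ⟨z', hz', hi, hh⟩ := hits_vertex P hφ hw.1
    have hT := (lnz_hits P hz' hh).2
    rw [lnz_vertex, hi] at hT
    refine chain_cons P hz' hh (chain_of_Wd P ω hz' ?_ ?_)
    · rw [hT]
      exact hw.2
    · rw [hT]
      exact hE

end Pool.Agent.GRM
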