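import Pool.Agent.GRM.Bad2
import Pool.Agent.GRM.Fan2

/-! GRM-OpD: there is no open set of lines that never meet side `i`: by `bad1` and `bad2` all its lines are
regular, and `fan2` excludes this. -/

namespace Pool.Agent.GRM

open Bil62 Bil62.ConvexPolygon MeasureTheory Set

variable {n : ℕ} [NeZero n] (P : ConvexPolygon n)

theorem opD {i : Fin n} (hf : ∀ j, Full P i j) {a b s₁ s₂ : ℝ} {k : Fin n} (hab : a < b) (hs : s₁ < s₂)
    (hs1 : 0 ≤ s₁) (hs2 : s₂ ≤ P.len k)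
    (h1 : ∀ α ∈ Ioo a b, ∀ s ∈ Ioo s₁ s₂, En P k (uv α, cross (uv α) (P.pt k s)))
    (h2 : ∀ α ∈ Ioo a b, ∀ s ∈ Ioo s₁ s₂, ¬ Rch P i (uv α, cross (uv α) (P.pt k s)))
    (h3 : ∀ α ∈ Ioo a b, ∀ s ∈ Ioo s₁ s₂, ¬ Rch P i (rv (uv α, cross (uv α) (P.pt k s)))) : False := by
  have h4 : ∀ᵐ α : ℝ, α ∈ Ioo a b → ∀ s ∈ Ioo s₁ s₂, Reg P (uv α, cross (uv α) (P.pt k s)) := by
    filter_upwards [bad1 P hf] with α hα hab' s hs'
    exact hα k _ (h1 α hab' s hs') (h2 α hab' s hs') (h3 α hab' s hs')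
  have h5 := bad2 P h1 h4
  have hm : (s₁ + s₂) / 2 ∈ Ioo s₁ s₂ := ⟨by linarith, by linarith⟩
  exact fan2 P hab (s := (s₁ + s₂) / 2) ⟨by linarith, by linarith⟩
    (fun α hα => h1 α hα _ hm) (fun α hα => h5 α hα _ hm)


end Pool.Agent.GRM
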