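import Pool.Agent.GRM.Lnk1

/-! GRM-Trp: almost every point outside of `M` has an orbit that never meets side `i` (imports Lnk1).

PLAN.  `N = Mᶜ` is a trap (`trap_of_invariant`); `Trap.orbit` gives for a.e. `z ∉ M` a two-sided chain `y : ℤ → _`, `y 0 = z`, of `Hits` in the phase space missing side `i`.
`Rch_chain` for `fun m : ℕ => y m`.  For the past: `Rch_rv_lnz` and `Rch_chain` for `fun m : ℕ => rev (y (-m))` (`hits_rev`, `rev_phase`). -/

namespace Pool.Agent.GRM

open Bil62 Bil62.ConvexPolygon MeasureTheory Set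

variable {n : ℕ} [NeZero n] (P : ConvexPolygon n)

theorem trp {i : Fin n} {M : Set (Fin n × ℝ × ℝ)} (hM : P.Invariant M)
    (hi : P.mu ({z | z.1 = i} \ M) = 0) :
    ∀ᵐ z ∂P.mu, z ∉ M → z ∈ P.Phase ∧ ¬ Rch P i (lnz P z) ∧ ¬ Rch P i (rv (lnz P z)) := by
  have hT : P.Trap i Mᶜ := P.trap_of_invariant hM hi
  filter_upwards [hT.orbit] with z hz hzM
  obtain ⟨y, hy0, hy⟩ := hz hzM
  subst hy0
  refine ⟨(hy 0).1, ?_, ?_⟩
  · have h1 := Rch_chain P (i := i) (y := fun m : ℕ => y m) (fun m => (hy m).1)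
      (fun m => by
        have h2 := (hy m).2.2
        show P.Hits (y (m : ℤ)) (y ((m + 1 : ℕ) : ℤ))
        rw [Nat.cast_add, Nat.cast_one]
        exact h2) (fun m => (hy m).2.1)
    exact h1
  · intro h
    have h1 := Rch_rv_lnz P (hy 0).1 (hy 0).2.1 h
    have h2 := Rch_chain P (i := i) (y := fun m : ℕ => rev (y (-(m : ℤ))))
      (fun m => P.rev_phase (hy _).1)
      (fun m => by
        have h3 := (hy (-((m + 1 : ℕ) : ℤ))).2.2
        have h4 : -((m + 1 : ℕ) : ℤ) + 1 = -(m : ℤ) := by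
          rw [Nat.cast_add, Nat.cast_one]
          ring
        rw [h4] at h3
        exact P.hits_rev h3) (fun m => (hy (-(m : ℤ))).2.1)
    apply h2
    show Rch P i (lnz P (rev (y (-((0 : ℕ) : ℤ)))))
    rw [Nat.cast_zero, neg_zero]
    exact h1

end Pool.Agent.GRM
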