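import Pool.Agent.GRM.Rot
import Pool.Agent.GRM.OpD
import Pool.Agent.GRM.Lnk2
import Pool.Agent.GRM.Trp
import Pool.Agent.GRM.Opn
import Pool.Agent.GRM.Den3

/-! GRM-Main: assembly. -/

namespace Pool.Agent.GRM

open Bil62 Bil62.ConvexPolygon MeasureTheory Set Filter Topology

variable {n : ℕ} [NeZero n] (P : ConvexPolygon n)

/-- the angle at `V (k + 1)` is an irrational multiple of `π`, or `V (k + 1)` is an end of `a_i` -/
private def Ok (i k : Fin n) : Prop := k = i ∨ k + 1 = i ∨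
  Irrational (EuclideanGeometry.angle (P.V k) (P.V (k + 1)) (P.V (k + 1 + 1)) / Real.pi)

private theorem full_of_ok {i k : Fin n} (h : Ok P i k) : Full P i k := by
  rcases h with h | h | h
  · exact rot_ends P (Or.inl h)
  · exact rot_ends P (Or.inr h)
  · exact rot P (by rwa [ang_eq])

/-- the phase points whose orbit meets side `i` -/
private def ZZ (i : Fin n) : Set (Fin n × ℝ × ℝ) := {z | Rch P i (lnz P z) ∨ Rch P i (rv (lnz P z))}

private theorem isOpen_ZZ (i : Fin n) : IsOpen (ZZ P i) :=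
  ((isOpen_Rch P i).preimage (continuous_lnz P)).union
    ((isOpen_Rch P i).preimage (continuous_rv.comp (continuous_lnz P)))

private theorem ae_phase : ∀ᵐ z ∂P.mu, z ∈ P.Phase := P.ae_dom.mono fun z h => h.1

private theorem null_ZZ {i : Fin n} {M : Set (Fin n × ℝ × ℝ)} (hM : P.Invariant M)
    (hi : P.mu ({z | z.1 = i} \ M) = 0) : P.mu (ZZ P i \ M) = 0 := by
  rw [measure_eq_zero_iff_ae_notMem]
  filter_upwards [trp P hM hi] with z hz hz'
  obtain ⟨h1, h2⟩ := hz'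
  obtain ⟨-, h3, h4⟩ := hz h2
  rcases h1 with h1 | h1
  · exact h3 h1
  · exact h4 h1

private theorem dense_ZZ {i : Fin n} (hall : ∀ k : Fin n, Ok P i k) : P.Phase ⊆ closure (ZZ P i) := by
  intro z hz
  rw [mem_closure_iff]
  intro U hU hzU
  by_contra hne
  rw [not_nonempty_iff_eq_empty] at hne
  have h0 : P.mu (ZZ P i ∩ U) = 0 := by rw [inter_comm, hne, measure_empty]
  have h1 : ∀ᵐ z ∂P.mu, z ∉ ZZ P i → ¬ Rch P i (lnz P z) ∧ ¬ Rch P i (rv (lnz P z)) :=
    Eventually.of_forall fun z hz => ⟨fun h => hz (Or.inl h), fun h => hz (Or.inr h)⟩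
  obtain ⟨k, a, b, s₁, s₂, hab, hs, hs1, hs2, h⟩ := opn P hU ⟨z, hzU, hz⟩ h0 h1
  exact opD P (fun j => full_of_ok P (hall j)) hab hs hs1 hs2 (fun α hα s hs' => (h α hα s hs').1)
    (fun α hα s hs' => (h α hα s hs').2.1) (fun α hα s hs' => (h α hα s hs').2.2)

private theorem null_frontier {i : Fin n} (hall : ∀ k : Fin n, Ok P i k) {M : Set (Fin n × ℝ × ℝ)}
    (hM : P.Invariant M) (hi : P.mu ({z | z.1 = i} \ M) = 0) (hfr : P.mu (frontier M) = 0) :
    P.mu Mᶜ = 0 := by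
  have hsub : Mᶜ ⊆ interior Mᶜ ∪ frontier M := by
    intro z hz
    by_cases h : z ∈ interior Mᶜ
    · exact Or.inl h
    · right
      rw [← frontier_compl]
      exact ⟨subset_closure hz, h⟩
  have hint : P.mu (interior Mᶜ) = 0 := by
    by_contra hne
    have hmeet : (interior Mᶜ ∩ P.Phase).Nonempty := by
      by_contra hemp
      rw [not_nonempty_iff_eq_empty] at hemp
      apply hne
      rw [measure_eq_zero_iff_ae_notMem]
      filter_upwards [ae_phase P] with z hz hz'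
      have : z ∈ interior Mᶜ ∩ P.Phase := ⟨hz', hz⟩
      rw [hemp] at this
      exact this
    obtain ⟨z, hz1, hz2⟩ := hmeet
    have hPo : IsOpen P.Phase := by
      have : P.Phase = ⋃ k : Fin n, {z | z.1 = k ∧ z.2.1 ∈ Ioo 0 Real.pi ∧ z.2.2 ∈ Ioo 0 (P.len k)} := by
        ext z
        simp only [mem_iUnion]
        constructor
        · intro h
          exact ⟨z.1, rfl, h.1, h.2⟩
        · rintro ⟨k, h1, h2, h3⟩
          subst h1
          exact ⟨h2, h3⟩
      rw [this]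
      refine isOpen_iUnion fun k => ?_
      exact ((isOpen_discrete {k}).preimage continuous_fst).inter
        ((isOpen_Ioo.preimage (continuous_fst.comp continuous_snd)).inter
          (isOpen_Ioo.preimage (continuous_snd.comp continuous_snd)))
    obtain ⟨w, ⟨hw1, hw2⟩, hw3⟩ := mem_closure_iff.1 (dense_ZZ P hall hz2) _
      (isOpen_interior.inter hPo) ⟨hz1, hz2⟩
    have h1 := mu_open P (W := interior Mᶜ ∩ ZZ P i) (isOpen_interior.inter (isOpen_ZZ P i))
      ⟨w, ⟨hw1, hw3⟩, hw2⟩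
    have h2 : P.mu (interior Mᶜ ∩ ZZ P i) = 0 := by
      refine measure_mono_null ?_ (null_ZZ P hM hi)
      exact fun z hz => ⟨hz.2, interior_subset hz.1⟩
    rw [h2] at h1
    exact lt_irrefl _ h1
  exact measure_mono_null hsub (measure_union_null hint hfr)

theorem main (i : Fin n) :
    (∀ M : Set (Fin n × ℝ × ℝ), P.Invariant M → P.mu ({z | z.1 = i} \ M) = 0 →
      ∀ᵐ z ∂P.mu, z ∉ M → (range fun m : ℕ => P.vel (P.billiardMap^[m] z)).Infinite) ∧
    (∀ k : Fin n, (k = i ∨ k + 1 = i ∨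
        Irrational (EuclideanGeometry.angle (P.V k) (P.V (k + 1)) (P.V (k + 1 + 1)) / Real.pi)) →
      ∀ᵐ φ : ℝ, φ ∈ Ioo 0 (EuclideanGeometry.angle (P.V k) (P.V (k + 1)) (P.V (k + 1 + 1))) →
        ∃ (N : ℕ) (y : ℕ → Fin n × ℝ × ℝ), y 0 = (k + 1, φ, 0) ∧
          (∀ m ≤ N, y (m + 1) ∈ P.Phase ∧ P.Hits (y m) (y (m + 1))) ∧ (y (N + 1)).1 = i) ∧
    (∃ Z : Set (Fin n × ℝ × ℝ), IsOpen Z ∧
      (∀ M : Set (Fin n × ℝ × ℝ), P.Invariant M → P.mu ({z | z.1 = i} \ M) = 0 → P.mu (Z \ M) = 0) ∧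
      (∀ k : Fin n, (k = i ∨ k + 1 = i ∨
          Irrational (EuclideanGeometry.angle (P.V k) (P.V (k + 1)) (P.V (k + 1 + 1)) / Real.pi)) →
        Tendsto (fun ρ : ℝ => P.mu {z | z ∈ P.Phase ∧ z ∉ Z ∧ ‖P.pos z - P.V (k + 1)‖ < ρ} /
          ENNReal.ofReal ρ) (𝓝[>] 0) (𝓝 0)) ∧
      ((∀ k : Fin n, k = i ∨ k + 1 = i ∨
          Irrational (EuclideanGeometry.angle (P.V k) (P.V (k + 1)) (P.V (k + 1 + 1)) / Real.pi)) →
        P.Phase ⊆ closure Z)) ∧
    ((∀ k : Fin n, k = i ∨ k + 1 = i ∨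
        Irrational (EuclideanGeometry.angle (P.V k) (P.V (k + 1)) (P.V (k + 1 + 1)) / Real.pi)) →
      ∀ M : Set (Fin n × ℝ × ℝ), P.Invariant M → P.mu ({z | z.1 = i} \ M) = 0 →
        P.mu (frontier M) = 0 → P.mu Mᶜ = 0) := by
  refine ⟨fun M hM hi => ?_, fun k hk => ?_, ⟨ZZ P i, isOpen_ZZ P i, fun M hM hi => null_ZZ P hM hi,
    fun k hk => den P (full_of_ok P hk) (isOpen_ZZ P i).measurableSet
      (Eventually.of_forall fun z hz h => hz (Or.inl h)), fun hall => dense_ZZ P hall⟩,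
    fun hall M hM hi hfr => null_frontier P hall hM hi hfr⟩
  · filter_upwards [(P.trap_of_invariant hM hi).infinite_fwd, ae_iterate (P := P)] with z h1 h2 hz
    have h3 := h1 hz
    have e : (fun m : ℕ => P.vel (P.phi^[m] z)) = fun m : ℕ => P.vel (P.billiardMap^[m] z) := by
      funext m
      rw [h2 m]
    rwa [e] at h3
  · have h1 := (full_iff P i k).1 (full_of_ok P hk)
    rw [← ang_eq]
    filter_upwards [h1] with φ h2 hφ
    exact chain_of_Rch P hφ (h2 hφ)

end Pool.Agent.GRM
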