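import Pool.Agent.GRM.Rot
import Pool.Agent.GRM.Lnk2
import Pool.Agent.GRM.Trp
import Pool.Agent.GRM.Den3
import Pool.Agent.GRM.FibD
import Pool.Agent.GRM.HorB
import Pool.Agent.GRM.FibE

/-! GRM-Main3: assembly of the fibrewise version. -/

namespace Pool.Agent.GRM

open Bil62 Bil62.ConvexPolygon MeasureTheory Set Filter Topology

variable {n : ℕ} [NeZero n] (P : ConvexPolygon n)

/-- the angle at `V (k + 1)` is an irrational multiple of `π`, or `V (k + 1)` is an end of `a_i` -/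
private def Ok (i k : Fin n) : Prop := k = i ∨ k + 1 = i ∨
  Irrational (EuclideanGeometry.angle (P.V k) (P.V (k + 1)) (P.V (k + 1 + 1)) / Real.pi)

private theorem full_of_ok {i k : Fin n} (h : Ok P i k) : Full P i k := by
  rcases h with h | h | h
  · exact rot_ends P (Or.inl h)
  · exact rot_ends P (Or.inr h)
  · exact rot P (by rwa [ang_eq])

/-- the phase points whose orbit meets side `i` -/
private def ZZ (i : Fin n) : Set (Fin n × ℝ × ℝ) := {z | Rch P i (lnz P z) ∨ Rch P i (rv (lnz P z))}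

private theorem isOpen_ZZ (i : Fin n) : IsOpen (ZZ P i) :=
  ((isOpen_Rch P i).preimage (continuous_lnz P)).union
    ((isOpen_Rch P i).preimage (continuous_rv.comp (continuous_lnz P)))

private theorem null_ZZ {i : Fin n} {M : Set (Fin n × ℝ × ℝ)} (hM : P.Invariant M)
    (hi : P.mu ({z | z.1 = i} \ M) = 0) : P.mu (ZZ P i \ M) = 0 := by
  rw [measure_eq_zero_iff_ae_notMem]
  filter_upwards [trp P hM hi] with z hz hz'
  obtain ⟨h1, h2⟩ := hz'
  obtain ⟨-, h3, h4⟩ := hz h2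
  rcases h1 with h1 | h1
  · exact h3 h1
  · exact h4 h1

private theorem dense_of_Ioo {L : ℝ} {A : Set ℝ}
    (h : ∀ s₁ s₂ : ℝ, 0 ≤ s₁ → s₁ < s₂ → s₂ ≤ L → ∃ s ∈ Ioo s₁ s₂, s ∈ A) : Ioo 0 L ⊆ closure A := by
  intro s hs
  rw [Metric.mem_closure_iff]
  intro ε hε
  obtain ⟨t, ht, htA⟩ := h s (min (s + ε) L) hs.1.le (lt_min (by linarith) hs.2) (min_le_right _ _)
  refine ⟨t, htA, ?_⟩
  rw [Real.dist_eq, abs_sub_comm, abs_of_pos (by linarith [ht.1])]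
  have := ht.2.trans_le (min_le_left _ _)
  linarith

theorem main3 (i : Fin n) :
    (∀ M : Set (Fin n × ℝ × ℝ), P.Invariant M → P.mu ({z | z.1 = i} \ M) = 0 →
      ∀ᵐ z ∂P.mu, z ∉ M → (range fun m : ℕ => P.vel (P.billiardMap^[m] z)).Infinite) ∧
    (∀ k : Fin n, (k = i ∨ k + 1 = i ∨
        Irrational (EuclideanGeometry.angle (P.V k) (P.V (k + 1)) (P.V (k + 1 + 1)) / Real.pi)) →
      ∀ᵐ φ : ℝ, φ ∈ Ioo 0 (EuclideanGeometry.angle (P.V k) (P.V (k + 1)) (P.V (k + 1 + 1))) →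
        ∃ (N : ℕ) (y : ℕ → Fin n × ℝ × ℝ), y 0 = (k + 1, φ, 0) ∧
          (∀ m ≤ N, y (m + 1) ∈ P.Phase ∧ P.Hits (y m) (y (m + 1))) ∧ (y (N + 1)).1 = i) ∧
    (∃ Z : Set (Fin n × ℝ × ℝ), IsOpen Z ∧
      (∀ M : Set (Fin n × ℝ × ℝ), P.Invariant M → P.mu ({z | z.1 = i} \ M) = 0 → P.mu (Z \ M) = 0) ∧
      (∀ k : Fin n, (k = i ∨ k + 1 = i ∨
          Irrational (EuclideanGeometry.angle (P.V k) (P.V (k + 1)) (P.V (k + 1 + 1)) / Real.pi)) →
        Tendsto (fun ρ : ℝ => P.mu {z | z ∈ P.Phase ∧ z ∉ Z ∧ ‖P.pos z - P.V (k + 1)‖ < ρ} /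
          ENNReal.ofReal ρ) (𝓝[>] 0) (𝓝 0)) ∧
      ((∀ k : Fin n, k = i ∨ k + 1 = i ∨
          Irrational (EuclideanGeometry.angle (P.V k) (P.V (k + 1)) (P.V (k + 1 + 1)) / Real.pi)) →
        ∀ k : Fin n,
          (∀ᵐ θ : ℝ, θ ∈ Ioo 0 Real.pi → Ioo 0 (P.len k) ⊆ closure {s | (k, θ, s) ∈ Z}) ∧
          (∀ᵐ s : ℝ, s ∈ Ioo 0 (P.len k) → Ioo 0 Real.pi ⊆ closure {θ | (k, θ, s) ∈ Z}))) ∧
    ((∀ k : Fin n, k = i ∨ k + 1 = i ∨
        Irrational (EuclideanGeometry.angle (P.V k) (P.V (k + 1)) (P.V (k + 1 + 1)) / Real.pi)) →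
      ∀ M : Set (Fin n × ℝ × ℝ), P.Invariant M → P.mu ({z | z.1 = i} \ M) = 0 →
        (∀ k : Fin n, ∀ᵐ θ : ℝ, θ ∈ Ioo 0 Real.pi →
          volume (frontier {s | s ∈ Ioo 0 (P.len k) ∧ (k, θ, s) ∈ M}) = 0) → P.mu Mᶜ = 0) := by
  refine ⟨fun M hM hi => ?_, fun k hk => ?_, ⟨ZZ P i, isOpen_ZZ P i, fun M hM hi => null_ZZ P hM hi,
    fun k hk => den P (full_of_ok P hk) (isOpen_ZZ P i).measurableSet
      (Eventually.of_forall fun z hz h => hz (Or.inl h)), fun hall k => ⟨?_, ?_⟩⟩,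
    fun hall M hM hi hfr => fibE P (isOpen_ZZ P i) hM.1 (null_ZZ P hM hi)
      (fun k => fibD P (fun j => full_of_ok P (hall j)) k) hfr⟩
  · filter_upwards [(P.trap_of_invariant hM hi).infinite_fwd, ae_iterate (P := P)] with z h1 h2 hz
    have h3 := h1 hz
    have e : (fun m : ℕ => P.vel (P.phi^[m] z)) = fun m : ℕ => P.vel (P.billiardMap^[m] z) := by
      funext m
      rw [h2 m]
    rwa [e] at h3
  · have h1 := (full_iff P i k).1 (full_of_ok P hk)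
    rw [← ang_eq]
    filter_upwards [h1] with φ h2 hφ
    exact chain_of_Rch P hφ (h2 hφ)
  · filter_upwards [fibD P (fun j => full_of_ok P (hall j)) k] with θ h hθ
    exact dense_of_Ioo (h hθ)
  · filter_upwards [horB P (fun j => full_of_ok P (hall j)) k] with s h hs
    exact dense_of_Ioo (h hs)

end Pool.Agent.GRM
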