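import Pool.Agent.GRM.Foc
import Pool.Agent.GRM.Vtx

/-! GRM-Sing: almost every ray from a vertex never arrives at a vertex (imports Foc, Vtx). -/

namespace Pool.Agent.GRM

open Bil62 Bil62.ConvexPolygon MeasureTheory Set

theorem null_cross (c : ℝ) {ε : ℝ} (hε : ε = 1 ∨ ε = -1) {w : ℂ} (hw : w ≠ 0) :
    ∀ᵐ α : ℝ, cross (uv (c + ε * α)) w ≠ 0 := by
  rw [ae_iff]
  refine measure_mono_null (t := Set.range (fun m : ℤ => ε * (Complex.arg w - m * Real.pi - c))) ?_
    ((Set.countable_range _).measure_zero _)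
  intro α hα
  have h1 : cross (uv (c + ε * α)) w = 0 := by
    by_contra hne
    exact hα hne
  have h2 : w = ((‖w‖ : ℝ) : ℂ) * uv (Complex.arg w) := by
    unfold uv
    exact (Complex.norm_mul_exp_arg_mul_I w).symm
  rw [h2, cross_smul_right, cross_uv] at h1
  have h3 : Real.sin (Complex.arg w - (c + ε * α)) = 0 := by
    rcases mul_eq_zero.1 h1 with h | h
    · exact absurd h (norm_ne_zero_iff.2 hw)
    · exact h
  obtain ⟨m, hm⟩ := Real.sin_eq_zero_iff.1 h3
  refine ⟨m, ?_⟩
  show ε * (Complex.arg w - m * Real.pi - c) = α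
  have h4 : ε * ε = 1 := by
    rcases hε with h | h
    · rw [h]; norm_num
    · rw [h]; norm_num
  rw [hm]
  linear_combination α * h4

variable {n : ℕ} [NeZero n] (P : ConvexPolygon n)

theorem sing (k : Fin n) : ∀ᵐ α : ℝ, Into P k (uv α) → Reg P (vr P k α) := by
  have H0 : ∀ᵐ α : ℝ, ∀ (ω : List (Fin n)) (j : Fin n), P.V j ≠ fo P ω (P.V (k + 1)) →
      cross (uv (cw P ω + sg ω * α)) (P.V j - fo P ω (P.V (k + 1))) ≠ 0 := by
    rw [ae_all_iff]
    intro ω
    rw [ae_all_iff]
    intro j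
    by_cases h : P.V j = fo P ω (P.V (k + 1))
    · exact ae_of_all _ fun α h' => absurd h h'
    · filter_upwards [null_cross (cw P ω) (sg_eq ω) (sub_ne_zero.2 h)] with α hα _ using hα
  filter_upwards [H0] with α H hI
  have hx : ‖(vr P k α).1‖ = 1 := norm_uv α
  have hv : (vr P k α).2 = cross (vr P k α).1 (P.V (k + 1)) := rfl
  have hI' : Into P k (vr P k α).1 := hI
  have key : ∀ ω : List (Fin n), Wd P ω (vr P k α) → ∃ l, Ex P l (Tw P ω (vr P k α)) := by
    intro ω hω
    have hF := fo_cross P ω hv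
    have hy : (Tw P ω (vr P k α)).1 = uv (cw P ω + sg ω * α) := Tw_uv P ω α _
    have hno : ∀ j, P.V j ≠ fo P ω (P.V (k + 1)) →
        (Tw P ω (vr P k α)).2 ≠ cross (Tw P ω (vr P k α)).1 (P.V j) := by
      intro j hj h
      refine H ω j hj ?_
      rw [← hy, cross_sub_right, ← h, ← hF, sub_self]
    rcases List.eq_nil_or_concat ω with h | ⟨ω₁, l, h⟩
    · subst h
      rcases vr_exit P hx hv hI' with h1 | ⟨j, hj, h2⟩
      · exact h1
      · exact absurd h2 (hno j fun h3 => hj (P.V_inj h3))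
    · rw [List.concat_eq_append] at h
      subst h
      have hw := (Wd_append P ω₁ [l] _).1 hω
      have hex : Ex P l (Tw P ω₁ (vr P k α)) := hw.2.1
      have hTw : Tw P (ω₁ ++ [l]) (vr P k α) = T P l (Tw P ω₁ (vr P k α)) := Tw_append P ω₁ [l] _
      have hen : En P l (Tw P (ω₁ ++ [l]) (vr P k α)) := by
        rw [hTw]
        exact (En_T P).2 hex
      have hn : ‖(Tw P (ω₁ ++ [l]) (vr P k α)).1‖ = 1 := by
        rw [norm_Tw]
        exact hx
      rcases line_exit P hn hen with h1 | ⟨k', h2, -⟩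
      · exact h1
      · have hlast := fo_last P ω₁ l hx hv (fun l' hl' => exit_pos P hI' hl') hω
        refine absurd h2 (hno (k' + 1) fun h3 => ?_)
        have h4 := P.g_V_nonneg l (k' + 1)
        rw [h3] at h4
        exact absurd hlast (not_lt.2 h4)
  intro m
  induction m with
  | zero => exact ⟨[], rfl, trivial⟩
  | succ m ih =>
    obtain ⟨ω, hlen, hω⟩ := ih
    obtain ⟨l, hl⟩ := key ω hω
    refine ⟨ω ++ [l], ?_, ?_⟩
    · rw [List.length_append, hlen]
      rfl
    · rw [Wd_append]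
      exact ⟨hω, hl, trivial⟩

end Pool.Agent.GRM
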