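import Pool.Agent.GRM.Ang
import Pool.Agent.GRM.RchA

/-! GRM-Vis: from a vertex off `a_i` the side `i` is directly visible (imports Ang, RchA).

PLAN.  `V = V (k+1)`, `z = pt i (len i / 2)` the midpoint of side `i`, `k ≠ i`, `k + 1 ≠ i`: `g k z > 0` and `g (k+1) z > 0` (`g_pt_pos`).  `u = (z - V) / ‖z - V‖`
(`z ≠ V` as `g k V = 0`), `α = arg u`, `uv α = u`.  `Into k u`: `cross (dir m) (z - V) = g m z - g m V = g m z > 0` for `m = k, k + 1` (`g_V_succ`, `g_V_self`).
`Ex i (vr k α)`: `exit_of_pt` with `cross (dir i) u < 0`: `cross (dir i) (z - V) = g i z - g i V = - g i V < 0` (`g_V_pos`: `k + 1 ≠ i`, and `k + 1 ≠ i + 1` since `k ≠ i`). -/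

namespace Pool.Agent.GRM

open Bil62 Bil62.ConvexPolygon MeasureTheory Set

variable {n : ℕ} [NeZero n] (P : ConvexPolygon n)

theorem vis {i k : Fin n} (h1 : k ≠ i) (h2 : k + 1 ≠ i) : ∃ α : ℝ, Into P k (uv α) ∧ Ex P i (vr P k α) := by
  have hlen := P.len_pos i
  have hs : P.len i / 2 ∈ Ioo 0 (P.len i) := ⟨by linarith, by linarith⟩
  set V : ℂ := P.V (k + 1) with hV
  set z : ℂ := P.pt i (P.len i / 2) with hz
  have g1 : 0 < P.g k z := P.g_pt_pos h1 hs
  have g2 : 0 < P.g (k + 1) z := P.g_pt_pos h2 hs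
  have g3 : 0 < P.g i V := P.g_V_pos h2 (fun h => h1 (add_right_cancel h))
  have gk : P.g k V = 0 := P.g_V_succ k
  have gk1 : P.g (k + 1) V = 0 := P.g_V_self (k + 1)
  have gi : P.g i z = 0 := P.g_pt_self i _
  have hne : z - V ≠ 0 := by
    intro h
    rw [sub_eq_zero] at h
    rw [h, gk] at g1
    exact lt_irrefl _ g1
  have hn : 0 < ‖z - V‖ := norm_pos_iff.2 hne
  have hu : uv (Complex.arg (z - V)) = ((‖z - V‖⁻¹ : ℝ) : ℂ) * (z - V) := by
    have h := Complex.norm_mul_exp_arg_mul_I (z - V)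
    have hn' : (‖z - V‖ : ℂ) ≠ 0 := by exact_mod_cast hn.ne'
    unfold uv
    push_cast
    rw [eq_comm, inv_mul_eq_iff_eq_mul₀ hn']
    exact h.symm
  have hcross : ∀ m, cross (P.dir m) (uv (Complex.arg (z - V))) = ‖z - V‖⁻¹ * (P.g m z - P.g m V) := by
    intro m
    rw [hu, cross_smul_right]
    unfold ConvexPolygon.g
    rw [← cross_sub_right]
    congr 2
    ring
  refine ⟨Complex.arg (z - V), ⟨?_, ?_⟩, ?_⟩
  · rw [hcross, gk, sub_zero]
    positivity
  · rw [hcross, gk1, sub_zero]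
    positivity
  · have hc : cross (P.dir i) (uv (Complex.arg (z - V))) < 0 := by
      rw [hcross, gi, zero_sub, mul_neg, neg_lt_zero]
      positivity
    refine P.exit_of_pt hs ?_ hc
    show cross (uv (Complex.arg (z - V))) z = cross (uv (Complex.arg (z - V))) V
    have h4 : cross (uv (Complex.arg (z - V))) (z - V) = 0 := by
      rw [hu, cross_smul_left, cross_self, mul_zero]
    rw [cross_sub_right] at h4
    linarith

end Pool.Agent.GRM
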