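import Pool.Agent.GRM.Germ
import Pool.Agent.GRM.Sing
import Pool.Agent.GRM.Cor2
import Pool.Agent.GRM.Erg
import Pool.Agent.GRM.Vis

/-! GRM-Rot: almost every ray from a vertex arrives at side `i` (imports Germ, Sing, Cor2, Erg, Vis).

`germ_lr`: `germ` and `sing`, transferred from `α` to `φ`.  `rot_ends`: the reversed line next to the vertex leaves through the side `i`.
`rot`: `erg` for the open set `O = {φ ∈ Ioo 0 γ | Rch i (lr k φ 0)}`, `γ = ang k`, not empty by `vis`. -/

namespace Pool.Agent.GRM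

open Bil62 Bil62.ConvexPolygon MeasureTheory Set

variable {n : ℕ} [NeZero n] (P : ConvexPolygon n)

private theorem uv_lr (k : Fin n) (φ : ℝ) :
    uv (Complex.arg (P.dir (k + 1)) + φ) = P.dir (k + 1) * uv φ := by
  have h := congrArg Prod.fst (lr_zero P k φ)
  exact h.symm

private theorem sh_lr (k : Fin n) (φ d : ℝ) :
    sh d (vr P k (Complex.arg (P.dir (k + 1)) + φ)) = lr P k φ d := by
  rw [← lr_zero]
  unfold sh lr
  ext1
  · rfl
  · simp only [add_zero]

theorem germ_lr (i k : Fin n) {η : ℝ} (hη : η = 1 ∨ η = -1) :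
    ∀ᵐ φ : ℝ, φ ∈ Ioo 0 (ang P k) → (∃ w > 0, ∀ d ∈ Ioo 0 w, Rch P i (rv (lr P k φ (η * d)))) →
      Rch P i (lr P k φ 0) := by
  have h0 : ∀ᵐ α : ℝ, Into P k (uv α) →
      (∃ w > 0, ∀ d ∈ Ioo 0 w, Rch P i (rv (sh (η * d) (vr P k α)))) → Rch P i (vr P k α) := by
    filter_upwards [germ P i k hη, sing P k] with α h1 h2 h3 h4
    exact h1 h3 (h2 h3) h4
  have h1 := (measurePreserving_add_left (volume : Measure ℝ)
    (Complex.arg (P.dir (k + 1)))).quasiMeasurePreserving.ae h0
  filter_upwards [h1] with φ h2 h3 h4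
  rw [lr_zero]
  apply h2
  · rw [uv_lr]
    exact Into_of P h3
  · obtain ⟨w, hw, h5⟩ := h4
    refine ⟨w, hw, fun d hd => ?_⟩
    rw [sh_lr]
    exact h5 d hd

theorem rot_ends {i k : Fin n} (h : k = i ∨ k + 1 = i) : Full P i k := by
  rw [full_iff]
  have hg := ang_lt P k
  rcases h with h | h
  · subst h
    filter_upwards [germ_lr P k k (η := 1) (Or.inl rfl)] with φ h1 h2
    apply h1 h2
    have hs : 0 < Real.sin (φ + Real.pi - ang P k) := by
      have e : φ + Real.pi - ang P k = Real.pi - (ang P k - φ) := by ring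
      rw [e, Real.sin_pi_sub]
      exact Real.sin_pos_of_pos_of_lt_pi (by linarith [h2.2]) (by linarith [h2.1])
    obtain ⟨w, hw, h3⟩ := Ex_k P hs
    refine ⟨w, hw, fun d hd => ?_⟩
    rw [one_mul, rv_lr]
    exact Rch_of_Ex P (h3 d hd)
  · subst h
    filter_upwards [germ_lr P (k + 1) k (η := -1) (Or.inr rfl)] with φ h1 h2
    apply h1 h2
    have hs : Real.sin (φ + Real.pi) < 0 := by
      rw [Real.sin_add_pi]
      have := Real.sin_pos_of_pos_of_lt_pi h2.1 (h2.2.trans hg)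
      linarith
    obtain ⟨w, hw, h3⟩ := Ex_k1 P hs
    refine ⟨w, hw, fun d hd => ?_⟩
    rw [neg_one_mul, rv_lr, neg_neg]
    exact Rch_of_Ex P (h3 d hd)

theorem rot {i k : Fin n} (h : Irrational (ang P k / Real.pi)) : Full P i k := by
  by_cases hk : k = i
  · exact rot_ends P (Or.inl hk)
  by_cases hk1 : k + 1 = i
  · exact rot_ends P (Or.inr hk1)
  rw [full_iff]
  have hγ := ang_pos P k
  set O : Set ℝ := {φ | φ ∈ Ioo 0 (ang P k) ∧ Rch P i (lr P k φ 0)} with hO
  have hc : Continuous (fun φ : ℝ => lr P k φ 0) := by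
    have e : (fun φ : ℝ => lr P k φ 0) = fun φ : ℝ => vr P k (Complex.arg (P.dir (k + 1)) + φ) := by
      funext φ
      exact lr_zero P k φ
    rw [e]
    exact (continuous_vr P k).comp (continuous_const.add continuous_id)
  have hopen : IsOpen O := isOpen_Ioo.inter ((isOpen_Rch P i).preimage hc)
  have hne : O.Nonempty := by
    obtain ⟨α, h1, h2⟩ := vis P hk hk1
    obtain ⟨φ, hφ, h3⟩ := Into_exists P (norm_uv α) h1
    refine ⟨φ, hφ, ?_⟩
    have h4 : lr P k φ 0 = vr P k α := by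
      unfold lr vr
      rw [← h3, add_zero]
    rw [h4]
    exact Rch_of_Ex P h2
  have key : ∀ᵐ φ : ℝ, φ ∈ Ioo 0 (ang P k) →
      (fold (ang P k) (Real.pi - φ) ∈ O ∨ fold (ang P k) (Real.pi + φ) ∈ O) → φ ∈ O := by
    filter_upwards [germ_lr P i k (η := 1) (Or.inl rfl), germ_lr P i k (η := -1) (Or.inr rfl),
      ae_ne_mul hγ Real.pi, ae_ne_mul hγ (-Real.pi)] with φ h1 h2 h3 h4 h5 h6
    refine ⟨h5, ?_⟩
    rcases h6 with h6 | h6
    · apply h2 h5
      obtain ⟨w, hw, h7⟩ := cor_rev_neg P h5 (i := i) (fun m hm => h4 (-m) (by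
        push_cast
        linarith)) h6.2
      refine ⟨w, hw, fun d hd => ?_⟩
      rw [neg_one_mul]
      exact h7 d hd
    · apply h1 h5
      obtain ⟨w, hw, h7⟩ := cor_rev_pos P h5 (i := i) (fun m hm => h3 m (by linarith)) h6.2
      refine ⟨w, hw, fun d hd => ?_⟩
      rw [one_mul]
      exact h7 d hd
  have hfin := erg hγ h hopen.measurableSet (fun φ hφ => hφ.1) key (hopen.measure_ne_zero volume hne)
  filter_upwards [hfin] with φ h1 h2
  exact (h1 h2).2

end Pool.Agent.GRM
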